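import Pool.Agent.P.MP_064970_gt.Defs

/-! Calculus in a conformal chart. -/

open MeasureTheory Set Filter Topology Metric
open scoped RealInnerProductSpace ENNReal ComplexConjugate Real

noncomputable section

namespace MW

theorem ChartAPI_inner (x y : E) : ⟪x, y⟫ = x 0 * y 0 + x 1 * y 1 + x 2 * y 2 := by
  simp only [PiLp.inner_apply, Fin.sum_univ_three, RCLike.inner_apply, conj_trivial]
  ring

theorem ChartAPI_norm_sq (x : E) : ‖x‖ ^ 2 = x 0 * x 0 + x 1 * x 1 + x 2 * x 2 := by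
  rw [← real_inner_self_eq_norm_sq, ChartAPI_inner]

theorem ChartAPI_toLp {f : Fin 3 → ℂ → ℝ} {z : ℂ} (h : ∀ i, AnalyticAt ℝ (f i) z) :
    AnalyticAt ℝ (fun w => (WithLp.toLp 2 fun i => f i w : E)) z :=
  ((EuclideanSpace.equiv (Fin 3) ℝ).symm.analyticAt _).comp (analyticAt_pi_iff.2 h)

/-- The determinant of three vectors. -/
def ChartAPI_det (u v n : E) : ℝ :=
  (u 1 * v 2 - u 2 * v 1) * n 0 + (u 2 * v 0 - u 0 * v 2) * n 1 + (u 0 * v 1 - u 1 * v 0) * n 2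

theorem ChartAPI_det_sq {u v n : E} {J : ℝ} (huu : ‖u‖ ^ 2 = J) (hvv : ‖v‖ ^ 2 = J)
    (huv : ⟪u, v⟫ = 0) (hn : ‖n‖ = 1) (hu : ⟪n, u⟫ = 0) (hv : ⟪n, v⟫ = 0) :
    ChartAPI_det u v n ^ 2 = J ^ 2 := by
  have hnn : ‖n‖ ^ 2 = 1 := by rw [hn]; norm_num
  have key : ChartAPI_det u v n ^ 2 = ‖u‖ ^ 2 * ‖v‖ ^ 2 * ‖n‖ ^ 2
      + 2 * ⟪u, v⟫ * ⟪n, v⟫ * ⟪n, u⟫ - ‖u‖ ^ 2 * ⟪n, v⟫ ^ 2 - ‖v‖ ^ 2 * ⟪n, u⟫ ^ 2
      - ‖n‖ ^ 2 * ⟪u, v⟫ ^ 2 := by
    simp only [ChartAPI_norm_sq, ChartAPI_inner, ChartAPI_det]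
    ring
  rw [key, huu, hvv, hnn, huv, hu, hv]
  ring

theorem ChartAPI_zero {u v n d : E} (hD : ChartAPI_det u v n ≠ 0) (h1 : ⟪d, u⟫ = 0)
    (h2 : ⟪d, v⟫ = 0) (h3 : ⟪d, n⟫ = 0) : d = 0 := by
  rw [ChartAPI_inner] at h1 h2 h3
  have e0 : ChartAPI_det u v n * d 0 = 0 := by
    unfold ChartAPI_det
    linear_combination (v 1 * n 2 - v 2 * n 1) * h1 + (n 1 * u 2 - n 2 * u 1) * h2
      + (u 1 * v 2 - u 2 * v 1) * h3
  have e1 : ChartAPI_det u v n * d 1 = 0 := by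
    unfold ChartAPI_det
    linear_combination (v 2 * n 0 - v 0 * n 2) * h1 + (n 2 * u 0 - n 0 * u 2) * h2
      + (u 2 * v 0 - u 0 * v 2) * h3
  have e2 : ChartAPI_det u v n * d 2 = 0 := by
    unfold ChartAPI_det
    linear_combination (v 0 * n 1 - v 1 * n 0) * h1 + (n 0 * u 1 - n 1 * u 0) * h2
      + (u 0 * v 1 - u 1 * v 0) * h3
  ext i
  fin_cases i
  · exact (mul_eq_zero.1 e0).resolve_left hD
  · exact (mul_eq_zero.1 e1).resolve_left hD
  · exact (mul_eq_zero.1 e2).resolve_left hD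

theorem ChartAPI_cross {u v n : E} {J : ℝ} (hJ : 0 < J) (huu : ‖u‖ ^ 2 = J) (hvv : ‖v‖ ^ 2 = J)
    (huv : ⟪u, v⟫ = 0) (hn : ‖n‖ = 1) (hu : ⟪n, u⟫ = 0) (hv : ⟪n, v⟫ = 0) :
    |u 0 * v 1 - u 1 * v 0| = |n 2| * J := by
  have hD := ChartAPI_det_sq huu hvv huv hn hu hv
  have hD0 : ChartAPI_det u v n ≠ 0 := by
    intro h
    rw [h] at hD
    nlinarith
  have hnn : ‖n‖ ^ 2 = 1 := by rw [hn]; norm_num
  rw [ChartAPI_norm_sq] at hnn
  rw [ChartAPI_inner] at hu hv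
  have hz : (WithLp.toLp 2 ![u 1 * v 2 - u 2 * v 1 - ChartAPI_det u v n * n 0,
      u 2 * v 0 - u 0 * v 2 - ChartAPI_det u v n * n 1,
      u 0 * v 1 - u 1 * v 0 - ChartAPI_det u v n * n 2] : E) = 0 := by
    refine ChartAPI_zero hD0 ?_ ?_ ?_
    · rw [ChartAPI_inner]
      simp only [Matrix.cons_val_zero, Matrix.cons_val_one, Matrix.cons_val]
      linear_combination (-ChartAPI_det u v n) * hu
    · rw [ChartAPI_inner]
      simp only [Matrix.cons_val_zero, Matrix.cons_val_one, Matrix.cons_val]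
      linear_combination (-ChartAPI_det u v n) * hv
    · rw [ChartAPI_inner]
      simp only [Matrix.cons_val_zero, Matrix.cons_val_one, Matrix.cons_val]
      have : ChartAPI_det u v n = (u 1 * v 2 - u 2 * v 1) * n 0 + (u 2 * v 0 - u 0 * v 2) * n 1
        + (u 0 * v 1 - u 1 * v 0) * n 2 := rfl
      linear_combination (-ChartAPI_det u v n) * hnn - this
  have h2 : u 0 * v 1 - u 1 * v 0 - ChartAPI_det u v n * n 2 = 0 := by
    have := congrArg (fun x : E => x 2) hz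
    simpa using this
  have h3 : |ChartAPI_det u v n| = J := by
    rw [← abs_of_pos hJ]
    exact sq_eq_sq_iff_abs_eq_abs _ _ |>.1 hD
  rw [sub_eq_zero.1 h2, abs_mul, h3, mul_comm]

namespace Chart

variable (c : Chart)

theorem ChartAPI_an (i : Fin 3) : AnalyticOnNhd ℂ (c.Φ i) (ball 0 c.r) :=
  (c.hol i).analyticOnNhd isOpen_ball

theorem ChartAPI_re {f : ℂ → ℂ} {z : ℂ} (h : AnalyticAt ℂ f z) :
    AnalyticAt ℝ (fun w => (f w).re) z :=
  (Complex.reCLM.analyticAt _).comp h.restrictScalars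

theorem ChartAPI_im {f : ℂ → ℂ} {z : ℂ} (h : AnalyticAt ℂ f z) :
    AnalyticAt ℝ (fun w => (f w).im) z :=
  (Complex.imCLM.analyticAt _).comp h.restrictScalars

theorem ChartAPI_jac_eq (z : ℂ) : c.jac z = (‖c.Xu z‖ ^ 2 + ‖c.Xv z‖ ^ 2) / 2 := by
  simp only [jac, ChartAPI_norm_sq, Xu, Xv, Fin.sum_univ_three, Complex.sq_norm,
    Complex.normSq_apply]
  ring

theorem ChartAPI_null {z : ℂ} (hz : z ∈ ball (0 : ℂ) c.r) :
    ‖c.Xu z‖ ^ 2 = ‖c.Xv z‖ ^ 2 ∧ ⟪c.Xu z, c.Xv z⟫ = 0 := by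
  have h := c.null z hz
  rw [Fin.sum_univ_three] at h
  have h1 := congrArg Complex.re h
  have h2 := congrArg Complex.im h
  simp only [sq, Complex.add_re, Complex.mul_re, Complex.add_im, Complex.mul_im, Complex.zero_re,
    Complex.zero_im] at h1 h2
  simp only [ChartAPI_norm_sq, ChartAPI_inner, Xu, Xv]
  constructor
  · linarith
  · linarith

theorem ChartAPI_an_jac : AnalyticOnNhd ℝ c.jac (ball 0 c.r) := by
  intro z hz
  have e : c.jac = fun w => (∑ i, ((deriv (c.Φ i) w).re * (deriv (c.Φ i) w).re +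
      (deriv (c.Φ i) w).im * (deriv (c.Φ i) w).im)) * (1 / 2) := by
    funext w
    simp only [jac, Complex.sq_norm, Complex.normSq_apply]
    ring
  rw [e]
  refine AnalyticAt.mul (Finset.analyticAt_fun_sum _ fun i _ => ?_) analyticAt_const
  have h := (c.ChartAPI_an i).deriv z hz
  exact ((ChartAPI_re h).mul (ChartAPI_re h)).add ((ChartAPI_im h).mul (ChartAPI_im h))

theorem DX_apply (z w : ℂ) : c.DX z w = w.re • c.Xu z + w.im • c.Xv z := by
  simp [DX]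
theorem DX_apply_coord (z w : ℂ) (i : Fin 3) : c.DX z w i = (deriv (c.Φ i) z * w).re := by
  simp only [DX_apply, Xu, Xv, PiLp.add_apply, PiLp.smul_apply, smul_eq_mul, Complex.mul_re]
  ring
theorem hasFDerivAt_X {z : ℂ} (hz : z ∈ ball (0 : ℂ) c.r) : HasFDerivAt c.X (c.DX z) z := by
  have h : ∀ i, HasFDerivAt (fun w => (c.Φ i w).re)
      ((EuclideanSpace.proj i : E →L[ℝ] ℝ).comp (c.DX z)) z := by
    intro i
    have h1 : HasDerivAt (c.Φ i) (deriv (c.Φ i) z) z :=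
      (c.ChartAPI_an i z hz).differentiableAt.hasDerivAt
    have h2 := Complex.reCLM.hasFDerivAt.comp z (h1.hasFDerivAt.restrictScalars ℝ)
    refine h2.congr_fderiv (ContinuousLinearMap.ext fun w => Eq.symm ?_)
    change c.DX z w i = _
    rw [DX_apply_coord]
    simp [mul_comm]
  have h3 := (EuclideanSpace.equiv (Fin 3) ℝ).symm.hasFDerivAt.comp z (hasFDerivAt_pi.2 h)
  exact h3.congr_fderiv (ContinuousLinearMap.ext fun w => rfl)
theorem analyticOnNhd_X : AnalyticOnNhd ℝ c.X (ball 0 c.r) := fun z hz =>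
  ChartAPI_toLp fun i => ChartAPI_re (c.ChartAPI_an i z hz)
theorem analyticOnNhd_Xu : AnalyticOnNhd ℝ c.Xu (ball 0 c.r) := fun z hz =>
  ChartAPI_toLp fun i => ChartAPI_re ((c.ChartAPI_an i).deriv z hz)
theorem analyticOnNhd_Xv : AnalyticOnNhd ℝ c.Xv (ball 0 c.r) := fun z hz =>
  ChartAPI_toLp fun i => (ChartAPI_im ((c.ChartAPI_an i).deriv z hz)).neg
theorem contDiffOn_X (n : WithTop ℕ∞) : ContDiffOn ℝ n c.X (ball 0 c.r) := 
  c.analyticOnNhd_X.contDiffOn_of_completeSpace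
theorem continuousOn_X : ContinuousOn c.X (ball 0 c.r) := c.analyticOnNhd_X.continuousOn
theorem continuousOn_DX : ContinuousOn c.DX (ball 0 c.r) := by
  have h1 := (ContinuousLinearMap.smulRightL ℝ ℂ E Complex.reCLM).continuous.comp_continuousOn
    c.analyticOnNhd_Xu.continuousOn
  have h2 := (ContinuousLinearMap.smulRightL ℝ ℂ E Complex.imCLM).continuous.comp_continuousOn
    c.analyticOnNhd_Xv.continuousOn
  exact h1.add h2
theorem continuousOn_jac : ContinuousOn c.jac (ball 0 c.r) := c.ChartAPI_an_jac.continuousOn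
theorem measurable_jac : Measurable c.jac := by
  refine Measurable.div_const (Finset.measurable_sum _ fun i _ => ?_) 2
  exact (measurable_deriv (c.Φ i)).norm.pow_const 2
theorem jac_pos {z : ℂ} (hz : z ∈ ball (0 : ℂ) c.r) : 0 < c.jac z := by
  obtain ⟨i, hi⟩ := c.ne z hz
  refine div_pos (Finset.sum_pos' (fun j _ => by positivity) ⟨i, Finset.mem_univ _, ?_⟩) two_pos
  have := norm_pos_iff.2 hi
  positivity
theorem jac_nonneg (z : ℂ) : 0 ≤ c.jac z := by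
  unfold jac
  positivity
theorem norm_Xu_sq {z : ℂ} (hz : z ∈ ball (0 : ℂ) c.r) : ‖c.Xu z‖ ^ 2 = c.jac z := by
  rw [ChartAPI_jac_eq, ← (c.ChartAPI_null hz).1]
  ring
theorem norm_Xv_sq {z : ℂ} (hz : z ∈ ball (0 : ℂ) c.r) : ‖c.Xv z‖ ^ 2 = c.jac z := by
  rw [ChartAPI_jac_eq, (c.ChartAPI_null hz).1]
  ring
theorem inner_Xu_Xv {z : ℂ} (hz : z ∈ ball (0 : ℂ) c.r) : ⟪c.Xu z, c.Xv z⟫ = 0 := 
  (c.ChartAPI_null hz).2
theorem norm_DX_sq {z : ℂ} (hz : z ∈ ball (0 : ℂ) c.r) (w : ℂ) :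
    ‖c.DX z w‖ ^ 2 = c.jac z * ‖w‖ ^ 2 := by
  rw [DX_apply, norm_add_sq_real, norm_smul, norm_smul, mul_pow, mul_pow, real_inner_smul_left,
    real_inner_smul_right, c.norm_Xu_sq hz, c.norm_Xv_sq hz, c.inner_Xu_Xv hz, Complex.sq_norm,
    Complex.normSq_apply, Real.norm_eq_abs, Real.norm_eq_abs, sq_abs, sq_abs]
  ring
theorem injective_DX {z : ℂ} (hz : z ∈ ball (0 : ℂ) c.r) : Function.Injective (c.DX z) := by
  refine (injective_iff_map_eq_zero _).2 fun w hw => ?_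
  have h := c.norm_DX_sq hz w
  rw [hw, norm_zero] at h
  have hJ := c.jac_pos hz
  have h2 : ‖w‖ ^ 2 = 0 := by
    rcases mul_eq_zero.1 (h.symm.trans (by norm_num)) with h3 | h3
    · exact absurd h3 hJ.ne'
    · exact h3
  simpa using h2

/-- The complex orthogonality relation in real terms. -/
theorem nrm_iff (z : ℂ) (n : E) :
    ∑ i, ((n i : ℝ) : ℂ) * deriv (c.Φ i) z = 0 ↔ ⟪n, c.Xu z⟫ = 0 ∧ ⟪n, c.Xv z⟫ = 0 := by
  rw [Complex.ext_iff]
  simp only [Fin.sum_univ_three, Complex.add_re, Complex.add_im, Complex.re_ofReal_mul,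
    Complex.im_ofReal_mul, Complex.zero_re, Complex.zero_im, ChartAPI_inner, Xu, Xv]
  constructor
  · rintro ⟨h1, h2⟩
    exact ⟨h1, by linarith⟩
  · rintro ⟨h1, h2⟩
    exact ⟨h1, by linarith⟩

/-- Expansion in the orthogonal frame `X_u, X_v, n`. -/
theorem frame {z : ℂ} (hz : z ∈ ball (0 : ℂ) c.r) {n : E} (hn : ‖n‖ = 1)
    (hu : ⟪n, c.Xu z⟫ = 0) (hv : ⟪n, c.Xv z⟫ = 0) (v : E) :
    v = (⟪v, c.Xu z⟫ / c.jac z) • c.Xu z + (⟪v, c.Xv z⟫ / c.jac z) • c.Xv z + ⟪v, n⟫ • n := by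
  have hJ := c.jac_pos hz
  have huu := c.norm_Xu_sq hz
  have hvv := c.norm_Xv_sq hz
  have huv := c.inner_Xu_Xv hz
  have hD := ChartAPI_det_sq huu hvv huv hn hu hv
  have hD0 : ChartAPI_det (c.Xu z) (c.Xv z) n ≠ 0 := by
    intro h
    rw [h] at hD
    nlinarith
  have hvu : ⟪c.Xv z, c.Xu z⟫ = 0 := by rw [real_inner_comm]; exact huv
  have hun : ⟪c.Xu z, n⟫ = 0 := by rw [real_inner_comm]; exact hu
  have hvn : ⟪c.Xv z, n⟫ = 0 := by rw [real_inner_comm]; exact hv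
  rw [← sub_eq_zero]
  refine ChartAPI_zero hD0 ?_ ?_ ?_
  · simp only [inner_sub_left, inner_add_left, real_inner_smul_left, real_inner_self_eq_norm_sq,
      huu, hvu, hu]
    field_simp
    ring
  · simp only [inner_sub_left, inner_add_left, real_inner_smul_left, real_inner_self_eq_norm_sq,
      hvv, huv, hv]
    field_simp
    ring
  · simp only [inner_sub_left, inner_add_left, real_inner_smul_left, real_inner_self_eq_norm_sq,
      hn, hun, hvn]
    ring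

/-- A unit normal is determined up to sign. -/
theorem normal_eq_or {z : ℂ} (hz : z ∈ ball (0 : ℂ) c.r) {n m : E} (hn : ‖n‖ = 1) (hm : ‖m‖ = 1)
    (hu : ⟪n, c.Xu z⟫ = 0) (hv : ⟪n, c.Xv z⟫ = 0) (hu' : ⟪m, c.Xu z⟫ = 0)
    (hv' : ⟪m, c.Xv z⟫ = 0) : m = n ∨ m = -n := by
  have h := c.frame hz hn hu hv m
  rw [hu', hv', zero_div, zero_smul, zero_smul, zero_add, zero_add] at h
  have h1 : |⟪m, n⟫| = 1 := by
    have := congrArg norm h
    rw [norm_smul, hn, hm, mul_one, Real.norm_eq_abs] at this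
    exact this.symm
  rcases (abs_eq zero_le_one).1 h1 with h2 | h2
  · left
    rw [h, h2, one_smul]
  · right
    rw [h, h2, neg_one_smul]

/-- An analytic unit normal field (the normalised cross product). -/
theorem exists_normal : ∃ n : ℂ → E, AnalyticOnNhd ℝ n (ball 0 c.r) ∧
    ∀ z ∈ ball (0 : ℂ) c.r, ‖n z‖ = 1 ∧ ⟪n z, c.Xu z⟫ = 0 ∧ ⟪n z, c.Xv z⟫ = 0 := by
  refine ⟨fun z => WithLp.toLp 2 fun i =>
    (![c.Xu z 1 * c.Xv z 2 - c.Xu z 2 * c.Xv z 1, c.Xu z 2 * c.Xv z 0 - c.Xu z 0 * c.Xv z 2,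
      c.Xu z 0 * c.Xv z 1 - c.Xu z 1 * c.Xv z 0] : Fin 3 → ℝ) i / c.jac z, ?_, ?_⟩
  · intro z hz
    have hu : ∀ i, AnalyticAt ℝ (fun w => c.Xu w i) z := fun i =>
      ChartAPI_re ((c.ChartAPI_an i).deriv z hz)
    have hv : ∀ i, AnalyticAt ℝ (fun w => c.Xv w i) z := fun i =>
      (ChartAPI_im ((c.ChartAPI_an i).deriv z hz)).neg
    refine ChartAPI_toLp fun i => AnalyticAt.fun_div ?_ (c.ChartAPI_an_jac z hz) (c.jac_pos hz).ne'
    fin_cases i
    · exact ((hu 1).mul (hv 2)).sub ((hu 2).mul (hv 1))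
    · exact ((hu 2).mul (hv 0)).sub ((hu 0).mul (hv 2))
    · exact ((hu 0).mul (hv 1)).sub ((hu 1).mul (hv 0))
  · intro z hz
    have hJ := c.jac_pos hz
    have huu := c.norm_Xu_sq hz
    have hvv := c.norm_Xv_sq hz
    have huv := c.inner_Xu_Xv hz
    rw [ChartAPI_norm_sq] at huu hvv
    rw [ChartAPI_inner] at huv
    refine ⟨?_, ?_, ?_⟩
    · rw [← sq_eq_sq₀ (norm_nonneg _) zero_le_one, ChartAPI_norm_sq]
      simp only [Matrix.cons_val_zero, Matrix.cons_val_one, Matrix.cons_val]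
      field_simp
      linear_combination (c.Xv z 0 * c.Xv z 0 + c.Xv z 1 * c.Xv z 1 + c.Xv z 2 * c.Xv z 2) * huu
        + c.jac z * hvv
        - (c.Xu z 0 * c.Xv z 0 + c.Xu z 1 * c.Xv z 1 + c.Xu z 2 * c.Xv z 2) * huv
    · rw [ChartAPI_inner]
      simp only [Matrix.cons_val_zero, Matrix.cons_val_one, Matrix.cons_val]
      ring
    · rw [ChartAPI_inner]
      simp only [Matrix.cons_val_zero, Matrix.cons_val_one, Matrix.cons_val]
      ring

/-- The Jacobian of the projection along `A e3`. -/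
theorem abs_det_prA {z : ℂ} (hz : z ∈ ball (0 : ℂ) c.r) (A : E ≃ₗᵢ[ℝ] E) {n : E} (hn : ‖n‖ = 1)
    (hu : ⟪n, c.Xu z⟫ = 0) (hv : ⟪n, c.Xv z⟫ = 0) (P : E →L[ℝ] ℂ) (hP : ∀ x, P x = prA A x) :
    |(P.comp (c.DX z)).det| = |⟪n, A e3⟫| * c.jac z := by
  have h1 : (P.comp (c.DX z)).det = (A.symm (c.Xu z)) 0 * (A.symm (c.Xv z)) 1
      - (A.symm (c.Xu z)) 1 * (A.symm (c.Xv z)) 0 := by
    unfold ContinuousLinearMap.det
    rw [← LinearMap.det_toMatrix Complex.basisOneI, Matrix.det_fin_two]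
    simp [LinearMap.toMatrix_apply, hP, prA, pr, DX_apply]
    ring
  have h2 : ⟪n, A e3⟫ = (A.symm n) 2 := by
    rw [← A.symm.inner_map_map, A.symm_apply_apply, ChartAPI_inner]
    simp [e3, pt]
  rw [h1, h2]
  refine ChartAPI_cross (c.jac_pos hz) ?_ ?_ ?_ ?_ ?_ ?_
  · rw [A.symm.norm_map, c.norm_Xu_sq hz]
  · rw [A.symm.norm_map, c.norm_Xv_sq hz]
  · rw [A.symm.inner_map_map, c.inner_Xu_Xv hz]
  · rw [A.symm.norm_map, hn]
  · rw [A.symm.inner_map_map, hu]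
  · rw [A.symm.inner_map_map, hv]

@[simp] theorem shrink_X (ρ : ℝ) (h0 : 0 < ρ) (h : ρ ≤ c.r) : (c.shrink ρ h0 h).X = c.X := rfl
@[simp] theorem shrink_jac (ρ : ℝ) (h0 : 0 < ρ) (h : ρ ≤ c.r) :
    (c.shrink ρ h0 h).jac = c.jac := rfl
@[simp] theorem shrink_r (ρ : ℝ) (h0 : 0 < ρ) (h : ρ ≤ c.r) : (c.shrink ρ h0 h).r = ρ := rfl

variable {c} {S : Set E} {N : E → E} {μ : Measure E}

theorem Fits.emb (h : c.Fits S N μ) : c.Emb S := ⟨h.inj, h.opn⟩
theorem Fits.shrink (h : c.Fits S N μ) (ρ : ℝ) (h0 : 0 < ρ) (hρ : ρ ≤ c.r) :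
    (c.shrink ρ h0 hρ).Fits S N μ := 
  ⟨h.inj.mono (ball_subset_ball hρ), fun V hV hs => h.opn V hV (hs.trans (ball_subset_ball hρ)),
    fun z hz => h.nrm z (ball_subset_ball hρ hz),
    fun A hA hs => h.area A hA (hs.trans (ball_subset_ball hρ))⟩
theorem Emb.shrink (h : c.Emb S) (ρ : ℝ) (h0 : 0 < ρ) (hρ : ρ ≤ c.r) :
    (c.shrink ρ h0 hρ).Emb S := 
  ⟨h.inj.mono (ball_subset_ball hρ), fun V hV hs => h.opn V hV (hs.trans (ball_subset_ball hρ))⟩
theorem Emb.mem (h : c.Emb S) {z : ℂ} (hz : z ∈ ball (0 : ℂ) c.r) : c.X z ∈ S := by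
  obtain ⟨U, -, hU⟩ := h.opn _ isOpen_ball subset_rfl
  have : c.X z ∈ S ∩ U := hU ▸ mem_image_of_mem _ hz
  exact this.1
theorem Emb.map_nhds (h : c.Emb S) {z : ℂ} (hz : z ∈ ball (0 : ℂ) c.r) :
    map c.X (𝓝 z) = 𝓝[S] (c.X z) := by
  apply le_antisymm
  · refine tendsto_nhdsWithin_iff.2 ⟨c.continuousOn_X.continuousAt (isOpen_ball.mem_nhds hz), ?_⟩
    filter_upwards [isOpen_ball.mem_nhds hz] with w hw using h.mem hw
  · intro s hs
    obtain ⟨V, hVs, hV, hzV⟩ := _root_.mem_nhds_iff.1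
      (inter_mem (mem_map.1 hs) (isOpen_ball.mem_nhds hz))
    obtain ⟨U, hU, hUV⟩ := h.opn V hV fun w hw => (hVs hw).2
    have hm : c.X z ∈ S ∩ U := hUV ▸ mem_image_of_mem _ hzV
    refine mem_nhdsWithin.2 ⟨U, hU, hm.2, fun x hx => ?_⟩
    have : x ∈ c.X '' V := hUV ▸ ⟨hx.2, hx.1⟩
    obtain ⟨w, hw, rfl⟩ := this
    exact (hVs hw).1
theorem Emb.measurableSet_image (h : c.Emb S) {A : Set ℂ} (hA : MeasurableSet A)
    (hAr : A ⊆ ball 0 c.r) : MeasurableSet (c.X '' A) := 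
  hA.image_of_continuousOn_injOn (c.continuousOn_X.mono hAr) (h.inj.mono hAr)
theorem Fits.inner_Xu (h : c.Fits S N μ) {z : ℂ} (hz : z ∈ ball (0 : ℂ) c.r) :
    ⟪N (c.X z), c.Xu z⟫ = 0 := ((c.nrm_iff z _).1 (h.nrm z hz)).1
theorem Fits.inner_Xv (h : c.Fits S N μ) {z : ℂ} (hz : z ∈ ball (0 : ℂ) c.r) :
    ⟪N (c.X z), c.Xv z⟫ = 0 := ((c.nrm_iff z _).1 (h.nrm z hz)).2
theorem Fits.inner_DX (h : c.Fits S N μ) {z : ℂ} (hz : z ∈ ball (0 : ℂ) c.r) (w : ℂ) :
    ⟪N (c.X z), c.DX z w⟫ = 0 := by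
  rw [DX_apply, inner_add_right, real_inner_smul_right, real_inner_smul_right, h.inner_Xu hz,
    h.inner_Xv hz]
  ring

theorem ChartAPI_map (h : c.Fits S N μ) {A : Set ℂ} (hA : MeasurableSet A)
    (hAr : A ⊆ ball 0 c.r) : ∃ X' : ℂ → E, Measurable X' ∧ (∀ z ∈ A, X' z = c.X z) ∧
      μ.restrict (c.X '' A) =
        ((volume.restrict A).withDensity fun z => ENNReal.ofReal (c.jac z)).map X' := by
  classical
  have hm : Measurable ((ball (0 : ℂ) c.r).piecewise c.X fun _ => 0) :=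
    c.continuousOn_X.measurable_piecewise continuousOn_const measurableSet_ball
  have he : ∀ z ∈ A, (ball (0 : ℂ) c.r).piecewise c.X (fun _ => 0) z = c.X z := fun z hz =>
    piecewise_eq_of_mem _ _ _ (hAr hz)
  refine ⟨_, hm, he, ?_⟩
  ext s hs
  rw [Measure.restrict_apply hs, Measure.map_apply hm hs, withDensity_apply _ (hm hs),
    Measure.restrict_restrict (hm hs),
    ← h.area _ ((hm hs).inter hA) (inter_subset_right.trans hAr)]
  congr 1
  ext x
  constructor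
  · rintro ⟨hx, z, hz, rfl⟩
    exact ⟨z, ⟨by rw [mem_preimage, he z hz]; exact hx, hz⟩, rfl⟩
  · rintro ⟨z, ⟨h1, h2⟩, rfl⟩
    rw [mem_preimage, he z h2] at h1
    exact ⟨h1, z, h2, rfl⟩

/-- Integration in a chart. -/
theorem Fits.lintegral (h : c.Fits S N μ) {A : Set ℂ} (hA : MeasurableSet A)
    (hAr : A ⊆ ball 0 c.r) {g : E → ℝ≥0∞} (hg : Measurable g) :
    ∫⁻ x in c.X '' A, g x ∂μ = ∫⁻ z in A, g (c.X z) * ENNReal.ofReal (c.jac z) := by
  obtain ⟨X', hm, he, hμ⟩ := ChartAPI_map h hA hAr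
  rw [hμ, lintegral_map hg hm,
    lintegral_withDensity_eq_lintegral_mul _ c.measurable_jac.ennreal_ofReal
      (g := fun a => g (X' a)) (hg.comp hm)]
  refine setLIntegral_congr_fun hA fun z hz => ?_
  simp only [Pi.mul_apply, he z hz]
  rw [mul_comm]
theorem Fits.integral (h : c.Fits S N μ) {A : Set ℂ} (hA : MeasurableSet A)
    (hAr : A ⊆ ball 0 c.r) {g : E → ℝ} (hg : Measurable g) :
    ∫ x in c.X '' A, g x ∂μ = ∫ z in A, g (c.X z) * c.jac z := by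
  obtain ⟨X', hm, he, hμ⟩ := ChartAPI_map h hA hAr
  rw [hμ, integral_map hm.aemeasurable hg.aestronglyMeasurable,
    integral_withDensity_eq_integral_toReal_smul c.measurable_jac.ennreal_ofReal
      (Eventually.of_forall fun _ => ENNReal.ofReal_lt_top)]
  refine setIntegral_congr_fun hA fun z hz => ?_
  simp only [he z hz, ENNReal.toReal_ofReal (c.jac_nonneg z), smul_eq_mul]
  rw [mul_comm]

/-- If the normal is continuous on `S`, it is analytic in the chart. -/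
theorem Fits.analyticOnNhd_N (h : c.Fits S N μ) (hc : ContinuousOn N S)
    (hu : ∀ x ∈ S, ‖N x‖ = 1) : AnalyticOnNhd ℝ (fun z => N (c.X z)) (ball 0 c.r) := by
  obtain ⟨n, hn, hn'⟩ := c.exists_normal
  intro z hz
  have hor : ∀ w ∈ ball (0 : ℂ) c.r, N (c.X w) = n w ∨ N (c.X w) = -n w := fun w hw =>
    c.normal_eq_or hw (hn' w hw).1 (hu _ (h.emb.mem hw)) (hn' w hw).2.1 (hn' w hw).2.2
      (h.inner_Xu hw) (h.inner_Xv hw)
  have hN : ContinuousAt (fun w => N (c.X w)) z :=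
    (hc.comp c.continuousOn_X fun w hw => h.emb.mem hw).continuousAt (isOpen_ball.mem_nhds hz)
  have hs : ContinuousAt (fun w => ⟪N (c.X w), n w⟫) z := hN.inner (hn z hz).continuousAt
  rcases hor z hz with h1 | h1
  · have h2 : (0 : ℝ) < ⟪N (c.X z), n z⟫ := by
      rw [h1, real_inner_self_eq_norm_sq, (hn' z hz).1]
      norm_num
    refine (hn z hz).congr ?_
    filter_upwards [isOpen_ball.mem_nhds hz, hs.eventually (lt_mem_nhds h2)] with w hw h3
    rcases hor w hw with h4 | h4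
    · exact h4.symm
    · rw [h4, inner_neg_left, real_inner_self_eq_norm_sq, (hn' w hw).1] at h3
      norm_num at h3
  · have h2 : ⟪N (c.X z), n z⟫ < (0 : ℝ) := by
      rw [h1, inner_neg_left, real_inner_self_eq_norm_sq, (hn' z hz).1]
      norm_num
    refine (hn z hz).neg.congr ?_
    filter_upwards [isOpen_ball.mem_nhds hz, hs.eventually (gt_mem_nhds h2)] with w hw h3
    rcases hor w hw with h4 | h4
    · rw [h4, real_inner_self_eq_norm_sq, (hn' w hw).1] at h3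
      norm_num at h3
    · exact h4.symm

/-- A chart centred at any point of the image. -/
theorem Fits.recenter (h : c.Fits S N μ) {z : ℂ} (hz : z ∈ ball (0 : ℂ) c.r) :
    ∃ c' : Chart, c'.Fits S N μ ∧ c'.r = c.r - ‖z‖ ∧ ∀ w, c'.X w = c.X (z + w) := by
  have hm : ∀ w ∈ ball (0 : ℂ) (c.r - ‖z‖), z + w ∈ ball (0 : ℂ) c.r := by
    intro w hw
    rw [mem_ball_zero_iff] at hw ⊢
    have := norm_add_le z w
    linarith
  have hd : ∀ i w, deriv (fun w => c.Φ i (z + w)) w = deriv (c.Φ i) (z + w) := fun i w =>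
    deriv_comp_const_add (c.Φ i) z w
  let c' : Chart :=
    { r := c.r - ‖z‖
      Φ := fun i w => c.Φ i (z + w)
      r_pos := sub_pos.2 (mem_ball_zero_iff.1 hz)
      hol := fun i =>
        (c.hol i).comp ((differentiable_const z).add differentiable_id).differentiableOn hm
      null := fun w hw => by simpa only [hd] using c.null _ (hm w hw)
      ne := fun w hw => by simpa only [hd] using c.ne _ (hm w hw) }
  have hX : ∀ w, c'.X w = c.X (z + w) := fun w => rfl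
  have hJ : ∀ w, c'.jac w = c.jac (z + w) := fun w => by
    simp only [jac, c', hd]
  have him : ∀ A : Set ℂ, c'.X '' A = c.X '' ((fun w => z + w) '' A) := fun A => by
    rw [image_image]
    rfl
  have hsub : ∀ A : Set ℂ, A ⊆ ball 0 (c.r - ‖z‖) → (fun w => z + w) '' A ⊆ ball 0 c.r := by
    rintro A hA _ ⟨w, hw, rfl⟩
    exact hm w (hA hw)
  refine ⟨c', ⟨?_, ?_, ?_, ?_⟩, rfl, hX⟩
  · intro w hw w' hw' e
    exact add_left_cancel (h.inj (hm w hw) (hm w' hw') e)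
  · intro V hV hs
    rw [him]
    exact h.opn _ (isOpenMap_add_left z V hV) (hsub V hs)
  · intro w hw
    simpa only [c', hd, hX] using h.nrm _ (hm w hw)
  · intro A hA hs
    rw [him, h.area _ ((measurableEmbedding_addLeft z).measurableSet_image.2 hA) (hsub A hs),
      ← (measurePreserving_add_left volume z).setLIntegral_comp_emb
        (measurableEmbedding_addLeft z)]
    simp only [hJ]

end Chart

end MW
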