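import Pool.Agent.P.MP_064970_gt.B.Coord
import Pool.Agent.P.MP_064970_gt.B.ChartAPI

/-! First properties of surfaces, sides and densities. -/

open MeasureTheory Set Filter Topology Metric
open scoped RealInnerProductSpace ENNReal ComplexConjugate Real

noncomputable section

namespace MW

namespace Surf

variable (M : Surf)

theorem S_subset : M.S ⊆ M.O := by
  rw [M.cover]; exact subset_union_right
theorem W_subset : M.W ⊆ M.O := by
  rw [M.cover]; exact fun x hx => Or.inl (Or.inl hx)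
theorem W'_subset : M.W' ⊆ M.O := by
  rw [M.cover]; exact fun x hx => Or.inl (Or.inr hx)
theorem basic_S_eq : M.S = M.O \ (M.W ∪ M.W') := by
  ext x
  constructor
  · intro hx
    refine ⟨M.S_subset hx, ?_⟩
    rintro (h | h)
    · exact disjoint_left.1 M.disjS h hx
    · exact disjoint_left.1 M.disjS' h hx
  · rintro ⟨hO, hn⟩
    rw [M.cover] at hO
    rcases hO with h | h
    · exact absurd h hn
    · exact h
theorem measurableSet_S : MeasurableSet M.S := by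
  rw [M.basic_S_eq]
  exact M.isOpen_O.measurableSet.diff (M.isOpen_W.union M.isOpen_W').measurableSet
theorem mem_S_of_closure {x : E} (hO : x ∈ M.O) (hx : x ∈ closure M.S) : x ∈ M.S := by
  rw [M.basic_S_eq]
  refine ⟨hO, fun h => ?_⟩
  obtain ⟨y, hy, hyS⟩ := mem_closure_iff.1 hx _ (M.isOpen_W.union M.isOpen_W') h
  rcases hy with hy | hy
  · exact disjoint_left.1 M.disjS hy hyS
  · exact disjoint_left.1 M.disjS' hy hyS
theorem isCompact_inter {K : Set E} (hK : IsCompact K) (hO : K ⊆ M.O) : IsCompact (M.S ∩ K) := by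
  have : M.S ∩ K = K \ (M.W ∪ M.W') := by
    rw [M.basic_S_eq]
    ext x
    exact ⟨fun h => ⟨h.2, h.1.2⟩, fun h => ⟨⟨hO h.1, h.2⟩, h.1⟩⟩
  rw [this]
  exact hK.diff (M.isOpen_W.union M.isOpen_W')
theorem mem_cases {x : E} (hO : x ∈ M.O) : x ∈ M.W ∨ x ∈ M.W' ∨ x ∈ M.S := by
  rw [M.cover] at hO
  rcases hO with (h | h) | h
  · exact Or.inl h
  · exact Or.inr (Or.inl h)
  · exact Or.inr (Or.inr h)
theorem ae_mem : ∀ᵐ x ∂M.μ, x ∈ M.S := M.conc
theorem ae_unit : ∀ᵐ x ∂M.μ, ‖M.N x‖ = 1 := M.ae_mem.mono M.N_unit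
theorem restrict_S : M.μ.restrict M.S = M.μ := Measure.restrict_eq_self_of_ae_mem M.ae_mem
theorem measure_inter_S (A : Set E) : M.μ (A ∩ M.S) = M.μ A :=
  measure_inter_conull M.conc
theorem mu_lt_top {K : Set E} (hK : IsCompact K) (hO : K ⊆ M.O) : M.μ K < ∞ := by
  refine hK.measure_lt_top_of_nhdsWithin fun x hx => ?_
  by_cases hxS : x ∈ M.S
  · obtain ⟨c, hc, hf⟩ := M.chart x hxS
    have hr := c.r_pos
    have hsub : ball (0 : ℂ) (c.r / 2) ⊆ ball 0 c.r := ball_subset_ball (by linarith)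
    have hsub' : closedBall (0 : ℂ) (c.r / 2) ⊆ ball 0 c.r := closedBall_subset_ball (by linarith)
    obtain ⟨U, hU, hUe⟩ := hf.opn _ isOpen_ball hsub
    have hxU : x ∈ U := by
      have : x ∈ c.X '' ball (0 : ℂ) (c.r / 2) := ⟨0, mem_ball_self (by linarith), hc⟩
      rw [hUe] at this
      exact this.2
    refine ⟨U, mem_nhdsWithin_of_mem_nhds (hU.mem_nhds hxU), ?_⟩
    rw [← M.measure_inter_S U, inter_comm, ← hUe, hf.area _ measurableSet_ball hsub]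
    have hi : IntegrableOn c.jac (closedBall (0 : ℂ) (c.r / 2)) :=
      (c.continuousOn_jac.mono hsub').integrableOn_compact (isCompact_closedBall _ _)
    exact (hi.mono_set ball_subset_closedBall).lintegral_lt_top
  · have hW : x ∈ M.W ∪ M.W' := by
      rcases M.mem_cases (hO hx) with h | h | h
      · exact Or.inl h
      · exact Or.inr h
      · exact absurd h hxS
    refine ⟨M.W ∪ M.W',
      mem_nhdsWithin_of_mem_nhds ((M.isOpen_W.union M.isOpen_W').mem_nhds hW), ?_⟩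
    have : M.μ (M.W ∪ M.W') = 0 := by
      refine measure_mono_null ?_ M.conc
      rintro y (hy | hy) hS
      · exact disjoint_left.1 M.disjS hy hS
      · exact disjoint_left.1 M.disjS' hy hS
    rw [this]
    exact ENNReal.zero_lt_top
theorem mu_pos {p : E} (hp : p ∈ M.S) {U : Set E} (hU : U ∈ 𝓝 p) : 0 < M.μ U := by
  obtain ⟨c, hc, hf⟩ := M.chart p hp
  have hr := c.r_pos
  have h0 : (0 : ℂ) ∈ ball (0 : ℂ) c.r := mem_ball_self hr
  have hcont : ContinuousAt c.X 0 := c.continuousOn_X.continuousAt (isOpen_ball.mem_nhds h0)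
  have h1 : c.X ⁻¹' U ∩ ball 0 c.r ∈ 𝓝 (0 : ℂ) :=
    inter_mem (hcont.preimage_mem_nhds (hc ▸ hU)) (isOpen_ball.mem_nhds h0)
  obtain ⟨δ, hδ, hb⟩ := Metric.mem_nhds_iff.1 h1
  have hsub : ball (0 : ℂ) δ ⊆ ball 0 c.r := fun z hz => (hb hz).2
  have him : c.X '' ball (0 : ℂ) δ ⊆ U := by
    rintro _ ⟨z, hz, rfl⟩
    exact (hb hz).1
  refine lt_of_lt_of_le ?_ (measure_mono him)
  rw [hf.area _ measurableSet_ball hsub, setLIntegral_pos_iff
    (f := fun z => ENNReal.ofReal (c.jac z)) c.measurable_jac.ennreal_ofReal]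
  refine lt_of_lt_of_le (measure_ball_pos volume (0 : ℂ) hδ) (measure_mono fun z hz => ⟨?_, hz⟩)
  have := c.jac_pos (hsub hz)
  simpa [Function.mem_support] using this
/-- A relatively closed condition that holds almost everywhere holds everywhere on `S`. -/
theorem eq_zero_of_ae {g : E → ℝ} {U : Set E} (hU : IsOpen U) (hg : ContinuousOn g (M.S ∩ U))
    (h : ∀ᵐ x ∂M.μ, x ∈ U → g x = 0) : ∀ x ∈ M.S ∩ U, g x = 0 := by
  intro x hx
  by_contra hne
  have h1 : ∀ᶠ y in 𝓝[M.S ∩ U] x, g y ≠ 0 := (hg x hx).eventually_ne hne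
  rw [eventually_nhdsWithin_iff] at h1
  have h2 : {y | y ∈ U ∧ (y ∈ M.S ∩ U → g y ≠ 0)} ∈ 𝓝 x :=
    inter_mem (hU.mem_nhds hx.2) h1
  have h3 := M.mu_pos hx.1 h2
  have h4 : M.μ {y | y ∈ U ∧ (y ∈ M.S ∩ U → g y ≠ 0)} = 0 := by
    refine measure_eq_zero_iff_ae_notMem.2 ?_
    filter_upwards [h, M.ae_mem] with y hy hyS hmem
    exact hmem.2 ⟨hyS, hmem.1⟩ (hy hmem.1)
  exact h3.ne' h4
/-- Countably many charts cover `S`. -/
theorem exists_countable_charts (hne : M.S.Nonempty) : ∃ c : ℕ → Chart,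
    (∀ n, (c n).Fits M.S M.N M.μ) ∧ M.S ⊆ ⋃ n, (c n).X '' ball 0 ((c n).r / 2) := by
  classical
  obtain ⟨p0, hp0⟩ := hne
  have hch : ∀ p : E, ∃ c : Chart, c.Fits M.S M.N M.μ ∧ (p ∈ M.S → c.X 0 = p) := by
    intro p
    by_cases hp : p ∈ M.S
    · obtain ⟨c, hc, hf⟩ := M.chart p hp
      exact ⟨c, hf, fun _ => hc⟩
    · obtain ⟨c, _, hf⟩ := M.chart p0 hp0
      exact ⟨c, hf, fun h => absurd h hp⟩
  choose c hc hc0 using hch
  have hn : ∀ p ∈ M.S, (c p).X '' ball 0 ((c p).r / 2) ∈ 𝓝[M.S] p := by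
    intro p hp
    have hr := (c p).r_pos
    obtain ⟨U, hU, hUe⟩ := (hc p).opn (ball 0 ((c p).r / 2)) isOpen_ball
      (ball_subset_ball (by linarith))
    have hpU : p ∈ U := by
      have : p ∈ (c p).X '' ball (0 : ℂ) ((c p).r / 2) :=
        ⟨0, mem_ball_self (by linarith), hc0 p hp⟩
      rw [hUe] at this
      exact this.2
    rw [hUe]
    exact inter_mem_nhdsWithin _ (hU.mem_nhds hpU)
  obtain ⟨t, -, htc, hcov⟩ := TopologicalSpace.countable_cover_nhdsWithin hn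
  have htne : t.Nonempty := by
    obtain ⟨p, hp⟩ := mem_iUnion.1 (hcov hp0)
    obtain ⟨hpt, -⟩ := mem_iUnion.1 hp
    exact ⟨p, hpt⟩
  obtain ⟨e, he⟩ := htc.exists_eq_range htne
  refine ⟨fun n => c (e n), fun n => hc _, fun x hx => ?_⟩
  obtain ⟨p, hp⟩ := mem_iUnion.1 (hcov hx)
  obtain ⟨hpt, hxp⟩ := mem_iUnion.1 hp
  rw [he] at hpt
  obtain ⟨n, rfl⟩ := hpt
  exact mem_iUnion.2 ⟨n, hxp⟩

/-- A connected set that misses `S` lies on one side. -/
theorem subset_side {K : Set E} (hK : IsPreconnected K) (hO : K ⊆ M.O) (hS : Disjoint K M.S) :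
    K ⊆ M.W ∨ K ⊆ M.W' := by
  refine hK.subset_or_subset M.isOpen_W M.isOpen_W' M.disj fun x hx => ?_
  rcases M.mem_cases (hO hx) with h | h | h
  · exact Or.inl h
  · exact Or.inr h
  · exact absurd h (disjoint_left.1 hS hx)
theorem subset_W {K : Set E} (hK : IsPreconnected K) (hO : K ⊆ M.O) (hS : Disjoint K M.S)
    {x : E} (hx : x ∈ K) (hW : x ∈ M.W) : K ⊆ M.W := by
  rcases M.subset_side hK hO hS with h | h
  · exact h
  · exact absurd (h hx) (disjoint_left.1 M.disj hW)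
theorem subset_W' {K : Set E} (hK : IsPreconnected K) (hO : K ⊆ M.O) (hS : Disjoint K M.S)
    {x : E} (hx : x ∈ K) (hW : x ∈ M.W') : K ⊆ M.W' := by
  rcases M.subset_side hK hO hS with h | h
  · exact absurd hW (disjoint_left.1 M.disj (h hx))
  · exact h
/-- A segment from `W` to `W'` meets `S`. -/
theorem exists_cross {a b : E} (hO : segment ℝ a b ⊆ M.O) (ha : a ∈ M.W) (hb : b ∈ M.W') :
    ∃ x ∈ segment ℝ a b, x ∈ M.S := by
  by_contra hn
  push Not at hn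
  have := M.subset_W (convex_segment a b).isPreconnected hO (disjoint_left.2 hn)
    (left_mem_segment ℝ a b) ha
  exact disjoint_left.1 M.disj (this (right_mem_segment ℝ a b)) hb

theorem basic_mem_segment (a b : E) {t : ℝ} (ht : t ∈ Icc (0 : ℝ) 1) :
    a + t • (b - a) ∈ segment ℝ a b := by
  rw [segment_eq_image']
  exact ⟨t, ht, rfl⟩

/-- Along a line, two parameters with no point of `S` in between are on the same side. -/
theorem basic_same {a v : E} {p q : ℝ} (hpq : p ≤ q) (hO : ∀ t ∈ Icc p q, a + t • v ∈ M.O)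
    (hS : ∀ t ∈ Icc p q, a + t • v ∉ M.S) :
    (a + p • v ∈ M.W ↔ a + q • v ∈ M.W) ∧ (a + p • v ∈ M.W' ↔ a + q • v ∈ M.W') := by
  have hc : IsPreconnected ((fun t : ℝ => a + t • v) '' Icc p q) :=
    isPreconnected_Icc.image _ (by fun_prop)
  have hO' : (fun t : ℝ => a + t • v) '' Icc p q ⊆ M.O := by
    rintro _ ⟨t, ht, rfl⟩
    exact hO t ht
  have hS' : Disjoint ((fun t : ℝ => a + t • v) '' Icc p q) M.S := by
    refine disjoint_left.2 ?_
    rintro _ ⟨t, ht, rfl⟩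
    exact hS t ht
  have hp : a + p • v ∈ (fun t : ℝ => a + t • v) '' Icc p q := ⟨p, left_mem_Icc.2 hpq, rfl⟩
  have hq : a + q • v ∈ (fun t : ℝ => a + t • v) '' Icc p q := ⟨q, right_mem_Icc.2 hpq, rfl⟩
  exact ⟨⟨fun h => M.subset_W hc hO' hS' hp h hq, fun h => M.subset_W hc hO' hS' hq h hp⟩,
    ⟨fun h => M.subset_W' hc hO' hS' hp h hq, fun h => M.subset_W' hc hO' hS' hq h hp⟩⟩

/-- Just before a positive crossing the line is in `W`. -/
theorem basic_before {a v : E} {p s : ℝ} (hps : p < s) (hO : ∀ t ∈ Ico p s, a + t • v ∈ M.O)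
    (hS : ∀ t ∈ Ico p s, a + t • v ∉ M.S) (hs : a + s • v ∈ M.S)
    (h : 0 < ⟪v, M.N (a + s • v)⟫) : a + p • v ∈ M.W := by
  have h1 := M.side _ hs v h
  have h2 : ∀ᶠ t in 𝓝[>] (0 : ℝ), t ∈ Ioo (0 : ℝ) (s - p) := Ioo_mem_nhdsGT (by linarith)
  obtain ⟨t, ⟨-, ht⟩, ht0, ht1⟩ := (h1.and h2).exists
  have he : a + s • v - t • v = a + (s - t) • v := by rw [sub_smul]; abel
  rw [he] at ht
  refine (M.basic_same (p := p) (q := s - t) (by linarith) (fun u hu => hO u ⟨hu.1, ?_⟩)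
    (fun u hu => hS u ⟨hu.1, ?_⟩)).1.2 ht <;> linarith [hu.2]

/-- Just after a positive crossing the line is in `W'`. -/
theorem basic_after {a v : E} {s q : ℝ} (hsq : s < q) (hO : ∀ t ∈ Ioc s q, a + t • v ∈ M.O)
    (hS : ∀ t ∈ Ioc s q, a + t • v ∉ M.S) (hs : a + s • v ∈ M.S)
    (h : 0 < ⟪v, M.N (a + s • v)⟫) : a + q • v ∈ M.W' := by
  have h1 := M.side _ hs v h
  have h2 : ∀ᶠ t in 𝓝[>] (0 : ℝ), t ∈ Ioo (0 : ℝ) (q - s) := Ioo_mem_nhdsGT (by linarith)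
  obtain ⟨t, ⟨ht, -⟩, ht0, ht1⟩ := (h1.and h2).exists
  have he : a + s • v + t • v = a + (s + t) • v := by rw [add_smul]; abel
  rw [he] at ht
  refine (M.basic_same (p := s + t) (q := q) (by linarith) (fun u hu => hO u ⟨?_, hu.2⟩)
    (fun u hu => hS u ⟨?_, hu.2⟩)).2.1 ht <;> linarith [hu.1]

/-- A transversal crossing is isolated on the line. -/
theorem basic_isolated {a v : E} {s : ℝ} (hs : a + s • v ∈ M.S)
    (h : ⟪v, M.N (a + s • v)⟫ ≠ 0) :
    ∃ δ > 0, ∀ t, |t - s| < δ → t ≠ s → a + t • v ∉ M.S := by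
  have key : ∀ᶠ t in 𝓝[>] (0 : ℝ), a + s • v + t • v ∉ M.S ∧ a + s • v - t • v ∉ M.S := by
    rcases lt_or_gt_of_ne h with h | h
    · have h1 := M.side _ hs (-v) (by rw [inner_neg_left]; linarith)
      filter_upwards [h1] with t ht
      rw [smul_neg, ← sub_eq_add_neg, sub_neg_eq_add] at ht
      exact ⟨disjoint_left.1 M.disjS ht.2, disjoint_left.1 M.disjS' ht.1⟩
    · filter_upwards [M.side _ hs v h] with t ht
      exact ⟨disjoint_left.1 M.disjS' ht.1, disjoint_left.1 M.disjS ht.2⟩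
  obtain ⟨δ, hδ, hsub⟩ := mem_nhdsGT_iff_exists_Ioo_subset.1 key
  refine ⟨δ, hδ, fun t ht hne => ?_⟩
  rw [abs_lt] at ht
  rcases lt_or_gt_of_ne hne with hlt | hgt
  · have := (hsub (show s - t ∈ Ioo (0 : ℝ) δ from ⟨by linarith, by linarith⟩)).2
    have he : a + s • v - (s - t) • v = a + t • v := by rw [sub_smul]; abel
    rwa [he] at this
  · have := (hsub (show t - s ∈ Ioo (0 : ℝ) δ from ⟨by linarith, by linarith⟩)).1
    have he : a + s • v + (t - s) • v = a + t • v := by rw [sub_smul]; abel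
    rwa [he] at this

theorem basic_compact {a v : E} {p q : ℝ} (hO : ∀ t ∈ Icc p q, a + t • v ∈ M.O) :
    IsCompact {t | t ∈ Icc p q ∧ a + t • v ∈ M.S} := by
  have hc : Continuous fun t : ℝ => a + t • v := by fun_prop
  have : {t | t ∈ Icc p q ∧ a + t • v ∈ M.S}
      = Icc p q \ (fun t : ℝ => a + t • v) ⁻¹' (M.W ∪ M.W') := by
    ext t
    constructor
    · rintro ⟨ht, hS⟩
      rw [M.basic_S_eq] at hS
      exact ⟨ht, hS.2⟩
    · rintro ⟨ht, hn⟩
      refine ⟨ht, ?_⟩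
      rw [M.basic_S_eq]
      exact ⟨hO t ht, hn⟩
  rw [this]
  exact isCompact_Icc.diff ((M.isOpen_W.union M.isOpen_W').preimage hc)

/-- ONE-CROSS. -/
theorem one_cross {x y : E} (hx : x ∈ M.S) (hy : y ∈ M.S) (hO : segment ℝ x y ⊆ M.O)
    (h : ∀ z ∈ segment ℝ x y, z ∈ M.S → 0 < ⟪y - x, M.N z⟫) : False := by
  set v := y - x with hv
  have hseg : ∀ t ∈ Icc (0 : ℝ) 1, x + t • v ∈ segment ℝ x y := fun t ht =>
    basic_mem_segment x y ht
  have h0 : x + (0 : ℝ) • v ∈ M.S := by simpa using hx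
  have h1 : x + (1 : ℝ) • v ∈ M.S := by simpa [hv] using hy
  have hp0 := h _ (hseg 0 ⟨le_rfl, zero_le_one⟩) h0
  obtain ⟨δ, hδ, hiso⟩ := M.basic_isolated h0 hp0.ne'
  set p := min (δ / 2) (1 / 2) with hp
  have hp1 : 0 < p := lt_min (by linarith) (by norm_num)
  have hp2 : p ≤ δ / 2 := min_le_left _ _
  have hp3 : p ≤ 1 / 2 := min_le_right _ _
  have hA : x + p • v ∈ M.W' := by
    refine M.basic_after hp1 (fun t ht => hO (hseg t ⟨ht.1.le, by linarith [ht.2]⟩))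
      (fun t ht => hiso t ?_ ht.1.ne') h0 hp0
    rw [sub_zero, abs_of_pos ht.1]
    linarith [ht.2]
  have hK := M.basic_compact (a := x) (v := v) (p := p) (q := 1)
    fun t ht => hO (hseg t ⟨by linarith [ht.1], ht.2⟩)
  obtain ⟨s, ⟨hs, hsS⟩, hmin⟩ := hK.exists_isLeast ⟨1, ⟨by linarith, le_rfl⟩, h1⟩
  have hps : p < s := by
    refine lt_of_le_of_ne hs.1 fun he => ?_
    rw [← he] at hsS
    exact disjoint_left.1 M.disjS' hA hsS
  have hB : x + p • v ∈ M.W := by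
    refine M.basic_before hps
      (fun t ht => hO (hseg t ⟨by linarith [ht.1], by linarith [ht.2, hs.2]⟩))
      (fun t ht hS => ?_) hsS (h _ (hseg s ⟨by linarith [hs.1], hs.2⟩) hsS)
    have := hmin ⟨⟨ht.1, by linarith [ht.2, hs.2]⟩, hS⟩
    linarith [ht.2]
  exact disjoint_left.1 M.disj hB hA

theorem basic_inner_pos {v ν n : E} {ε : ℝ} (hn : ‖n - ν‖ ≤ ε) (h : ε * ‖v‖ < ⟪v, ν⟫) :
    0 < ⟪v, n⟫ := by
  have h1 : ⟪v, n⟫ = ⟪v, ν⟫ + ⟪v, n - ν⟫ := by rw [inner_sub_right]; ring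
  have h2 : |⟪v, n - ν⟫| ≤ ‖v‖ * ‖n - ν‖ := abs_real_inner_le_norm _ _
  have h3 : ‖v‖ * ‖n - ν‖ ≤ ‖v‖ * ε := mul_le_mul_of_nonneg_left hn (norm_nonneg _)
  have h4 := neg_abs_le ⟪v, n - ν⟫
  linarith

/-- SLOPE. -/
theorem slope {K : Set E} (hK : Convex ℝ K) (hO : K ⊆ M.O) {ν : E} {ε : ℝ}
    (h : ∀ z ∈ M.S ∩ K, ‖M.N z - ν‖ ≤ ε) {x y : E} (hx : x ∈ M.S ∩ K) (hy : y ∈ M.S ∩ K) :
    |⟪x - y, ν⟫| ≤ ε * ‖x - y‖ := by
  have key : ∀ a ∈ M.S ∩ K, ∀ b ∈ M.S ∩ K, ⟪b - a, ν⟫ ≤ ε * ‖b - a‖ := by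
    intro a ha b hb
    by_contra hlt
    push Not at hlt
    have hs : segment ℝ a b ⊆ K := hK.segment_subset ha.2 hb.2
    exact M.one_cross ha.1 hb.1 (hs.trans hO) fun z hz hzS =>
      basic_inner_pos (h z ⟨hzS, hs hz⟩) hlt
  refine abs_le.2 ⟨?_, key y hy x hx⟩
  have := key x hx y hy
  rw [← neg_sub x y, inner_neg_left, norm_neg] at this
  linarith
/-- One transversal crossing changes the side. -/
theorem par_one {a b x : E} (hO : segment ℝ a b ⊆ M.O) (ha : a ∉ M.S) (hb : b ∉ M.S)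
    (hx : segment ℝ a b ∩ M.S = {x}) (h : 0 < ⟪b - a, M.N x⟫) : a ∈ M.W ∧ b ∈ M.W' := by
  set v := b - a with hv
  have hseg : ∀ t ∈ Icc (0 : ℝ) 1, a + t • v ∈ segment ℝ a b := fun t ht =>
    basic_mem_segment a b ht
  have hxm : x ∈ segment ℝ a b ∩ M.S := by rw [hx]; exact mem_singleton x
  obtain ⟨hxs, hxS⟩ := hxm
  rw [segment_eq_image'] at hxs
  obtain ⟨s, hs, hsx⟩ := hxs
  have hsx' : a + s • v = x := hsx
  have hv0 : v ≠ 0 := by
    intro h0
    rw [h0, inner_zero_left] at h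
    exact lt_irrefl _ h
  have hno : ∀ t ∈ Icc (0 : ℝ) 1, t ≠ s → a + t • v ∉ M.S := by
    intro t ht hne hS
    have : a + t • v ∈ segment ℝ a b ∩ M.S := ⟨hseg t ht, hS⟩
    rw [hx, mem_singleton_iff, ← hsx', add_right_inj] at this
    exact hne (smul_left_injective ℝ hv0 this)
  have hs0 : 0 < s := by
    refine lt_of_le_of_ne hs.1 fun he => ha ?_
    rw [← he, zero_smul, add_zero] at hsx'
    exact hsx' ▸ hxS
  have hs1 : s < 1 := by
    refine lt_of_le_of_ne hs.2 fun he => hb ?_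
    rw [he, one_smul, hv, add_sub_cancel] at hsx'
    exact hsx' ▸ hxS
  have hA := M.basic_before (a := a) (v := v) hs0
    (fun t ht => hO (hseg t ⟨ht.1, by linarith [ht.2]⟩))
    (fun t ht => hno t ⟨ht.1, by linarith [ht.2]⟩ ht.2.ne) (hsx' ▸ hxS) (hsx' ▸ h)
  have hB := M.basic_after (a := a) (v := v) hs1
    (fun t ht => hO (hseg t ⟨by linarith [ht.1], ht.2⟩))
    (fun t ht => hno t ⟨by linarith [ht.1], ht.2⟩ ht.1.ne') (hsx' ▸ hxS) (hsx' ▸ h)
  rw [zero_smul, add_zero] at hA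
  rw [one_smul, hv, add_sub_cancel] at hB
  exact ⟨hA, hB⟩

/-- One transversal crossing of either sign changes the side. -/
theorem basic_flip {a v : E} {p s q : ℝ} (hps : p < s) (hsq : s < q)
    (hO : ∀ t ∈ Icc p q, a + t • v ∈ M.O) (hS : ∀ t ∈ Icc p q, t ≠ s → a + t • v ∉ M.S)
    (hs : a + s • v ∈ M.S) (h : ⟪v, M.N (a + s • v)⟫ ≠ 0) :
    (a + p • v ∈ M.W ↔ a + q • v ∉ M.W) := by
  have hO1 : ∀ t ∈ Ico p s, a + t • v ∈ M.O := fun t ht => hO t ⟨ht.1, by linarith [ht.2]⟩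
  have hO2 : ∀ t ∈ Ioc s q, a + t • v ∈ M.O := fun t ht => hO t ⟨by linarith [ht.1], ht.2⟩
  have hS1 : ∀ t ∈ Ico p s, a + t • v ∉ M.S := fun t ht =>
    hS t ⟨ht.1, by linarith [ht.2]⟩ ht.2.ne
  have hS2 : ∀ t ∈ Ioc s q, a + t • v ∉ M.S := fun t ht =>
    hS t ⟨by linarith [ht.1], ht.2⟩ ht.1.ne'
  rcases lt_or_gt_of_ne h with h | h
  · have h' : 0 < ⟪v, M.swap.N (a + s • v)⟫ := by
      change 0 < ⟪v, -M.N (a + s • v)⟫
      rw [inner_neg_right]
      linarith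
    have hA : a + p • v ∈ M.W' := M.swap.basic_before hps hO1 hS1 hs h'
    have hB : a + q • v ∈ M.W := M.swap.basic_after hsq hO2 hS2 hs h'
    exact ⟨fun hW => absurd hA (disjoint_left.1 M.disj hW), fun hn => absurd hB hn⟩
  · have hA := M.basic_before hps hO1 hS1 hs h
    have hB := M.basic_after hsq hO2 hS2 hs h
    exact ⟨fun _ hW => disjoint_left.1 M.disj hW hB, fun _ => hA⟩

theorem basic_finite {a v : E} {p q : ℝ} (hO : ∀ t ∈ Icc p q, a + t • v ∈ M.O)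
    (h : ∀ t ∈ Icc p q, a + t • v ∈ M.S → ⟪v, M.N (a + t • v)⟫ ≠ 0) :
    {t | t ∈ Icc p q ∧ a + t • v ∈ M.S}.Finite := by
  refine (M.basic_compact hO).finite ?_
  rw [isDiscrete_iff_forall_mem_exists_isOpen]
  intro s hs
  obtain ⟨δ, hδ, hiso⟩ := M.basic_isolated hs.2 (h s hs.1 hs.2)
  refine ⟨ball s δ, isOpen_ball, ?_⟩
  ext t
  constructor
  · rintro ⟨ht, ht'⟩
    by_contra hne
    exact hiso t (by simpa [Real.dist_eq] using ht) hne ht'.2
  · rintro rfl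
    exact ⟨mem_ball_self hδ, hs⟩

theorem basic_par {a v : E} {q : ℝ} (hq : a + q • v ∉ M.S) (n : ℕ) :
    ∀ p : ℝ, p ≤ q → (∀ t ∈ Icc p q, a + t • v ∈ M.O) →
      (∀ t ∈ Icc p q, a + t • v ∈ M.S → ⟪v, M.N (a + t • v)⟫ ≠ 0) → a + p • v ∉ M.S →
      {t | t ∈ Icc p q ∧ a + t • v ∈ M.S}.ncard = n →
      ((a + p • v ∈ M.W ↔ a + q • v ∈ M.W) ↔ Even n) := by
  induction n with
  | zero =>
    intro p hpq hO h hp hn
    rw [ncard_eq_zero (M.basic_finite hO h)] at hn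
    have hS : ∀ t ∈ Icc p q, a + t • v ∉ M.S := by
      intro t ht hS
      have : t ∈ {t | t ∈ Icc p q ∧ a + t • v ∈ M.S} := ⟨ht, hS⟩
      rw [hn] at this
      exact this
    exact ⟨fun _ => Even.zero, fun _ => (M.basic_same hpq hO hS).1⟩
  | succ n ih =>
    intro p hpq hO h hp hn
    have hfin := M.basic_finite hO h
    have hne : {t | t ∈ Icc p q ∧ a + t • v ∈ M.S}.Nonempty := by
      rw [← ncard_pos hfin, hn]
      exact Nat.succ_pos n
    obtain ⟨s, ⟨hs, hsS⟩, hmin⟩ := (M.basic_compact hO).exists_isLeast hne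
    have hps : p < s := lt_of_le_of_ne hs.1 fun he => hp (he ▸ hsS)
    have hsq : s < q := lt_of_le_of_ne hs.2 fun he => hq (he ▸ hsS)
    obtain ⟨δ, hδ, hiso⟩ := M.basic_isolated hsS (h s hs hsS)
    set m := min (s + δ / 2) q with hm
    have hm1 : s < m := lt_min (by linarith) hsq
    have hm2 : m ≤ s + δ / 2 := min_le_left _ _
    have hm3 : m ≤ q := min_le_right _ _
    have hno : ∀ t ∈ Icc p m, t ≠ s → a + t • v ∉ M.S := by
      intro t ht hne' hS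
      have h1 : s ≤ t := hmin ⟨⟨ht.1, ht.2.trans hm3⟩, hS⟩
      refine hiso t ?_ hne' hS
      rw [abs_of_nonneg (by linarith)]
      linarith [ht.2]
    have hflip := M.basic_flip hps hm1 (fun t ht => hO t ⟨ht.1, ht.2.trans hm3⟩) hno hsS
      (h s hs hsS)
    have hset : {t | t ∈ Icc m q ∧ a + t • v ∈ M.S}
        = {t | t ∈ Icc p q ∧ a + t • v ∈ M.S} \ {s} := by
      ext t
      constructor
      · rintro ⟨ht, hS⟩
        refine ⟨⟨⟨by linarith [ht.1], ht.2⟩, hS⟩, fun he => ?_⟩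
        rw [mem_singleton_iff] at he
        linarith [ht.1]
      · rintro ⟨⟨ht, hS⟩, hne'⟩
        refine ⟨⟨?_, ht.2⟩, hS⟩
        by_contra hlt
        push Not at hlt
        exact hno t ⟨ht.1, hlt.le⟩ hne' hS
    have hcard : {t | t ∈ Icc m q ∧ a + t • v ∈ M.S}.ncard = n := by
      rw [hset, ncard_sdiff_singleton_of_mem
        (show s ∈ {t | t ∈ Icc p q ∧ a + t • v ∈ M.S} from ⟨hs, hsS⟩), hn]
      rfl
    have hih := ih m hm3 (fun t ht => hO t ⟨by linarith [ht.1], ht.2⟩)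
      (fun t ht => h t ⟨by linarith [ht.1], ht.2⟩)
      (hno m ⟨by linarith, le_rfl⟩ hm1.ne') hcard
    rw [Nat.even_add_one, ← hih, hflip]
    tauto

/-- PAR. -/
theorem par {a b : E} (hO : segment ℝ a b ⊆ M.O) (ha : a ∉ M.S) (hb : b ∉ M.S)
    (h : ∀ x ∈ segment ℝ a b ∩ M.S, ⟪b - a, M.N x⟫ ≠ 0) :
    (segment ℝ a b ∩ M.S).Finite ∧
      ((a ∈ M.W ↔ b ∈ M.W) ↔ Even (segment ℝ a b ∩ M.S).ncard) := by
  by_cases hab : a = b
  · subst hab
    have : segment ℝ a a ∩ M.S = ∅ := by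
      rw [segment_same]
      exact singleton_inter_eq_empty.2 ha
    rw [this]
    simp
  set v := b - a with hv
  have hv0 : v ≠ 0 := sub_ne_zero.2 (Ne.symm hab)
  have hseg : ∀ t ∈ Icc (0 : ℝ) 1, a + t • v ∈ segment ℝ a b := fun t ht =>
    basic_mem_segment a b ht
  have hO' : ∀ t ∈ Icc (0 : ℝ) 1, a + t • v ∈ M.O := fun t ht => hO (hseg t ht)
  have h' : ∀ t ∈ Icc (0 : ℝ) 1, a + t • v ∈ M.S → ⟪v, M.N (a + t • v)⟫ ≠ 0 :=
    fun t ht hS => h _ ⟨hseg t ht, hS⟩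
  have him : segment ℝ a b ∩ M.S
      = (fun t : ℝ => a + t • v) '' {t | t ∈ Icc (0 : ℝ) 1 ∧ a + t • v ∈ M.S} := by
    ext x
    constructor
    · rintro ⟨hx, hS⟩
      rw [segment_eq_image'] at hx
      obtain ⟨t, ht, rfl⟩ := hx
      exact ⟨t, ⟨ht, hS⟩, rfl⟩
    · rintro ⟨t, ⟨ht, hS⟩, rfl⟩
      exact ⟨hseg t ht, hS⟩
  have hinj : Function.Injective fun t : ℝ => a + t • v := fun s t hst =>
    smul_left_injective ℝ hv0 (add_left_cancel hst)
  have h0 : a + (0 : ℝ) • v = a := by simp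
  have h1 : a + (1 : ℝ) • v = b := by simp [hv]
  refine ⟨him ▸ (M.basic_finite hO' h').image _, ?_⟩
  rw [him, ncard_image_of_injective _ hinj]
  have := M.basic_par (a := a) (v := v) (q := 1) (h1.symm ▸ hb) _ 0 zero_le_one hO' h'
    (h0.symm ▸ ha) rfl
  rwa [h0, h1] at this

theorem basic_cone {p ν : E} {ρ ε : ℝ} (hp : p ∈ M.S)
    (hO : ball p ρ ⊆ M.O) (h : ∀ z ∈ M.S ∩ ball p ρ, ‖M.N z - ν‖ ≤ ε) {z : E}
    (hz : z ∈ ball p ρ) (hlt : ε * ‖z - p‖ < ⟪z - p, ν⟫) : z ∈ M.W' := by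
  have hρ : 0 < ρ := pos_of_mem_ball hz
  have hpb : p ∈ ball p ρ := mem_ball_self hρ
  set v := z - p with hv
  have hb : ∀ t ∈ Icc (0 : ℝ) 1, p + t • v ∈ ball p ρ := fun t ht =>
    (convex_ball p ρ).segment_subset hpb hz (basic_mem_segment p z ht)
  have h0 : p + (0 : ℝ) • v = p := by simp
  have h1 : p + (1 : ℝ) • v = z := by simp [hv]
  have := M.basic_after (a := p) (v := v) zero_lt_one (fun t ht => hO (hb t ⟨ht.1.le, ht.2⟩))
    (fun t ht hS => ?_) (h0.symm ▸ hp) (h0.symm ▸ basic_inner_pos (h p ⟨hp, hpb⟩) hlt)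
  · rwa [h1] at this
  · have hs := M.slope (convex_ball p ρ) hO h ⟨hS, hb t ⟨ht.1.le, ht.2⟩⟩ ⟨hp, hpb⟩
    rw [add_sub_cancel_left, inner_smul_left, norm_smul, Real.norm_eq_abs, abs_of_pos ht.1] at hs
    have h2 := le_abs_self ((starRingEnd ℝ) t * ⟪v, ν⟫)
    simp only [conj_trivial] at hs h2
    nlinarith [ht.1]

/-- Cones over a point of `S` inside a ball where the normals are close to `ν`. -/
theorem cone_sides {p ν : E} {ρ ε : ℝ} (hp : p ∈ M.S) (hν : ‖ν‖ = 1) (hε : ε < 1)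
    (hO : ball p ρ ⊆ M.O) (h : ∀ z ∈ M.S ∩ ball p ρ, ‖M.N z - ν‖ ≤ ε) {z : E}
    (hz : z ∈ ball p ρ) :
    (ε * ‖z - p‖ < ⟪z - p, ν⟫ → z ∈ M.W') ∧ (⟪z - p, ν⟫ < -(ε * ‖z - p‖) → z ∈ M.W) := by
  refine ⟨fun hlt => M.basic_cone hp hO h hz hlt, fun hlt => ?_⟩
  refine M.swap.basic_cone (ν := -ν) (ε := ε) hp hO (fun w hw => ?_) hz ?_
  · change ‖-M.N w - -ν‖ ≤ ε
    rw [← neg_sub', norm_neg]
    exact h w hw
  · rw [inner_neg_right]
    linarith
/-- The graph covers the disc of half the radius. -/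
theorem cover_disc {p ν : E} {ρ ε : ℝ} (hp : p ∈ M.S) (hν : ‖ν‖ = 1) (hε0 : 0 ≤ ε)
    (hε : ε ≤ 1 / 2) (hO : ball p ρ ⊆ M.O) (h : ∀ z ∈ M.S ∩ ball p ρ, ‖M.N z - ν‖ ≤ ε) {w : E}
    (hw : ⟪w, ν⟫ = 0) (hwρ : ‖w‖ < ρ / 2) :
    ∃ t : ℝ, |t| ≤ 2 * ε * ‖w‖ ∧ p + w + t • ν ∈ M.S := by
  by_contra hn
  push Not at hn
  set t0 := 2 * ε * ‖w‖ with ht0
  have hw0 := norm_nonneg w
  have ht00 : 0 ≤ t0 := by positivity
  have ht01 : t0 ≤ ‖w‖ := by nlinarith
  have hνν : ⟪ν, ν⟫ = (1 : ℝ) := by rw [real_inner_self_eq_norm_sq, hν]; norm_num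
  have hsub : ∀ t : ℝ, p + w + t • ν - p = w + t • ν := fun t => by abel
  have hnorm : ∀ t : ℝ, ‖w + t • ν‖ ≤ ‖w‖ + |t| := fun t => by
    refine (norm_add_le _ _).trans ?_
    rw [norm_smul, hν, Real.norm_eq_abs, mul_one]
  have hinner : ∀ t : ℝ, ⟪w + t • ν, ν⟫ = t := fun t => by
    rw [inner_add_left, inner_smul_left, hw, hνν]
    simp
  have hball : ∀ t : ℝ, |t| < ρ / 2 → p + w + t • ν ∈ ball p ρ := fun t ht => by
    rw [mem_ball, dist_eq_norm, hsub]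
    linarith [hnorm t]
  have hcone : ∀ t : ℝ, t0 < |t| → ε * ‖w + t • ν‖ < |t| := fun t ht => by
    have h1 : ε * ‖w + t • ν‖ ≤ ε * (‖w‖ + |t|) := mul_le_mul_of_nonneg_left (hnorm t) hε0
    have h2 : ε * |t| ≤ |t| / 2 := by nlinarith [abs_nonneg t]
    nlinarith
  have hup : ∀ t : ℝ, t0 < t → t < ρ / 2 → p + w + t • ν ∈ M.W' := fun t h1 h2 => by
    have ha : |t| = t := abs_of_nonneg (by linarith)
    refine (M.cone_sides hp hν (by linarith) hO h (hball t (by rwa [ha]))).1 ?_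
    rw [hsub, hinner]
    have := hcone t (by rwa [ha])
    rwa [ha] at this
  have hdn : ∀ t : ℝ, t < -t0 → -(ρ / 2) < t → p + w + t • ν ∈ M.W := fun t h1 h2 => by
    have ha : |t| = -t := abs_of_nonpos (by linarith)
    refine (M.cone_sides hp hν (by linarith) hO h (hball t (by rw [ha]; linarith))).2 ?_
    rw [hsub, hinner]
    have := hcone t (by rw [ha]; linarith)
    rw [ha] at this
    linarith
  set s := (t0 + ρ / 2) / 2 with hs
  have hs1 : t0 < s := by rw [hs]; linarith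
  have hs2 : s < ρ / 2 := by rw [hs]; linarith
  have hsame := M.basic_same (a := p + w) (v := ν) (p := -s) (q := s) (by linarith)
    (fun t ht => hO (hball t (abs_lt.2 ⟨by linarith [ht.1], by linarith [ht.2]⟩)))
    (fun t ht hS => by
      rcases lt_or_ge t0 t with h1 | h1
      · exact disjoint_left.1 M.disjS' (hup t h1 (by linarith [ht.2])) hS
      rcases lt_or_ge t (-t0) with h2 | h2
      · exact disjoint_left.1 M.disjS (hdn t h2 (by linarith [ht.1])) hS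
      · exact hn t (abs_le.2 ⟨h2, h1⟩) hS)
  exact disjoint_left.1 M.disj (hsame.1.1 (hdn (-s) (by linarith) (by linarith)))
    (hup s hs1 hs2)

theorem basic_ball {p : E} (hp : p ∈ M.S) {ε : ℝ} (hε : 0 < ε) :
    ∃ r, 0 < r ∧ ball p r ⊆ M.O ∧ ∀ z ∈ M.S ∩ ball p r, ‖M.N z - M.N p‖ ≤ ε := by
  have h1 : ∀ᶠ z in 𝓝[M.S] p, M.N z ∈ ball (M.N p) ε :=
    M.N_cont p hp (ball_mem_nhds _ hε)
  rw [eventually_nhdsWithin_iff] at h1
  obtain ⟨r, hr, hb⟩ := Metric.mem_nhds_iff.1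
    (inter_mem h1 (M.isOpen_O.mem_nhds (M.S_subset hp)))
  refine ⟨r, hr, fun z hz => (hb hz).2, fun z hz => ?_⟩
  have := (hb hz.2).1 hz.1
  rw [mem_ball, dist_eq_norm] at this
  exact this.le

/-- Tangent directions are orthogonal to the normal. -/
theorem eventually_inner_le {p : E} (hp : p ∈ M.S) {ε : ℝ} (hε : 0 < ε) :
    ∀ᶠ x in 𝓝[M.S] p, |⟪x - p, M.N p⟫| ≤ ε * ‖x - p‖ := by
  obtain ⟨r, hr, hO, h⟩ := M.basic_ball hp hε
  filter_upwards [inter_mem_nhdsWithin M.S (ball_mem_nhds p hr)] with x hx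
  exact M.slope (convex_ball p r) hO h hx ⟨hp, mem_ball_self hr⟩
theorem exists_reg {p : E} (hp : p ∈ M.O) : ∃ r, 0 < r ∧ M.Reg p r := by
  by_cases hS : p ∈ M.S
  · obtain ⟨r, hr, -, h⟩ := M.basic_ball hS (show (0 : ℝ) < 1 / 20 by norm_num)
    refine ⟨r, hr, fun x hx y hy => ?_⟩
    have h1 := norm_sub_le_norm_sub_add_norm_sub (M.N x) (M.N p) (M.N y)
    rw [norm_sub_rev (M.N p)] at h1
    linarith [h x hx, h y hy]
  · have hcl : p ∉ closure M.S := fun hc => hS (M.mem_S_of_closure hp hc)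
    obtain ⟨r, hr, hb⟩ := Metric.mem_nhds_iff.1 (isClosed_closure.isOpen_compl.mem_nhds hcl)
    exact ⟨r, hr, fun x hx => absurd (subset_closure hx.1) (hb hx.2)⟩
theorem Reg.mono {M : Surf} {p q : E} {r s : ℝ} (h : M.Reg p r) (hs : ball q s ⊆ ball p r) :
    M.Reg q s := fun x hx y hy => h x ⟨hx.1, hs hx.2⟩ y ⟨hy.1, hs hy.2⟩
theorem Flat.reg {M : Surf} (h : M.Flat) (p : E) (r : ℝ) : M.Reg p r := by
  intro x hx y hy
  rw [h x hx.1 y hy.1, sub_self, norm_zero]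
  norm_num
theorem reg_of_forall_lt {p : E} {r : ℝ} (h : ∀ s, s < r → M.Reg p s) : M.Reg p r := by
  intro x hx y hy
  obtain ⟨s, hs1, hs2⟩ := exists_between (max_lt (mem_ball.1 hx.2) (mem_ball.1 hy.2))
  exact h s hs2 x ⟨hx.1, lt_of_le_of_lt (le_max_left _ _) hs1⟩ y
    ⟨hy.1, lt_of_le_of_lt (le_max_right _ _) hs1⟩

@[simp] theorem swap_S : M.swap.S = M.S := rfl
@[simp] theorem swap_W : M.swap.W = M.W' := rfl
@[simp] theorem swap_W' : M.swap.W' = M.W := rfl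
@[simp] theorem swap_μ : M.swap.μ = M.μ := rfl
@[simp] theorem swap_O : M.swap.O = M.O := rfl
@[simp] theorem swap_N (x : E) : M.swap.N x = -M.N x := rfl
@[simp] theorem swap_Θ (p : E) (r : ℝ) : M.swap.Θ p r = M.Θ p r := rfl
theorem swap_swap : M.swap.swap = M := by
  cases M
  simp only [Surf.swap, neg_neg]
theorem swap_reg {p : E} {r : ℝ} : M.swap.Reg p r ↔ M.Reg p r := by
  have key : ∀ x y : E, ‖M.swap.N x - M.swap.N y‖ = ‖M.N x - M.N y‖ := fun x y => by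
    rw [swap_N, swap_N, ← neg_sub', norm_neg]
  constructor
  · intro h x hx y hy
    rw [← key]
    exact h x hx y hy
  · intro h x hx y hy
    rw [key]
    exact h x hx y hy
theorem swap_flat : M.swap.Flat ↔ M.Flat := by
  constructor
  · intro h x hx y hy
    exact neg_injective (h x hx y hy)
  · intro h x hx y hy
    rw [swap_N, swap_N, h x hx y hy]

end Surf

end MW
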