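import Pool.Agent.P.MP_064970_gt.Defs

/-! Coordinates, the weight `lam`, the sine `wedge`. -/

open MeasureTheory Set Filter Topology Metric
open scoped RealInnerProductSpace ENNReal ComplexConjugate Real

noncomputable section

namespace MW

@[simp] theorem pt_zero (y : ℂ) (t : ℝ) : pt y t 0 = y.re := rfl
@[simp] theorem pt_one (y : ℂ) (t : ℝ) : pt y t 1 = y.im := rfl
@[simp] theorem pt_two (y : ℂ) (t : ℝ) : pt y t 2 = t := rfl
@[simp] theorem pr_re (x : E) : (pr x).re = x 0 := rfl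
@[simp] theorem pr_im (x : E) : (pr x).im = x 1 := rfl
@[simp] theorem pr_pt (y : ℂ) (t : ℝ) : pr (pt y t) = y := rfl
@[simp] theorem pt_pr (x : E) : pt (pr x) (x 2) = x := by
  ext i; fin_cases i <;> rfl
theorem pr_add (x y : E) : pr (x + y) = pr x + pr y := by
  apply Complex.ext <;> simp
theorem pr_sub (x y : E) : pr (x - y) = pr x - pr y := by
  apply Complex.ext <;> simp
theorem pr_neg (x : E) : pr (-x) = -pr x := by
  apply Complex.ext <;> simp
theorem pr_smul (c : ℝ) (x : E) : pr (c • x) = c • pr x := by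
  apply Complex.ext <;> simp
@[simp] theorem pr_zero : pr 0 = 0 := by
  apply Complex.ext <;> simp
@[simp] theorem pr_e3 : pr e3 = 0 := rfl
@[simp] theorem e3_two : e3 2 = 1 := rfl
@[simp] theorem norm_e3 : ‖e3‖ = 1 := by
  rw [EuclideanSpace.norm_eq, Fin.sum_univ_three]; simp [e3]
theorem pt_add (y z : ℂ) (s t : ℝ) : pt (y + z) (s + t) = pt y s + pt z t := by
  ext i; fin_cases i <;> simp
theorem pt_sub (y z : ℂ) (s t : ℝ) : pt (y - z) (s - t) = pt y s - pt z t := by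
  ext i; fin_cases i <;> simp
theorem pt_smul (c : ℝ) (y : ℂ) (t : ℝ) : pt (c • y) (c * t) = c • pt y t := by
  ext i; fin_cases i <;> simp
theorem pt_add_smul_e3 (y : ℂ) (s t : ℝ) : pt y s + t • e3 = pt y (s + t) := by
  ext i; fin_cases i <;> simp [e3]
theorem pt_sub_smul_e3 (y : ℂ) (s t : ℝ) : pt y s - t • e3 = pt y (s - t) := by
  ext i; fin_cases i <;> simp [e3]
theorem inner_e3 (x : E) : ⟪x, e3⟫ = x 2 := by
  rw [PiLp.inner_apply, Fin.sum_univ_three]; simp [e3]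
theorem e3_inner (x : E) : ⟪e3, x⟫ = x 2 := by
  rw [real_inner_comm]; exact inner_e3 x
theorem inner_eq (x y : E) : ⟪x, y⟫ = x 0 * y 0 + x 1 * y 1 + x 2 * y 2 := by
  rw [PiLp.inner_apply, Fin.sum_univ_three]; simp; ring
theorem inner_eq_pr (x y : E) : ⟪x, y⟫ = ⟪pr x, pr y⟫ + x 2 * y 2 := by
  rw [inner_eq, Complex.inner]; simp; ring
theorem inner_pt (x : E) (y : ℂ) (t : ℝ) : ⟪x, pt y t⟫ = ⟪pr x, y⟫ + x 2 * t := by
  rw [inner_eq_pr]; simp
theorem norm_sq_eq (x : E) : ‖x‖ ^ 2 = ‖pr x‖ ^ 2 + x 2 ^ 2 := by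
  rw [← real_inner_self_eq_norm_sq, ← real_inner_self_eq_norm_sq, inner_eq_pr]; ring
theorem norm_pt_sq (y : ℂ) (t : ℝ) : ‖pt y t‖ ^ 2 = ‖y‖ ^ 2 + t ^ 2 := by
  rw [norm_sq_eq]; simp
theorem norm_pr_le (x : E) : ‖pr x‖ ≤ ‖x‖ := by
  have h := norm_sq_eq x
  exact abs_le_of_sq_le_sq' (by nlinarith [sq_nonneg (x 2)]) (norm_nonneg x) |>.2
theorem abs_two_le (x : E) : |x 2| ≤ ‖x‖ := by
  have h := norm_sq_eq x
  exact abs_le_of_sq_le_sq (by nlinarith [sq_nonneg ‖pr x‖]) (norm_nonneg x)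
theorem norm_le_pr_add (x : E) : ‖x‖ ≤ ‖pr x‖ + |x 2| := by
  have h := norm_sq_eq x
  have h1 : 0 ≤ ‖pr x‖ * |x 2| := by positivity
  have h2 : |x 2| ^ 2 = x 2 ^ 2 := sq_abs _
  exact abs_le_of_sq_le_sq' (by nlinarith) (by positivity) |>.2
theorem norm_pt_zero (y : ℂ) : ‖pt y 0‖ = ‖y‖ := by
  have h := norm_pt_sq y 0
  exact (sq_eq_sq₀ (norm_nonneg _) (norm_nonneg _)).1 (by rw [h]; ring)

/-- `pr` as a continuous linear map. -/
def prL : E →L[ℝ] ℂ := LinearMap.toContinuousLinearMap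
  { toFun := pr, map_add' := pr_add, map_smul' := pr_smul }
@[simp] theorem prL_apply (x : E) : prL x = pr x := rfl

/-- `pt` as a continuous linear map. -/
def ptL : ℂ × ℝ →L[ℝ] E := LinearMap.toContinuousLinearMap
  { toFun := fun q => pt q.1 q.2, map_add' := fun a b => pt_add a.1 b.1 a.2 b.2,
    map_smul' := fun c a => pt_smul c a.1 a.2 }
@[simp] theorem ptL_apply (q : ℂ × ℝ) : ptL q = pt q.1 q.2 := rfl

@[fun_prop] theorem continuous_pr : Continuous pr := prL.continuous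
theorem continuous_pt : Continuous fun q : ℂ × ℝ => pt q.1 q.2 := ptL.continuous
@[fun_prop] theorem Continuous.pt' {α : Type*} [TopologicalSpace α] {y : α → ℂ} {t : α → ℝ}
    (hy : Continuous y) (ht : Continuous t) : Continuous fun a => pt (y a) (t a) := 
  continuous_pt.comp (hy.prodMk ht)
theorem measurable_pr : Measurable pr := continuous_pr.measurable
theorem continuous_prA (A : E ≃ₗᵢ[ℝ] E) : Continuous (prA A) := 
  continuous_pr.comp A.symm.continuous
theorem prA_refl : prA (LinearIsometryEquiv.refl ℝ E) = pr := rfl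
theorem prA_apply_pt (A : E ≃ₗᵢ[ℝ] E) (y : ℂ) (t : ℝ) : prA A (A (pt y t)) = y := by
  simp [prA]
theorem apply_pt_prA (A : E ≃ₗᵢ[ℝ] E) (x : E) : A (pt (prA A x) ⟪x, A e3⟫) = x := by
  have h : ⟪x, A e3⟫ = (A.symm x) 2 := by
    rw [← inner_e3, ← A.inner_map_map (A.symm x) e3, A.apply_symm_apply]
  rw [h, prA, pt_pr, A.apply_symm_apply]
theorem norm_prA_sub_le (A : E ≃ₗᵢ[ℝ] E) (x y : E) : ‖prA A x - prA A y‖ ≤ ‖x - y‖ := by
  rw [prA, prA, ← pr_sub, ← map_sub]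
  exact (norm_pr_le _).trans (A.symm.norm_map _).le

/-- `pt` as a linear isometry from the Euclidean product. -/
def Coord_iso : WithLp 2 (ℂ × ℝ) ≃ₗᵢ[ℝ] E where
  toFun q := pt (WithLp.ofLp q).1 (WithLp.ofLp q).2
  invFun x := WithLp.toLp 2 (pr x, x 2)
  map_add' a b := pt_add _ _ _ _
  map_smul' c a := pt_smul c _ _
  left_inv q := rfl
  right_inv x := pt_pr x
  norm_map' q := by
    refine (sq_eq_sq₀ (norm_nonneg _) (norm_nonneg _)).1 ?_
    rw [WithLp.prod_norm_sq_eq_of_L2]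
    change ‖pt (WithLp.ofLp q).1 (WithLp.ofLp q).2‖ ^ 2 = _
    rw [norm_pt_sq]
    simp

/-- `pt` as a homeomorphism. -/
def Coord_homeo : ℂ × ℝ ≃ₜ E where
  toFun q := pt q.1 q.2
  invFun x := (pr x, x 2)
  left_inv q := rfl
  right_inv x := pt_pr x
  continuous_toFun := continuous_pt
  continuous_invFun := by fun_prop

/-- Space is the product of the plane and the line, with Lebesgue measure. -/
theorem measurePreserving_pt :
    MeasurePreserving (fun q : ℂ × ℝ => pt q.1 q.2) (volume.prod volume) volume := by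
  exact Coord_iso.measurePreserving.comp (WithLp.volume_preserving_toLp ℂ ℝ)
theorem measurableEmbedding_pt : MeasurableEmbedding fun q : ℂ × ℝ => pt q.1 q.2 := 
  Coord_homeo.measurableEmbedding
theorem integral_eq_integral_pt {f : E → ℝ} (hf : Integrable f) :
    ∫ x, f x = ∫ y : ℂ, ∫ t : ℝ, f (pt y t) := by
  rw [← measurePreserving_pt.integral_comp measurableEmbedding_pt f]
  exact integral_prod _ ((measurePreserving_pt.integrable_comp_emb measurableEmbedding_pt).2 hf)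
theorem lintegral_eq_lintegral_pt {f : E → ℝ≥0∞} (hf : Measurable f) :
    ∫⁻ x, f x = ∫⁻ y : ℂ, ∫⁻ t : ℝ, f (pt y t) := by
  rw [← measurePreserving_pt.lintegral_comp hf]
  exact lintegral_prod _ (hf.comp continuous_pt.measurable).aemeasurable

/-- Every unit vector is the image of `e3` under an isometry. -/
theorem exists_iso_e3 {ν : E} (hν : ‖ν‖ = 1) : ∃ A : E ≃ₗᵢ[ℝ] E, A e3 = ν := 
  ⟨Submodule.reflection (ℝ ∙ (e3 - ν))ᗮ, Submodule.reflection_sub (by rw [norm_e3, hν])⟩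

theorem Coord_refl_unit {u : E} (hu : ‖u‖ = 1) (x : E) :
    Submodule.reflection (ℝ ∙ u) x = (2 * ⟪u, x⟫) • u - x := by
  rw [Submodule.reflection_singleton_apply]
  simp [hu, two_smul, two_mul, add_smul]

theorem Coord_norm_sub_sq {a b : E} (ha : ‖a‖ = 1) (hb : ‖b‖ = 1) :
    ‖a - b‖ ^ 2 = 2 - 2 * ⟪a, b⟫ := by
  rw [norm_sub_sq_real, ha, hb]; ring

/-- The isometry can be chosen close to the identity. -/
theorem exists_iso_e3_near {ν : E} (hν : ‖ν‖ = 1) (h : ‖ν - e3‖ ≤ 1) :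
    ∃ A : E ≃ₗᵢ[ℝ] E, A e3 = ν ∧ ∀ x, ‖A x - x‖ ≤ 4 * ‖ν - e3‖ * ‖x‖ := by
  set c : ℝ := ⟪ν, e3⟫ with hc
  have h1 : ‖ν - e3‖ ^ 2 = 2 - 2 * c := Coord_norm_sub_sq hν norm_e3
  have hc1 : 1 / 2 ≤ c := by nlinarith [norm_nonneg (ν - e3)]
  have hc2 : c ≤ 1 := by nlinarith [sq_nonneg ‖ν - e3‖]
  set m : ℝ := ‖ν + e3‖ with hm
  have h2 : m ^ 2 = 2 + 2 * c := by
    rw [hm, norm_add_sq_real, hν, norm_e3]; ring
  have hm0 : 0 < m := by
    rcases (norm_nonneg (ν + e3)).lt_or_eq with h0 | h0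
    · exact h0
    · rw [hm, ← h0] at h2; nlinarith
  set u : E := m⁻¹ • (ν + e3) with hu
  have hu1 : ‖u‖ = 1 := by
    rw [hu, norm_smul, norm_inv, Real.norm_of_nonneg hm0.le, ← hm, inv_mul_cancel₀ hm0.ne']
  have hue : ⟪u, e3⟫ = m / 2 := by
    rw [hu, real_inner_smul_left, inner_add_left, real_inner_self_eq_norm_sq, norm_e3, ← hc]
    field_simp
    nlinarith
  have hcm : c ≤ m / 2 := by
    have : (2 * c) ^ 2 ≤ m ^ 2 := by nlinarith
    have := (abs_le_of_sq_le_sq' this hm0.le).2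
    linarith
  have h3 : ‖u - e3‖ ≤ ‖ν - e3‖ := by
    have h4 := Coord_norm_sub_sq hu1 norm_e3
    exact (abs_le_of_sq_le_sq' (by rw [h4, h1, hue]; linarith) (norm_nonneg _)).2
  refine ⟨(Submodule.reflection (ℝ ∙ e3)).trans (Submodule.reflection (ℝ ∙ u)), ?_, fun x => ?_⟩
  · rw [LinearIsometryEquiv.trans_apply,
      Submodule.reflection_mem_subspace_eq_self (Submodule.mem_span_singleton_self e3),
      Coord_refl_unit hu1, hue, hu, smul_smul]
    have : 2 * (m / 2) * m⁻¹ = 1 := by field_simp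
    rw [this, one_smul, add_sub_cancel_right]
  · have e1 : ((Submodule.reflection (ℝ ∙ e3)).trans (Submodule.reflection (ℝ ∙ u))) x - x =
        Submodule.reflection (ℝ ∙ u)
          (Submodule.reflection (ℝ ∙ e3) x - Submodule.reflection (ℝ ∙ u) x) := by
      rw [map_sub, Submodule.reflection_reflection, LinearIsometryEquiv.trans_apply]
    rw [e1, LinearIsometryEquiv.norm_map, Coord_refl_unit norm_e3, Coord_refl_unit hu1]
    have e2 : (2 * ⟪e3, x⟫) • e3 - x - ((2 * ⟪u, x⟫) • u - x) =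
        -((2 * ⟪u - e3, x⟫) • e3) - (2 * ⟪u, x⟫) • (u - e3) := by
      rw [inner_sub_left]; module
    rw [e2]
    have b1 : |⟪u - e3, x⟫| ≤ ‖u - e3‖ * ‖x‖ := abs_real_inner_le_norm _ _
    have b2 : |⟪u, x⟫| ≤ ‖x‖ := by simpa [hu1] using abs_real_inner_le_norm u x
    have b3 : ‖u - e3‖ * ‖x‖ ≤ ‖ν - e3‖ * ‖x‖ := mul_le_mul_of_nonneg_right h3 (norm_nonneg _)
    have b4 : |⟪u, x⟫| * ‖u - e3‖ ≤ ‖x‖ * ‖u - e3‖ :=
      mul_le_mul_of_nonneg_right b2 (norm_nonneg _)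
    refine (norm_sub_le _ _).trans ?_
    rw [norm_neg, norm_smul, norm_smul, norm_e3, Real.norm_eq_abs, Real.norm_eq_abs, abs_mul,
      abs_mul, abs_two]
    nlinarith

theorem wedge_nonneg (a b : E) : 0 ≤ wedge a b := norm_nonneg _
theorem Coord_wedge_sq (a : E) {b : E} (hb : ‖b‖ = 1) :
    wedge a b ^ 2 = ‖a‖ ^ 2 - ⟪a, b⟫ ^ 2 := by
  rw [wedge, norm_sub_sq_real, real_inner_smul_right, norm_smul, hb, Real.norm_eq_abs, mul_one,
    sq_abs]
  ring
theorem wedge_sq {a b : E} (ha : ‖a‖ = 1) (hb : ‖b‖ = 1) : wedge a b ^ 2 = 1 - ⟪a, b⟫ ^ 2 := by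
  rw [Coord_wedge_sq a hb, ha]; ring
theorem wedge_le_one {a b : E} (ha : ‖a‖ = 1) (hb : ‖b‖ = 1) : wedge a b ≤ 1 := by
  have h := wedge_sq ha hb
  nlinarith [wedge_nonneg a b, sq_nonneg ⟪a, b⟫]
theorem wedge_comm {a b : E} (ha : ‖a‖ = 1) (hb : ‖b‖ = 1) : wedge a b = wedge b a := by
  refine (sq_eq_sq₀ (wedge_nonneg _ _) (wedge_nonneg _ _)).1 ?_
  rw [wedge_sq ha hb, wedge_sq hb ha, real_inner_comm]
theorem wedge_triangle {a b c : E} (ha : ‖a‖ = 1) (hb : ‖b‖ = 1) (hc : ‖c‖ = 1) :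
    wedge a c ≤ wedge a b + wedge b c := by
  have e : a - ⟪a, c⟫ • c = ((a - ⟪a, b⟫ • b) - ⟪a - ⟪a, b⟫ • b, c⟫ • c) +
      ⟪a, b⟫ • (b - ⟪b, c⟫ • c) := by
    rw [inner_sub_left, real_inner_smul_left]; module
  have h1 : wedge (a - ⟪a, b⟫ • b) c ≤ wedge a b := by
    have h := Coord_wedge_sq (a - ⟪a, b⟫ • b) hc
    refine (abs_le_of_sq_le_sq' ?_ (wedge_nonneg a b)).2
    rw [h]
    have : wedge a b = ‖a - ⟪a, b⟫ • b‖ := rfl
    rw [this]
    nlinarith [sq_nonneg ⟪a - ⟪a, b⟫ • b, c⟫]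
  have h2 : |⟪a, b⟫| ≤ 1 := by simpa [ha, hb] using abs_real_inner_le_norm a b
  have h3 : ‖⟪a, b⟫ • (b - ⟪b, c⟫ • c)‖ ≤ wedge b c := by
    rw [norm_smul, Real.norm_eq_abs]
    exact mul_le_of_le_one_left (norm_nonneg _) h2
  have h4 : wedge a c = ‖a - ⟪a, c⟫ • c‖ := rfl
  rw [h4, e]
  exact (norm_add_le _ _).trans (add_le_add h1 h3)
theorem wedge_neg_left (a b : E) : wedge (-a) b = wedge a b := by
  have e : -a - ⟪-a, b⟫ • b = -(a - ⟪a, b⟫ • b) := by rw [inner_neg_left]; module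
  rw [wedge, e, norm_neg, wedge]
theorem wedge_neg_right (a b : E) : wedge a (-b) = wedge a b := by
  simp [wedge]
theorem wedge_le_norm_sub {a b : E} (hb : ‖b‖ = 1) : wedge a b ≤ ‖a - b‖ := by
  refine (abs_le_of_sq_le_sq' ?_ (norm_nonneg _)).2
  rw [Coord_wedge_sq a hb, norm_sub_sq_real, hb]
  nlinarith [sq_nonneg (⟪a, b⟫ - 1)]
theorem norm_sub_le_wedge {a b : E} (ha : ‖a‖ = 1) (hb : ‖b‖ = 1) (h : 0 ≤ ⟪a, b⟫) :
    ‖a - b‖ ≤ 2 * wedge a b := by
  have h1 := Coord_norm_sub_sq ha hb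
  have h2 := wedge_sq ha hb
  have h3 : ⟪a, b⟫ ≤ 1 := by nlinarith [sq_nonneg ‖a - b‖]
  refine (abs_le_of_sq_le_sq' ?_ (by have := wedge_nonneg a b; positivity)).2
  rw [mul_pow, h1, h2]
  nlinarith
theorem wedge_e3 (a : E) : wedge a e3 = ‖pr a‖ := by
  refine (sq_eq_sq₀ (wedge_nonneg _ _) (norm_nonneg _)).1 ?_
  rw [Coord_wedge_sq a norm_e3, inner_e3, norm_sq_eq]; ring
theorem wedge_map (A : E ≃ₗᵢ[ℝ] E) (a b : E) : wedge (A a) (A b) = wedge a b := by
  rw [wedge, wedge, A.inner_map_map, ← map_smul, ← map_sub, A.norm_map]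
theorem abs_inner_le_wedge {a b v : E} (hv : ⟪b, v⟫ = 0) : |⟪a, v⟫| ≤ wedge a b * ‖v‖ := by
  have e : ⟪a, v⟫ = ⟪a - ⟪a, b⟫ • b, v⟫ := by
    rw [inner_sub_left, real_inner_smul_left, hv]; ring
  rw [e]
  exact abs_real_inner_le_norm _ _
theorem continuous_wedge : Continuous fun q : E × E => wedge q.1 q.2 := by
  unfold wedge
  fun_prop

theorem lam_nonneg (s : ℝ) : 0 ≤ lam s := by
  unfold lam
  have := le_max_right (1 - s) 0
  have := Real.pi_pos
  positivity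
theorem lam_le {s : ℝ} (hs : 0 ≤ s) : lam s ≤ 4 / π := by
  have h0 := le_max_right (1 - s) 0
  have h1 : max (1 - s) 0 ≤ 1 := max_le (by linarith) zero_le_one
  have := Real.pi_pos
  exact mul_le_of_le_one_right (by positivity) (pow_le_one₀ h0 h1)
theorem lam_eq_zero {s : ℝ} (hs : 1 ≤ s) : lam s = 0 := by
  rw [lam, max_eq_right (by linarith)]; simp
theorem lam_antitone : Antitone lam := fun s t hst => by
  have := Real.pi_pos
  refine mul_le_mul_of_nonneg_left ?_ (by positivity)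
  exact pow_le_pow_left₀ (le_max_right _ _) (max_le_max (by linarith) le_rfl) 3
theorem Coord_hasDerivAt_pos (n : ℕ) (x : ℝ) :
    HasDerivAt (fun y : ℝ => max y 0 ^ (n + 2)) (((n : ℝ) + 2) * max x 0 ^ (n + 1)) x := by
  rcases lt_trichotomy x 0 with h | h | h
  · have e : (fun y : ℝ => max y 0 ^ (n + 2)) =ᶠ[𝓝 x] fun _ => (0 : ℝ) := by
      filter_upwards [Iio_mem_nhds h] with y hy
      rw [max_eq_right (le_of_lt hy)]; simp
    rw [max_eq_right h.le]
    simpa using (hasDerivAt_const x (0 : ℝ)).congr_of_eventuallyEq e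
  · subst h
    have hc : Continuous fun y : ℝ => max y 0 ^ (n + 1) := by fun_prop
    have h0 : Tendsto (fun y : ℝ => max y 0 ^ (n + 1)) (𝓝[≠] 0) (𝓝 0) := by
      have := (hc.tendsto 0).mono_left (nhdsWithin_le_nhds (s := {0}ᶜ))
      simpa using this
    rw [hasDerivAt_iff_tendsto_slope_zero]
    simp only [max_self, zero_add, ne_eq, Nat.add_eq_zero_iff, one_ne_zero, and_false,
      not_false_eq_true, zero_pow, mul_zero, OfNat.ofNat_ne_zero, sub_zero, smul_eq_mul]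
    refine h0.congr' ?_
    filter_upwards [self_mem_nhdsWithin] with y hy
    have hy' : y ≠ 0 := hy
    rcases le_total y 0 with h1 | h1
    · rw [max_eq_right h1]; simp
    · rw [max_eq_left h1]; field_simp; ring
  · have e : (fun y : ℝ => max y 0 ^ (n + 2)) =ᶠ[𝓝 x] fun y => y ^ (n + 2) := by
      filter_upwards [Ioi_mem_nhds h] with y hy
      rw [max_eq_left (le_of_lt hy)]
    rw [max_eq_left h.le]
    have h2 := (hasDerivAt_pow (n + 2) x).congr_of_eventuallyEq e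
    simpa using h2
theorem Coord_contDiff_sq : ContDiff ℝ 1 fun y : ℝ => max y 0 ^ 2 := by
  rw [contDiff_one_iff_deriv]
  refine ⟨fun x => (Coord_hasDerivAt_pos 0 x).differentiableAt, ?_⟩
  have e : (deriv fun y : ℝ => max y 0 ^ 2) = fun x => (((0 : ℕ) : ℝ) + 2) * max x 0 ^ (0 + 1) :=
    funext fun x => (Coord_hasDerivAt_pos 0 x).deriv
  rw [e]
  fun_prop
theorem Coord_contDiff_cube : ContDiff ℝ 2 fun y : ℝ => max y 0 ^ 3 := by
  have e2 : (2 : WithTop ℕ∞) = 1 + 1 := by norm_num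
  rw [e2, contDiff_succ_iff_deriv]
  refine ⟨fun x => (Coord_hasDerivAt_pos 1 x).differentiableAt, by simp, ?_⟩
  have e : (deriv fun y : ℝ => max y 0 ^ 3) = fun x => (((1 : ℕ) : ℝ) + 2) * max x 0 ^ (1 + 1) :=
    funext fun x => (Coord_hasDerivAt_pos 1 x).deriv
  rw [e]
  exact contDiff_const.mul Coord_contDiff_sq
theorem contDiff_lam : ContDiff ℝ 2 lam := 
  contDiff_const.mul (Coord_contDiff_cube.comp (contDiff_const.sub contDiff_id))
theorem hasDerivAt_lam (s : ℝ) : HasDerivAt lam (-(12 / π) * max (1 - s) 0 ^ 2) s := by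
  have h := ((Coord_hasDerivAt_pos 1 (1 - s)).comp s ((hasDerivAt_id s).const_sub 1)).const_mul
    (4 / π)
  refine HasDerivAt.congr_deriv (f := lam) h ?_
  push_cast
  ring
theorem abs_lam_sub_le {s t : ℝ} (hs : 0 ≤ s) (ht : 0 ≤ t) : |lam s - lam t| ≤ 4 * |s - t| := by
  set a := max (1 - s) 0 with ha
  set b := max (1 - t) 0 with hb
  have a0 : 0 ≤ a := le_max_right _ _
  have b0 : 0 ≤ b := le_max_right _ _
  have a1 : a ≤ 1 := max_le (by linarith) zero_le_one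
  have b1 : b ≤ 1 := max_le (by linarith) zero_le_one
  have hab : |a - b| ≤ |s - t| := by
    refine (abs_max_sub_max_le_abs _ _ _).trans (le_of_eq ?_)
    rw [← abs_neg]; congr 1; ring
  have e : lam s - lam t = 4 / π * (a ^ 2 + a * b + b ^ 2) * (a - b) := by
    rw [lam, lam, ← ha, ← hb]; ring
  have hpi := Real.pi_gt_three
  have q0 : 0 ≤ a ^ 2 + a * b + b ^ 2 := by positivity
  have q1 : a ^ 2 + a * b + b ^ 2 ≤ 3 := by nlinarith
  have q2 : 4 / π * (a ^ 2 + a * b + b ^ 2) ≤ 4 := by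
    rw [div_mul_eq_mul_div, div_le_iff₀ (by linarith)]
    nlinarith
  rw [e, abs_mul, abs_of_nonneg (by positivity)]
  exact mul_le_mul q2 hab (abs_nonneg _) (by norm_num)
/-- Normalisation: a plane through the centre has density one. -/
theorem integral_lam (y : ℂ) {r : ℝ} (hr : 0 < r) : ∫ z : ℂ, lam (‖z - y‖ ^ 2 / r ^ 2) = r ^ 2 := by
  rw [integral_sub_right_eq_self (fun z : ℂ => lam (‖z‖ ^ 2 / r ^ 2)) y,
    integral_fun_norm_addHaar (volume : Measure ℂ) (fun s : ℝ => lam (s ^ 2 / r ^ 2))]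
  have hpi := Real.pi_pos
  have hb : (volume : Measure ℂ).real (ball 0 1) = π := by
    simp [Measure.real]
  have hI : ∫ s in Ioi (0 : ℝ), s * lam (s ^ 2 / r ^ 2) = r ^ 2 / (2 * π) := by
    have e1 : ∫ s in Ioi (0 : ℝ), s * lam (s ^ 2 / r ^ 2) =
        ∫ s in Ioc (0 : ℝ) r, s * lam (s ^ 2 / r ^ 2) := by
      refine setIntegral_eq_of_subset_of_forall_sdiff_eq_zero measurableSet_Ioi Ioc_subset_Ioi_self
        fun s hs => ?_
      have h1 : r < s := by
        by_contra h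
        exact hs.2 ⟨hs.1, not_lt.1 h⟩
      rw [lam_eq_zero, mul_zero]
      rw [le_div_iff₀ (by positivity)]
      nlinarith
    rw [e1, ← intervalIntegral.integral_of_le hr.le]
    have hd : ∀ s ∈ uIcc (0 : ℝ) r, HasDerivAt
        (fun s : ℝ => -(r ^ 2 / (2 * π)) * max (1 - s ^ 2 / r ^ 2) 0 ^ (2 + 2))
        (s * lam (s ^ 2 / r ^ 2)) s := fun s _ => by
      have h := ((Coord_hasDerivAt_pos 2 (1 - s ^ 2 / r ^ 2)).comp s
        (((hasDerivAt_pow 2 s).div_const (r ^ 2)).const_sub 1)).const_mul (-(r ^ 2 / (2 * π)))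
      refine HasDerivAt.congr_deriv h ?_
      rw [lam]
      push_cast
      field_simp
      ring
    have hc : Continuous fun s : ℝ => s * lam (s ^ 2 / r ^ 2) :=
      continuous_id.mul (contDiff_lam.continuous.comp (by fun_prop))
    rw [intervalIntegral.integral_eq_sub_of_hasDerivAt hd (hc.intervalIntegrable _ _)]
    rw [div_self (by positivity)]
    simp
  simp only [Complex.finrank_real_complex, hb, Nat.add_one_sub_one, pow_one, smul_eq_mul, hI,
    nsmul_eq_mul]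
  field_simp
  norm_num
theorem integrable_lam (y : ℂ) {r : ℝ} (hr : 0 < r) :
    Integrable fun z : ℂ => lam (‖z - y‖ ^ 2 / r ^ 2) := by
  refine Continuous.integrable_of_hasCompactSupport
    (contDiff_lam.continuous.comp (by fun_prop)) ?_
  refine HasCompactSupport.intro (isCompact_closedBall y r) fun z hz => lam_eq_zero ?_
  have h1 : r < ‖z - y‖ := by simpa [dist_eq_norm] using hz
  rw [le_div_iff₀ (by positivity)]
  nlinarith
/-- Comparison after a small shift. -/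
theorem lam_cmp {a b d κ : ℝ} (ha : 0 ≤ a) (hb : 0 ≤ b) (hκ : 0 < κ) (hκ1 : κ ≤ 1) (hd : 0 ≤ d)
    (hdκ : d ≤ κ ^ 2 / 5) (hab : b ≤ a + d) :
    lam (a ^ 2) ≤ (1 + κ) * lam (b ^ 2 / (1 + κ) ^ 2) := by
  have hk : 0 < (1 + κ) ^ 2 := by positivity
  have hpi := Real.pi_pos
  rcases le_total d (κ * a) with h | h
  · have h1 : b ^ 2 / (1 + κ) ^ 2 ≤ a ^ 2 := by
      rw [div_le_iff₀ hk, ← mul_pow]
      exact pow_le_pow_left₀ hb (by nlinarith) 2
    have h2 := lam_antitone h1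
    have h3 := lam_nonneg (b ^ 2 / (1 + κ) ^ 2)
    nlinarith
  · have h1 : a ≤ κ / 5 := by
      by_contra hc
      have : κ * (κ / 5) < κ * a := mul_lt_mul_of_pos_left (not_le.1 hc) hκ
      nlinarith
    have h2 : b ^ 2 / (1 + κ) ^ 2 ≤ (κ / 5) ^ 2 := by
      rw [div_le_iff₀ hk, ← mul_pow]
      exact pow_le_pow_left₀ hb (by nlinarith) 2
    have h3 := lam_antitone h2
    have h4 := lam_le (sq_nonneg a)
    have x0 : 0 ≤ (κ / 5) ^ 2 := by positivity
    have x1 : (κ / 5) ^ 2 ≤ κ / 25 := by nlinarith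
    have h5 : 4 / π ≤ (1 + κ) * lam ((κ / 5) ^ 2) := by
      rw [lam, max_eq_left (by nlinarith)]
      set x := (κ / 5) ^ 2
      have y1 : 1 - 3 * x ≤ (1 - x) ^ 3 := by nlinarith [mul_nonneg x0 x0]
      have y2 : 1 ≤ (1 + κ) * (1 - 3 * x) := by nlinarith
      have y3 : (1 + κ) * (1 - 3 * x) ≤ (1 + κ) * (1 - x) ^ 3 :=
        mul_le_mul_of_nonneg_left y1 (by linarith)
      have y4 : 0 ≤ 4 / π := by positivity
      calc 4 / π = 4 / π * 1 := by ring
        _ ≤ 4 / π * ((1 + κ) * (1 - x) ^ 3) := mul_le_mul_of_nonneg_left (y2.trans y3) y4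
        _ = _ := by ring
    exact h4.trans (h5.trans (mul_le_mul_of_nonneg_left h3 (by linarith)))

end MW
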