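import Pool.Agent.P.MP_064970_gt.B.Basic

/-! Members, the area bound and densities. -/

open MeasureTheory Set Filter Topology Metric
open scoped RealInnerProductSpace ENNReal ComplexConjugate Real

noncomputable section

namespace MW

/-- The weight is continuous in the point. -/
theorem dens_continuous_lam (p : E) (r : ℝ) :
    Continuous fun x : E => lam (‖x - p‖ ^ 2 / r ^ 2) :=
  contDiff_lam.continuous.comp (by fun_prop)

/-- The weight vanishes outside the ball. -/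
theorem dens_lam_zero {a r : ℝ} (hr : 0 < r) (ha : r ≤ a) : lam (a ^ 2 / r ^ 2) = 0 := by
  apply lam_eq_zero
  rw [le_div_iff₀ (by positivity), one_mul]
  exact pow_le_pow_left₀ hr.le ha 2

/-- Superlevel sets of the radial weight are balls. -/
theorem dens_level {t r : ℝ} (ht : 0 < t) (hr : 0 < r) :
    ∃ ρ : ℝ, 0 ≤ ρ ∧ ∀ a : ℝ, 0 ≤ a → (t < lam (a ^ 2 / r ^ 2) ↔ a < ρ) := by
  have hπ := Real.pi_pos
  have hu : 0 < π * t / 4 := by positivity
  set c : ℝ := (π * t / 4) ^ ((3 : ℕ) : ℝ)⁻¹ with hc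
  have hc0 : 0 < c := Real.rpow_pos_of_pos hu _
  have hc3 : c ^ 3 = π * t / 4 := Real.rpow_inv_natCast_pow hu.le (by norm_num)
  refine ⟨√(r ^ 2 * (1 - c)), Real.sqrt_nonneg _, fun a ha => ?_⟩
  rw [Real.lt_sqrt ha, lam]
  have h1 : t < 4 / π * max (1 - a ^ 2 / r ^ 2) 0 ^ 3 ↔
      c ^ 3 < max (1 - a ^ 2 / r ^ 2) 0 ^ 3 := by
    rw [hc3, div_mul_eq_mul_div, lt_div_iff₀ hπ, div_lt_iff₀ (by norm_num : (0 : ℝ) < 4)]
    constructor <;> intro h <;> linarith
  rw [h1, pow_lt_pow_iff_left₀ hc0.le (le_max_right _ _) (by norm_num), lt_max_iff]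
  have h2 : a ^ 2 < r ^ 2 * (1 - c) ↔ a ^ 2 / r ^ 2 < 1 - c := by
    rw [div_lt_iff₀ (by positivity), mul_comm]
  rw [h2]
  constructor
  · rintro (h | h)
    · linarith
    · linarith
  · intro h
    left
    linarith

theorem dens_theta_le_two {ν : Measure E} {p : E}
    (h : ∀ r, 0 < r → ν (ball p r) ≤ ENNReal.ofReal (2 * π * r ^ 2)) {r : ℝ} (hr : 0 < r) :
    theta ν p r ≤ 2 := by
  have hπ := Real.pi_pos
  have hcE := dens_continuous_lam p r
  have hcC : Continuous fun z : ℂ => lam (‖z - 0‖ ^ 2 / r ^ 2) :=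
    contDiff_lam.continuous.comp (by fun_prop)
  have hE := lintegral_eq_lintegral_meas_lt ν
    (f := fun x : E => lam (‖x - p‖ ^ 2 / r ^ 2)) (Eventually.of_forall fun x => lam_nonneg _)
    hcE.measurable.aemeasurable
  have hC := lintegral_eq_lintegral_meas_lt (volume : Measure ℂ)
    (f := fun z : ℂ => lam (‖z - 0‖ ^ 2 / r ^ 2)) (Eventually.of_forall fun x => lam_nonneg _)
    hcC.measurable.aemeasurable
  have hval : ∫⁻ z : ℂ, ENNReal.ofReal (lam (‖z - 0‖ ^ 2 / r ^ 2)) = ENNReal.ofReal (r ^ 2) := by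
    rw [← ofReal_integral_eq_lintegral_ofReal (integrable_lam 0 hr)
      (Eventually.of_forall fun x => lam_nonneg _), integral_lam 0 hr]
  have hle : ∫⁻ x, ENNReal.ofReal (lam (‖x - p‖ ^ 2 / r ^ 2)) ∂ν ≤
      ENNReal.ofReal (2 * r ^ 2) := by
    rw [hE, ENNReal.ofReal_mul (by norm_num), ← hval, hC,
      ← lintegral_const_mul' _ _ ENNReal.ofReal_ne_top]
    refine setLIntegral_mono' measurableSet_Ioi fun t ht => ?_
    obtain ⟨ρ, hρ, hlev⟩ := dens_level (t := t) ht hr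
    have e1 : {x : E | t < lam (‖x - p‖ ^ 2 / r ^ 2)} = ball p ρ := by
      ext x
      rw [mem_ofPred_eq, hlev _ (norm_nonneg _), mem_ball, dist_eq_norm]
    have e2 : {z : ℂ | t < lam (‖z - 0‖ ^ 2 / r ^ 2)} = ball 0 ρ := by
      ext x
      rw [mem_ofPred_eq, hlev _ (norm_nonneg _), mem_ball, dist_eq_norm]
    rw [e1, e2]
    rcases hρ.eq_or_lt with h0 | h0
    · rw [← h0, ball_zero, measure_empty]
      exact zero_le
    · refine (h ρ h0).trans (le_of_eq ?_)
      rw [Complex.volume_ball, ← ENNReal.ofReal_pow hρ, ← ENNReal.ofReal_coe_nnreal,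
        ← ENNReal.ofReal_mul (by positivity), ← ENNReal.ofReal_mul (by norm_num)]
      congr 1
      rw [NNReal.coe_real_pi]
      ring
  rw [theta, div_le_iff₀ (by positivity),
    integral_eq_lintegral_of_nonneg_ae (Eventually.of_forall fun x => lam_nonneg _)
      hcE.aestronglyMeasurable]
  exact ENNReal.toReal_le_of_le_ofReal (by positivity) hle

namespace Surf

variable {M : Surf}

theorem Mem.swap (h : M.Mem) : M.swap.Mem := ⟨h.univ, h.bd⟩

theorem Mem.isClosed (h : M.Mem) : IsClosed M.S := by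
  refine isClosed_of_closure_subset fun x hx => M.mem_S_of_closure ?_ hx
  rw [h.univ]
  exact mem_univ x

theorem Mem.sub (h : M.Mem) (K : Set E) : K ⊆ M.O := by
  rw [h.univ]
  exact subset_univ K

theorem dens_lt_top (h : M.Bd) {A : Set E} (hA : Bornology.IsBounded A) : M.μ A < ∞ := by
  obtain ⟨r, hr⟩ := hA.subset_ball (0 : E)
  have h1 : A ⊆ ball 0 (max r 1) := hr.trans (ball_subset_ball (le_max_left _ _))
  exact ((measure_mono h1).trans (h 0 _ (lt_max_of_lt_right one_pos))).trans_lt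
    ENNReal.ofReal_lt_top

theorem Bd.isFiniteMeasureOnCompacts (h : M.Bd) : IsFiniteMeasureOnCompacts M.μ :=
  ⟨fun _ hK => dens_lt_top h hK.isBounded⟩

theorem Bd.isLocallyFiniteMeasure (h : M.Bd) : IsLocallyFiniteMeasure M.μ :=
  ⟨fun x => ⟨ball x 1, ball_mem_nhds x one_pos, dens_lt_top h isBounded_ball⟩⟩

theorem Bd.real_ball (h : M.Bd) (p : E) {r : ℝ} (hr : 0 < r) :
    M.μ.real (ball p r) ≤ 2 * π * r ^ 2 :=
  ENNReal.toReal_le_of_le_ofReal (by have := Real.pi_pos; positivity) (h p r hr)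

theorem Bd.closedBall (h : M.Bd) (p : E) {r : ℝ} (hr : 0 ≤ r) :
    M.μ (closedBall p r) ≤ ENNReal.ofReal (2 * π * r ^ 2) := by
  have hc : Continuous fun s : ℝ => ENNReal.ofReal (2 * π * s ^ 2) :=
    ENNReal.continuous_ofReal.comp (by fun_prop)
  have ht : Tendsto (fun s : ℝ => ENNReal.ofReal (2 * π * s ^ 2)) (𝓝[>] r)
      (𝓝 (ENNReal.ofReal (2 * π * r ^ 2))) := (hc.tendsto r).mono_left nhdsWithin_le_nhds
  refine ge_of_tendsto ht ?_
  filter_upwards [self_mem_nhdsWithin] with s hs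
  exact (measure_mono (closedBall_subset_ball hs)).trans (h p s (hr.trans_lt hs))

theorem Bd.lt_top (h : M.Bd) {A : Set E} (hA : Bornology.IsBounded A) : M.μ A < ∞ :=
  dens_lt_top h hA

/-- Bounded measurable functions are integrable on bounded sets. -/
theorem Bd.integrableOn (h : M.Bd) {A : Set E} (hA : Bornology.IsBounded A) {g : E → ℝ}
    (hg : Measurable g) {C : ℝ} (hC : ∀ x ∈ A ∩ M.S, |g x| ≤ C) (hAm : MeasurableSet A) :
    IntegrableOn g A M.μ := by
  refine Measure.integrableOn_of_bounded (M := C) (h.lt_top hA).ne hg.aestronglyMeasurable ?_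
  filter_upwards [ae_restrict_mem hAm, ae_restrict_of_ae M.ae_mem] with x hx hS
  exact hC x ⟨hx, hS⟩

theorem Bd.integrable (h : M.Bd) {A : Set E} (hA : Bornology.IsBounded A) {g : E → ℝ}
    (hg : Measurable g) {C : ℝ} (hC : ∀ x ∈ M.S, |g x| ≤ C) (h0 : ∀ x ∈ M.S, x ∉ A → g x = 0) :
    Integrable g M.μ := by
  obtain ⟨r, hr⟩ := hA.subset_ball (0 : E)
  have hI : IntegrableOn g (ball 0 r) M.μ :=
    h.integrableOn isBounded_ball hg (fun x hx => hC x hx.2) measurableSet_ball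
  refine ((integrable_indicator_iff measurableSet_ball).2 hI).congr ?_
  filter_upwards [M.ae_mem] with x hx
  by_cases hb : x ∈ ball (0 : E) r
  · exact indicator_of_mem hb g
  · rw [indicator_of_notMem hb, h0 x hx fun hA' => hb (hr hA')]

theorem Bd.setIntegral_le (h : M.Bd) {p : E} {r : ℝ} (hr : 0 < r) {g : E → ℝ} {C : ℝ}
    (hC0 : 0 ≤ C) (hC : ∀ x ∈ M.S ∩ ball p r, |g x| ≤ C) :
    |∫ x in ball p r, g x ∂M.μ| ≤ C * (2 * π * r ^ 2) := by
  have h1 : ‖∫ x in ball p r, g x ∂M.μ‖ ≤ C * M.μ.real (ball p r) := by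
    refine norm_setIntegral_le_of_norm_le_const_ae (h.lt_top isBounded_ball) ?_
    filter_upwards [ae_restrict_mem measurableSet_ball, ae_restrict_of_ae M.ae_mem] with x hx hS
    exact hC x ⟨hS, hx⟩
  exact h1.trans (mul_le_mul_of_nonneg_left (h.real_ball p hr) hC0)

/-- Mass of a tube about a line. -/
theorem Bd.tube (h : M.Bd) (p e : E) (he : ‖e‖ = 1) {R δ : ℝ} (hδ : 0 < δ) (hδR : δ ≤ R) :
    M.μ {x | x ∈ ball p R ∧ ‖x - p - ⟪x - p, e⟫ • e‖ ≤ δ} ≤ ENNReal.ofReal (100 * δ * R) := by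
  have hπ := Real.pi_pos
  have hπ4 := Real.pi_lt_four
  have hR : 0 < R := hδ.trans_le hδR
  set n : ℕ := ⌈R / δ⌉₊ with hn
  have hn1 : R / δ ≤ n := Nat.le_ceil _
  have hn2 : (n : ℝ) < R / δ + 1 := Nat.ceil_lt_add_one (by positivity)
  have hn3 : (n : ℝ) * δ ≤ 2 * R := by
    have : (n : ℝ) * δ ≤ (R / δ + 1) * δ := mul_le_mul_of_nonneg_right hn2.le hδ.le
    rw [add_mul, div_mul_cancel₀ _ hδ.ne'] at this
    linarith
  have hcov : {x | x ∈ ball p R ∧ ‖x - p - ⟪x - p, e⟫ • e‖ ≤ δ} ⊆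
      ⋃ j ∈ Finset.range n, Metric.closedBall (p + (-R + (2 * j + 1) * δ) • e) (2 * δ) := by
    rintro x ⟨hx, hw⟩
    set s : ℝ := ⟪x - p, e⟫ with hs
    have hsR : |s| < R := by
      have h1 : |s| ≤ ‖x - p‖ * ‖e‖ := abs_real_inner_le_norm _ _
      rw [he, mul_one] at h1
      rw [mem_ball, dist_eq_norm] at hx
      exact h1.trans_lt hx
    obtain ⟨hs1, hs2⟩ := abs_lt.1 hsR
    have hu : 0 ≤ (s + R) / (2 * δ) := div_nonneg (by linarith) (by positivity)
    set j : ℕ := ⌊(s + R) / (2 * δ)⌋₊ with hj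
    have hj1 : (j : ℝ) ≤ (s + R) / (2 * δ) := Nat.floor_le hu
    have hj2 : (s + R) / (2 * δ) < j + 1 := Nat.lt_floor_add_one _
    rw [le_div_iff₀ (by positivity)] at hj1
    rw [div_lt_iff₀ (by positivity)] at hj2
    have hjn : j < n := by
      have h1 : (j : ℝ) * δ < R := by nlinarith
      have h2 : (j : ℝ) < R / δ := by rwa [lt_div_iff₀ hδ]
      exact_mod_cast h2.trans_le hn1
    refine mem_iUnion₂.2 ⟨j, Finset.mem_range.2 hjn, ?_⟩
    rw [mem_closedBall, dist_eq_norm]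
    have e1 : x - (p + (-R + (2 * j + 1) * δ) • e) =
        (x - p - s • e) + (s - (-R + (2 * j + 1) * δ)) • e := by
      rw [sub_smul]
      abel
    rw [e1]
    refine (norm_add_le _ _).trans ?_
    rw [norm_smul, he, mul_one, Real.norm_eq_abs]
    have h3 : |s - (-R + (2 * j + 1) * δ)| ≤ δ := by
      rw [abs_le]
      constructor <;> nlinarith
    linarith
  refine (measure_mono hcov).trans ((measure_biUnion_finset_le _ _).trans ?_)
  refine (Finset.sum_le_sum fun j _ => h.closedBall _ (by positivity : 0 ≤ 2 * δ)).trans ?_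
  rw [Finset.sum_const, Finset.card_range, nsmul_eq_mul, ← ENNReal.ofReal_natCast,
    ← ENNReal.ofReal_mul (Nat.cast_nonneg n)]
  apply ENNReal.ofReal_le_ofReal
  have h4 : (n : ℝ) * (2 * π * (2 * δ) ^ 2) = 8 * π * δ * (n * δ) := by ring
  rw [h4]
  have h5 : 8 * π * δ * (n * δ) ≤ 8 * π * δ * (2 * R) :=
    mul_le_mul_of_nonneg_left hn3 (by positivity)
  have h6 : 0 < δ * R := by positivity
  nlinarith

theorem Θ_nonneg (p : E) (r : ℝ) : 0 ≤ M.Θ p r :=
  div_nonneg (integral_nonneg fun _ => lam_nonneg _) (sq_nonneg r)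

theorem Bd.integrable_lam (h : M.Bd) (p : E) {r : ℝ} (hr : 0 < r) :
    Integrable (fun x => lam (‖x - p‖ ^ 2 / r ^ 2)) M.μ := by
  refine h.integrable (A := ball p r) isBounded_ball (dens_continuous_lam p r).measurable
    (C := 4 / π) (fun x _ => ?_) fun x _ hx => ?_
  · rw [abs_of_nonneg (lam_nonneg _)]
    exact lam_le (by positivity)
  · rw [mem_ball, dist_eq_norm, not_lt] at hx
    exact dens_lam_zero hr hx

theorem Bd.Θ_le_two (h : M.Bd) (p : E) {r : ℝ} (hr : 0 < r) : M.Θ p r ≤ 2 :=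
  dens_theta_le_two (h p) hr

/-- The integral of the weight lives on the ball. -/
theorem dens_integral_eq (ν : Measure E) (p : E) {r : ℝ} (hr : 0 < r) :
    ∫ x in ball p r, lam (‖x - p‖ ^ 2 / r ^ 2) ∂ν = ∫ x, lam (‖x - p‖ ^ 2 / r ^ 2) ∂ν := by
  refine setIntegral_eq_integral_of_forall_compl_eq_zero fun x hx => ?_
  rw [mem_ball, dist_eq_norm, not_lt] at hx
  exact dens_lam_zero hr hx

theorem Bd.Θ_le_mass (h : M.Bd) (p : E) {r : ℝ} (hr : 0 < r) :
    π / 4 * r ^ 2 * M.Θ p r ≤ M.μ.real (ball p r) := by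
  have hπ := Real.pi_pos
  have h1 : ‖∫ x in ball p r, lam (‖x - p‖ ^ 2 / r ^ 2) ∂M.μ‖ ≤ 4 / π * M.μ.real (ball p r) := by
    refine norm_setIntegral_le_of_norm_le_const (h.lt_top isBounded_ball) fun x _ => ?_
    rw [Real.norm_eq_abs, abs_of_nonneg (lam_nonneg _)]
    exact lam_le (by positivity)
  rw [dens_integral_eq M.μ p hr] at h1
  have h2 := (le_abs_self _).trans h1
  have e : π / 4 * r ^ 2 * M.Θ p r = π / 4 * ∫ x, lam (‖x - p‖ ^ 2 / r ^ 2) ∂M.μ := by
    rw [Surf.Θ, theta]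
    field_simp
  rw [e]
  calc π / 4 * ∫ x, lam (‖x - p‖ ^ 2 / r ^ 2) ∂M.μ ≤ π / 4 * (4 / π * M.μ.real (ball p r)) :=
        mul_le_mul_of_nonneg_left h2 (by positivity)
    _ = M.μ.real (ball p r) := by field_simp

theorem exists_mem_of_Θ_pos {p : E} {r : ℝ} (hr : 0 < r) (h : 0 < M.Θ p r) :
    ∃ x ∈ M.S, x ∈ ball p r := by
  by_contra hne
  have h0 : ∫ x, lam (‖x - p‖ ^ 2 / r ^ 2) ∂M.μ = 0 := by
    apply integral_eq_zero_of_ae
    filter_upwards [M.ae_mem] with x hx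
    have hb : x ∉ ball p r := fun hb => hne ⟨x, hx, hb⟩
    rw [mem_ball, dist_eq_norm, not_lt] at hb
    exact dens_lam_zero hr hb
  rw [Surf.Θ, theta, h0, zero_div] at h
  exact lt_irrefl _ h

/-- Two functions that are close in a ball and equal outside have close integrals. -/
theorem dens_diff (h : M.Bd) {p : E} {ρ : ℝ} (hρ : 0 < ρ) {f g : E → ℝ}
    (hf : Integrable f M.μ) (hg : Integrable g M.μ) {C : ℝ} (hC0 : 0 ≤ C)
    (hC : ∀ x ∈ ball p ρ, |f x - g x| ≤ C) (h0 : ∀ x, x ∉ ball p ρ → f x - g x = 0) :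
    |∫ x, f x ∂M.μ - ∫ x, g x ∂M.μ| ≤ C * (2 * π * ρ ^ 2) := by
  rw [← integral_sub hf hg, ← setIntegral_eq_integral_of_forall_compl_eq_zero h0]
  exact h.setIntegral_le hρ hC0 fun x hx => hC x hx.2

theorem dens_abs_le_two (h : M.Bd) (p q : E) {r s : ℝ} (hr : 0 < r) (hs : 0 < s) :
    |M.Θ q s - M.Θ p r| ≤ 2 := by
  have h1 := h.Θ_le_two p hr
  have h2 := h.Θ_le_two q hs
  have h3 := Θ_nonneg (M := M) p r
  have h4 := Θ_nonneg (M := M) q s
  rw [abs_le]
  constructor <;> linarith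

/-- LIP. -/
theorem Bd.Θ_lip (h : M.Bd) (p q : E) {r : ℝ} (hr : 0 < r) :
    |M.Θ q r - M.Θ p r| ≤ 400 * ‖q - p‖ / r := by
  have hπ := Real.pi_pos
  have hπ4 := Real.pi_lt_four
  set d : ℝ := ‖q - p‖ with hd
  have hd0 : 0 ≤ d := norm_nonneg _
  rcases le_or_gt (r / 2) d with hc | hc
  · refine (dens_abs_le_two h p q hr hr).trans ?_
    rw [le_div_iff₀ hr]
    linarith
  have hab : ∀ x : E, |‖x - q‖ - ‖x - p‖| ≤ d := fun x => by
    refine (abs_norm_sub_norm_le _ _).trans (le_of_eq ?_)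
    rw [hd, ← norm_neg]
    congr 1
    abel
  have key := dens_diff h (p := p) (ρ := 3 / 2 * r) (by positivity) (h.integrable_lam q hr)
    (h.integrable_lam p hr) (C := 14 * d / r) (by positivity) (fun x hx => ?_) (fun x hx => ?_)
  · have e : M.Θ q r - M.Θ p r = (∫ x, lam (‖x - q‖ ^ 2 / r ^ 2) ∂M.μ -
        ∫ x, lam (‖x - p‖ ^ 2 / r ^ 2) ∂M.μ) / r ^ 2 := by
      rw [Surf.Θ, Surf.Θ, theta, theta, sub_div]
    rw [e, abs_div, abs_of_pos (by positivity : 0 < r ^ 2), div_le_iff₀ (by positivity)]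
    refine key.trans ?_
    have e1 : 14 * d / r * (2 * π * (3 / 2 * r) ^ 2) = 63 * π * (d * r) := by
      field_simp
      ring
    have e2 : 400 * d / r * r ^ 2 = 400 * (d * r) := by
      field_simp
    rw [e1, e2]
    exact mul_le_mul_of_nonneg_right (by linarith) (by positivity)
  · rw [mem_ball, dist_eq_norm] at hx
    refine (abs_lam_sub_le (by positivity) (by positivity)).trans ?_
    have h1 := hab x
    have hb := norm_nonneg (x - q)
    have ha := norm_nonneg (x - p)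
    have h2 := (abs_le.1 h1).2
    have e : ‖x - q‖ ^ 2 / r ^ 2 - ‖x - p‖ ^ 2 / r ^ 2 =
        (‖x - q‖ - ‖x - p‖) * ((‖x - q‖ + ‖x - p‖) / r ^ 2) := by ring
    rw [e, abs_mul, abs_of_nonneg (by positivity : 0 ≤ (‖x - q‖ + ‖x - p‖) / r ^ 2)]
    have h3 : (‖x - q‖ + ‖x - p‖) / r ^ 2 ≤ 7 / 2 / r := by
      rw [div_le_div_iff₀ (by positivity) hr]
      nlinarith
    calc 4 * (|‖x - q‖ - ‖x - p‖| * ((‖x - q‖ + ‖x - p‖) / r ^ 2))
        ≤ 4 * (d * (7 / 2 / r)) := by gcongr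
      _ = 14 * d / r := by ring
  · rw [mem_ball, dist_eq_norm, not_lt] at hx
    have h2 := (abs_le.1 (hab x)).1
    rw [dens_lam_zero hr (by linarith), dens_lam_zero hr (by linarith), sub_zero]

theorem Bd.Θ_lip_r (h : M.Bd) (p : E) {r s : ℝ} (hr : 0 < r) (hrs : r ≤ s) :
    |M.Θ p s - M.Θ p r| ≤ 400 * (s - r) / r := by
  have hπ := Real.pi_pos
  have hπ3 := Real.pi_gt_three
  have hπ4 := Real.pi_lt_four
  have hs : 0 < s := hr.trans_le hrs
  rcases le_or_gt (3 / 2 * r) s with hc | hc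
  · refine (dens_abs_le_two h p p hr hs).trans ?_
    rw [le_div_iff₀ hr]
    linarith
  set D : ℝ := 1 / r ^ 2 - 1 / s ^ 2 with hD
  have hD0 : 0 ≤ D := by
    rw [hD, sub_nonneg]
    exact one_div_le_one_div_of_le (by positivity) (pow_le_pow_left₀ hr.le hrs 2)
  have key := dens_diff h (p := p) hs ((h.integrable_lam p hs).div_const (s ^ 2))
    ((h.integrable_lam p hr).div_const (r ^ 2)) (C := 6 * D) (by positivity)
    (fun x hx => ?_) (fun x hx => ?_)
  · rw [integral_div, integral_div] at key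
    refine key.trans ?_
    have e1 : 6 * D * (2 * π * s ^ 2) = 12 * π * ((s + r) / r) * (s - r) / r := by
      rw [hD]
      field_simp
      ring
    rw [e1]
    have h1 : (s + r) / r ≤ 5 / 2 := by
      rw [div_le_iff₀ hr]
      linarith
    have h2 : 12 * π * ((s + r) / r) ≤ 400 := by
      have : 12 * π * ((s + r) / r) ≤ 12 * 4 * (5 / 2) := by gcongr
      linarith
    have h3 : 0 ≤ s - r := by linarith
    gcongr
  · rw [mem_ball, dist_eq_norm] at hx
    set a : ℝ := ‖x - p‖ with ha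
    have ha0 : 0 ≤ a := norm_nonneg _
    have h1 := abs_lam_sub_le (s := a ^ 2 / s ^ 2) (t := a ^ 2 / r ^ 2) (by positivity)
      (by positivity)
    have h2 : lam (a ^ 2 / r ^ 2) ≤ 2 := by
      refine (lam_le (by positivity)).trans ?_
      rw [div_le_iff₀ hπ]
      linarith
    have h3 := lam_nonneg (a ^ 2 / r ^ 2)
    have e1 : a ^ 2 / s ^ 2 - a ^ 2 / r ^ 2 = -(a ^ 2 * D) := by
      rw [hD]
      ring
    rw [e1, abs_neg, abs_of_nonneg (by positivity : 0 ≤ a ^ 2 * D)] at h1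
    have e2 : lam (a ^ 2 / s ^ 2) / s ^ 2 - lam (a ^ 2 / r ^ 2) / r ^ 2 =
        (lam (a ^ 2 / s ^ 2) - lam (a ^ 2 / r ^ 2)) / s ^ 2 - lam (a ^ 2 / r ^ 2) * D := by
      rw [hD]
      ring
    rw [e2]
    refine (abs_sub _ _).trans ?_
    have h4 : |(lam (a ^ 2 / s ^ 2) - lam (a ^ 2 / r ^ 2)) / s ^ 2| ≤ 4 * D := by
      rw [abs_div, abs_of_pos (by positivity : 0 < s ^ 2), div_le_iff₀ (by positivity)]
      refine h1.trans ?_
      have : a ^ 2 ≤ s ^ 2 := pow_le_pow_left₀ ha0 hx.le 2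
      nlinarith
    have h5 : |lam (a ^ 2 / r ^ 2) * D| ≤ 2 * D := by
      rw [abs_of_nonneg (by positivity)]
      exact mul_le_mul_of_nonneg_right h2 hD0
    linarith
  · rw [mem_ball, dist_eq_norm, not_lt] at hx
    rw [dens_lam_zero hs hx, dens_lam_zero hr (hrs.trans hx), zero_div, zero_div, sub_zero]

theorem dens_lip_min (h : M.Bd) (p : E) {r s : ℝ} (hr : 0 < r) (hs : 0 < s) :
    |M.Θ p s - M.Θ p r| ≤ 400 * |s - r| / min s r := by
  rcases le_total r s with hc | hc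
  · rw [min_eq_right hc, abs_of_nonneg (sub_nonneg.2 hc)]
    exact h.Θ_lip_r p hr hc
  · rw [min_eq_left hc, abs_sub_comm, abs_sub_comm s r, abs_of_nonneg (sub_nonneg.2 hc)]
    exact h.Θ_lip_r p hs hc

theorem Bd.continuousOn_Θ (h : M.Bd) :
    ContinuousOn (fun q : E × ℝ => M.Θ q.1 q.2) {q | 0 < q.2} := by
  rintro ⟨p, r⟩ hr
  have hr : 0 < r := hr
  have hc : ContinuousAt
      (fun q : E × ℝ => 400 * |q.2 - r| / min q.2 r + 400 * ‖q.1 - p‖ / r) (p, r) := by
    refine ContinuousAt.add (ContinuousAt.div (by fun_prop) (by fun_prop) ?_) (by fun_prop)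
    simpa using hr.ne'
  have ht : Tendsto (fun q : E × ℝ => 400 * |q.2 - r| / min q.2 r + 400 * ‖q.1 - p‖ / r)
      (𝓝[{q : E × ℝ | 0 < q.2}] (p, r)) (𝓝 0) := by
    have := hc.tendsto.mono_left (nhdsWithin_le_nhds (s := {q : E × ℝ | 0 < q.2}))
    simpa using this
  refine tendsto_iff_dist_tendsto_zero.2 (squeeze_zero' (Eventually.of_forall fun _ => dist_nonneg)
    ?_ ht)
  filter_upwards [self_mem_nhdsWithin] with q hq
  have hq : 0 < q.2 := hq
  rw [Real.dist_eq]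
  have h1 := dens_lip_min h q.1 hr hq
  have h2 := h.Θ_lip p q.1 hr
  have h3 := abs_sub_le (M.Θ q.1 q.2) (M.Θ q.1 r) (M.Θ p r)
  linarith

end Surf

/-- The area bound gives density at most two, for any measure. -/
theorem theta_le_two {ν : Measure E} {p : E}
    (h : ∀ r, 0 < r → ν (ball p r) ≤ ENNReal.ofReal (2 * π * r ^ 2)) {r : ℝ} (hr : 0 < r) :
    theta ν p r ≤ 2 := dens_theta_le_two h hr

end MW
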