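import Pool.Agent.P.MP_064970_gt.Pic

/-! Pictures: monotonicity, symmetries, invariance under similarities. -/

open MeasureTheory Set Filter Topology Metric
open scoped RealInnerProductSpace ENNReal ComplexConjugate Real

noncomputable section

namespace MW

namespace Surf

variable {M : Surf} {p ν ν₁ ν₂ : E} {ρ δ δ' : ℝ}

theorem PicA_div_le (hρ : 0 < ρ) (hδ : 0 < δ) (hδ' : δ ≤ δ') : ρ / δ' ≤ ρ / δ :=
  div_le_div_of_nonneg_left hρ.le hδ hδ'

theorem PicA_hundred (hρ : 0 < ρ) (hδ : 0 < δ) (hδ1 : δ ≤ 1 / 100) : 100 * ρ ≤ ρ / δ := by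
  rw [le_div_iff₀ hδ]
  nlinarith

theorem PicA_abs_inner (v : E) (hν : ‖ν‖ = 1) : |⟪v, ν⟫| ≤ ‖v‖ := by
  have := abs_real_inner_le_norm v ν
  rwa [hν, mul_one] at this

theorem FlatW.neg (h : M.FlatW p ρ δ ν) : M.FlatW p ρ δ (-ν) where
  unit := by rw [norm_neg, h.unit]
  slab := fun x hx => by rw [inner_neg_right, abs_neg]; exact h.slab x hx
  side := fun x hx hl => h.side x hx (by rwa [inner_neg_right, abs_neg] at hl)
  tilt := by simpa only [wedge_neg_right] using h.tilt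
  dens := fun q hq h0 => h.dens q hq (by rwa [inner_neg_right, neg_eq_zero] at h0)
theorem FlatW.mono (hmono : S_MONO) (hM : M.Mem) (h : M.FlatW p ρ δ ν) (hρ : 0 < ρ) (hδ : 0 < δ)
    (hδ' : δ ≤ δ') : M.FlatW p ρ δ' ν := by
  have hb : ball p (ρ / δ') ⊆ ball p (ρ / δ) := ball_subset_ball (PicA_div_le hρ hδ hδ')
  have hm : δ * ρ ≤ δ' * ρ := mul_le_mul_of_nonneg_right hδ' hρ.le
  refine ⟨h.unit, fun x hx => (h.slab x ⟨hx.1, hb hx.2⟩).trans hm,
    fun x hx hl => h.side x (hb hx) (hm.trans_lt hl), ?_, fun q hq h0 => ?_⟩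
  · have hi : IntegrableOn (fun x => wedge (M.N x) ν ^ 2) (ball p (ρ / δ)) M.μ := by
      refine hM.bd.integrableOn (C := 1) isBounded_ball ?_ (fun x hx => ?_) measurableSet_ball
      · exact (continuous_wedge.measurable.comp (M.N_meas.prodMk measurable_const)).pow_const 2
      · rw [abs_of_nonneg (sq_nonneg _)]
        exact pow_le_one₀ (wedge_nonneg _ _) (wedge_le_one (M.N_unit x hx.2) h.unit)
    refine (setIntegral_mono_set hi (Eventually.of_forall fun x => sq_nonneg _)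
      hb.eventuallyLE).trans (h.tilt.trans ?_)
    exact mul_le_mul_of_nonneg_right hδ' (sq_nonneg _)
  · have h1 := (hmono M q (δ * ρ) (δ' * ρ) (mul_pos hδ hρ) hm (hM.sub _)).1
    have h2 := h.dens q (hb hq) h0
    linarith
theorem Cross.mono (hmono : S_MONO) (hM : M.Mem) (h : M.Cross p ρ δ ν₁ ν₂) (hρ : 0 < ρ)
    (hδ : 0 < δ) (hδ' : δ ≤ δ') : M.Cross p ρ δ' ν₁ ν₂ := by
  have hd := PicA_div_le hρ hδ hδ'
  have hb : ball p (ρ / δ') ⊆ ball p (ρ / δ) := ball_subset_ball hd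
  have hm : δ * ρ ≤ δ' * ρ := mul_le_mul_of_nonneg_right hδ' hρ.le
  refine ⟨h.unit₁, h.unit₂, fun x hx hl => ?_, fun x hx hl => ?_, fun x hx hl => ?_,
    fun x hx hl => ?_, fun x hx h1 h2 => h.pat x (hb hx) (hm.trans_lt h1) (hm.trans_lt h2),
    fun q hq r h1 h2 h3 => h.near q (hb hq) r (hm.trans h1) (h2.trans hd) h3,
    fun q hq h1 h2 => ?_⟩
  · exact (h.pos₁ x ⟨hx.1, hb hx.2⟩ (hm.trans_lt hl)).imp (·.trans hm) (·.trans hδ')
  · exact (h.neg₁ x ⟨hx.1, hb hx.2⟩ (by linarith)).imp (·.trans hm) (·.trans hδ')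
  · exact (h.pos₂ x ⟨hx.1, hb hx.2⟩ (hm.trans_lt hl)).imp (·.trans hm) (·.trans hδ')
  · exact (h.neg₂ x ⟨hx.1, hb hx.2⟩ (by linarith)).imp (·.trans hm) (·.trans hδ')
  · have h3 := (hmono M q (δ * ρ) (δ' * ρ) (mul_pos hδ hρ) hm (hM.sub _)).1
    have h4 := h.dens q (hb hq) h1 h2
    linarith
theorem Cross.symm (h : M.Cross p ρ δ ν₁ ν₂) : M.Cross p ρ δ ν₂ ν₁ where
  unit₁ := h.unit₂
  unit₂ := h.unit₁
  pos₁ := h.pos₂
  neg₁ := h.neg₂
  pos₂ := h.pos₁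
  neg₂ := h.neg₁
  pat := fun x hx h1 h2 => by rw [mul_comm]; exact h.pat x hx h2 h1
  near := fun q hq r h1 h2 h3 => (h.near q hq r h1 h2 h3).symm
  dens := fun q hq h1 h2 => h.dens q hq h2 h1
theorem Cross.neg (h : M.Cross p ρ δ ν₁ ν₂) : M.Cross p ρ δ (-ν₁) (-ν₂) where
  unit₁ := by rw [norm_neg, h.unit₁]
  unit₂ := by rw [norm_neg, h.unit₂]
  pos₁ := fun x hx hl => by
    rw [inner_neg_right] at hl
    rw [inner_neg_right, abs_neg, sub_neg_eq_add]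
    exact h.neg₁ x hx (by linarith)
  neg₁ := fun x hx hl => by
    rw [inner_neg_right] at hl
    rw [inner_neg_right, abs_neg, ← sub_eq_add_neg]
    exact h.pos₁ x hx (by linarith)
  pos₂ := fun x hx hl => by
    rw [inner_neg_right] at hl
    rw [inner_neg_right, abs_neg, sub_neg_eq_add]
    exact h.neg₂ x hx (by linarith)
  neg₂ := fun x hx hl => by
    rw [inner_neg_right] at hl
    rw [inner_neg_right, abs_neg, ← sub_eq_add_neg]
    exact h.pos₂ x hx (by linarith)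
  pat := fun x hx h1 h2 => by
    rw [inner_neg_right, abs_neg] at h1 h2
    rw [inner_neg_right, inner_neg_right, neg_mul_neg]
    exact h.pat x hx h1 h2
  near := fun q hq r h1 h2 h3 => by
    rw [inner_neg_right, inner_neg_right, abs_neg, abs_neg]
    exact h.near q hq r h1 h2 h3
  dens := fun q hq h1 h2 => by
    rw [inner_neg_right, neg_eq_zero] at h1 h2
    exact h.dens q hq h1 h2
theorem Cross.swap (h : M.Cross p ρ δ ν₁ ν₂) : M.swap.Cross p ρ δ ν₁ (-ν₂) where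
  unit₁ := h.unit₁
  unit₂ := by rw [norm_neg, h.unit₂]
  pos₁ := fun x hx hl => by
    rw [inner_neg_right] at hl
    have e : M.swap.N x - ν₁ = -(M.N x + ν₁) := by
      change -M.N x - ν₁ = _
      abel
    rw [e, norm_neg]
    exact h.neg₁ x hx (by linarith)
  neg₁ := fun x hx hl => by
    rw [inner_neg_right] at hl
    have e : M.swap.N x + ν₁ = -(M.N x - ν₁) := by
      change -M.N x + ν₁ = _
      abel
    rw [e, norm_neg]
    exact h.pos₁ x hx (by linarith)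
  pos₂ := fun x hx hl => by
    have e : M.swap.N x - -ν₂ = -(M.N x - ν₂) := by
      change -M.N x - -ν₂ = _
      abel
    rw [e, norm_neg, inner_neg_right, abs_neg]
    exact h.pos₂ x hx hl
  neg₂ := fun x hx hl => by
    have e : M.swap.N x + -ν₂ = -(M.N x + ν₂) := by
      change -M.N x + -ν₂ = _
      abel
    rw [e, norm_neg, inner_neg_right, abs_neg]
    exact h.neg₂ x hx hl
  pat := fun x hx h1 h2 => by
    rw [inner_neg_right, abs_neg] at h2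
    rw [inner_neg_right, mul_neg, neg_lt_zero, neg_pos]
    exact (h.pat x hx h1 h2).symm
  near := fun q hq r h1 h2 h3 => by
    rw [inner_neg_right, abs_neg]
    exact h.near q hq r h1 h2 h3
  dens := fun q hq h1 h2 => by
    rw [inner_neg_right, neg_eq_zero] at h2
    exact h.dens q hq h1 h2
/-- Every point of `S` in the picture is close to one of the two planes. -/
theorem Cross.near_plane (h : M.Cross p ρ δ ν₁ ν₂) {x : E} (hx : x ∈ M.S ∩ ball p (ρ / δ)) :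
    |⟪x - p, ν₁⟫| ≤ δ * ρ ∨ |⟪x - p, ν₂⟫| ≤ δ * ρ := by
  by_cases h2 : |⟪x - p, ν₂⟫| ≤ δ * ρ
  · exact Or.inr h2
  · rcases lt_abs.1 (not_le.1 h2) with h3 | h3
    · exact Or.inl (h.pos₁ x hx h3).1
    · exact Or.inl (h.neg₁ x hx (by linarith)).1
/-- In the flat picture every point of the plane is close to `S`. -/
theorem FlatW.exists_mem (h : M.FlatW p ρ δ ν) (hρ : 0 < ρ) (hδ : 0 < δ) (hδ1 : δ ≤ 1) {q : E}
    (hq : q ∈ ball p (ρ / δ)) (hqν : ⟪q - p, ν⟫ = 0) : ∃ x ∈ M.S, x ∈ ball q (δ * ρ) := by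
  have h1 := h.dens q hq hqν
  exact exists_mem_of_Θ_pos (mul_pos hδ hρ) (by linarith)

theorem PicA_not_swap {p' ν' : E} {ρ' : ℝ} (h : M.FlatW p ρ δ ν) (h' : M.swap.FlatW p' ρ' δ ν')
    (hρ : 0 < ρ) (hρ' : 0 < ρ') (h1 : ρ ≤ 2 * ρ') (h2 : ρ' ≤ 2 * ρ) (hp : ‖p - p'‖ ≤ ρ / 10)
    (hδ : 0 < δ) (hδ1 : δ ≤ 1 / 100) (hs : 0 ≤ ⟪ν, ν'⟫) : False := by
  have hn : ‖ρ • (ν + ν')‖ ≤ 2 * ρ := by
    rw [norm_smul, Real.norm_of_nonneg hρ.le]
    have := norm_add_le ν ν'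
    rw [h.unit, h'.unit] at this
    nlinarith
  have a1 := PicA_hundred hρ hδ hδ1
  have a2 := PicA_hundred hρ' hδ hδ1
  have hνν : ⟪ν, ν⟫ = 1 := by rw [real_inner_self_eq_norm_sq, h.unit]; norm_num
  have hνν' : ⟪ν', ν'⟫ = 1 := by rw [real_inner_self_eq_norm_sq, h'.unit]; norm_num
  have e1 : p + ρ • (ν + ν') - p = ρ • (ν + ν') := by abel
  have e2 : p + ρ • (ν + ν') - p' = (p - p') + ρ • (ν + ν') := by abel
  have b1 : p + ρ • (ν + ν') ∈ M.W' := by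
    refine h.side _ ?_ ?_
    · rw [mem_ball_iff_norm, e1]
      linarith
    · rw [e1, real_inner_smul_left, inner_add_left, hνν, real_inner_comm]
      refine lt_of_lt_of_le ?_ (le_abs_self _)
      nlinarith
  have b2 : p + ρ • (ν + ν') ∈ M.W := by
    refine h'.side _ ?_ ?_
    · rw [mem_ball_iff_norm, e2]
      have := norm_add_le (p - p') (ρ • (ν + ν'))
      linarith
    · rw [e2, inner_add_left, real_inner_smul_left, inner_add_left, hνν']
      refine lt_of_lt_of_le ?_ (le_abs_self _)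
      have := (abs_le.1 (PicA_abs_inner (p - p') h'.unit)).1
      nlinarith
  exact disjoint_left.1 M.disj b2 b1

/-- The two flat pictures exclude each other, also for comparable centres and scales. -/
theorem FlatW.not_swap {p' ν' : E} {ρ' : ℝ} (h : M.FlatW p ρ δ ν) (h' : M.swap.FlatW p' ρ' δ ν')
    (hρ : 0 < ρ) (hρ' : 0 < ρ') (h1 : ρ ≤ 2 * ρ') (h2 : ρ' ≤ 2 * ρ) (hp : ‖p - p'‖ ≤ ρ / 10)
    (hδ : 0 < δ) (hδ1 : δ ≤ 1 / 100) : False := by
  rcases le_total 0 ⟪ν, ν'⟫ with hs | hs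
  · exact PicA_not_swap h h' hρ hρ' h1 h2 hp hδ hδ1 hs
  · exact PicA_not_swap h h'.neg hρ hρ' h1 h2 hp hδ hδ1 (by rw [inner_neg_right]; linarith)
/-- Two flat pictures at comparable centres and scales have close normals. -/
theorem FlatW.wedge_le {p' ν' : E} {ρ' : ℝ} (h : M.FlatW p ρ δ ν) (h' : M.FlatW p' ρ' δ ν')
    (hρ : 0 < ρ) (hρ' : 0 < ρ') (h1 : ρ ≤ 2 * ρ') (h2 : ρ' ≤ 2 * ρ) (hp : ‖p - p'‖ ≤ 10 * ρ)
    (hδ : 0 < δ) (hδ1 : δ ≤ 1 / 100) : wedge ν ν' ≤ 10 * δ := by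
  rw [wedge_comm h.unit h'.unit]
  rcases (wedge_nonneg ν' ν).eq_or_lt with hs | hs
  · rw [← hs]
    positivity
  have a1 := PicA_hundred hρ hδ hδ1
  have a2 := PicA_hundred hρ' hδ hδ1
  have hνν : ⟪ν, ν⟫ = 1 := by rw [real_inner_self_eq_norm_sq, h.unit]; norm_num
  have hνν' : ⟪ν', ν'⟫ = 1 := by rw [real_inner_self_eq_norm_sq, h'.unit]; norm_num
  have hsq := wedge_sq h'.unit h.unit
  obtain ⟨w, hw1, hw2, hw3⟩ : ∃ w : E, ‖w‖ = ρ ∧ ⟪w, ν⟫ = 0 ∧ ⟪w, ν'⟫ = ρ * wedge ν' ν := by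
    refine ⟨(ρ / wedge ν' ν) • (ν' - ⟪ν', ν⟫ • ν), ?_, ?_, ?_⟩
    · rw [norm_smul, Real.norm_of_nonneg (div_pos hρ hs).le]
      exact div_mul_cancel₀ _ hs.ne'
    · rw [real_inner_smul_left, inner_sub_left, real_inner_smul_left, hνν, mul_one, sub_self,
        mul_zero]
    · rw [real_inner_smul_left, inner_sub_left, real_inner_smul_left, hνν', real_inner_comm ν' ν,
        ← sq, ← hsq]
      field_simp
  have hδρ : δ * ρ ≤ ρ / 100 := by nlinarith
  obtain ⟨x, hxS, hx⟩ := h.exists_mem hρ hδ (by linarith) (q := p)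
    (mem_ball_self (by linarith)) (by rw [sub_self, inner_zero_left])
  have e1 : p + w - p = w := by abel
  obtain ⟨y, hyS, hy⟩ := h.exists_mem hρ hδ (by linarith) (q := p + w)
    (by rw [mem_ball_iff_norm, e1]; linarith) (by rw [e1, hw2])
  rw [mem_ball_iff_norm] at hx hy
  have c1 : |⟪x - p', ν'⟫| ≤ δ * ρ' := by
    refine h'.slab x ⟨hxS, ?_⟩
    rw [mem_ball_iff_norm]
    have := norm_add_le (x - p) (p - p')
    rw [sub_add_sub_cancel] at this
    linarith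
  have c2 : |⟪y - p', ν'⟫| ≤ δ * ρ' := by
    refine h'.slab y ⟨hyS, ?_⟩
    rw [mem_ball_iff_norm]
    have e2 : y - p' = (y - (p + w)) + w + (p - p') := by abel
    have := norm_add₃_le (a := y - (p + w)) (b := w) (c := p - p')
    rw [← e2] at this
    linarith
  have c3 := abs_le.1 (PicA_abs_inner (x - p) h'.unit)
  have c4 := abs_le.1 (PicA_abs_inner (y - (p + w)) h'.unit)
  have e3 : w = (y - p') - (x - p') - (y - (p + w)) + (x - p) := by abel
  have c5 : ⟪w, ν'⟫ = ⟪y - p', ν'⟫ - ⟪x - p', ν'⟫ - ⟪y - (p + w), ν'⟫ + ⟪x - p, ν'⟫ := by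
    rw [← inner_sub_left, ← inner_sub_left, ← inner_add_left, ← e3]
  have c6 := abs_le.1 c1
  have c7 := abs_le.1 c2
  have c8 : δ * ρ' ≤ 2 * (δ * ρ) := by nlinarith
  have c9 : ρ * wedge ν' ν ≤ ρ * (10 * δ) := by nlinarith
  exact le_of_mul_le_mul_left c9 hρ

end Surf

namespace IsSim

variable {M M' : Surf} {A : E ≃ₗᵢ[ℝ] E} {c : ℝ} {b : E}

theorem PicA_inner (A : E ≃ₗᵢ[ℝ] E) (c : ℝ) (b x p ν : E) :
    ⟪simMap A c b x - simMap A c b p, A ν⟫ = c * ⟪x - p, ν⟫ := by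
  rw [simMap_sub, real_inner_smul_left, A.inner_map_map]

theorem PicA_abs (A : E ≃ₗᵢ[ℝ] E) {c : ℝ} (hc : 0 < c) (b x p ν : E) :
    |⟪simMap A c b x - simMap A c b p, A ν⟫| = c * |⟪x - p, ν⟫| := by
  rw [PicA_inner, abs_mul, abs_of_pos hc]

theorem PicA_flatW (h : IsSim M M' A c b) {p : E} {ρ δ : ℝ} {ν : E} (H : M.FlatW p ρ δ ν) :
    M'.FlatW (simMap A c b p) (c * ρ) δ (A ν) := by
  have hc := h.pos
  refine ⟨by rw [A.norm_map, H.unit], fun x hx => ?_, fun x hx hl => ?_, ?_, fun q hq h0 => ?_⟩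
  · obtain ⟨x, rfl⟩ := simMap_surjective A hc b x
    rw [mul_div_assoc, mem_inter_iff, h.S, simMap_mem_ball A hc] at hx
    rw [PicA_abs A hc, mul_left_comm]
    exact mul_le_mul_of_nonneg_left (H.slab x hx) hc.le
  · obtain ⟨x, rfl⟩ := simMap_surjective A hc b x
    rw [mul_div_assoc, simMap_mem_ball A hc] at hx
    rw [PicA_abs A hc, mul_left_comm] at hl
    exact (h.W' x).2 (H.side x hx (lt_of_mul_lt_mul_left hl hc.le))
  · rw [mul_div_assoc, h.setIntegral_ball]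
    simp only [h.N, wedge_map]
    have := mul_le_mul_of_nonneg_left H.tilt (sq_nonneg c)
    calc _ ≤ c ^ 2 * (δ * ρ ^ 2) := this
      _ = δ * (c * ρ) ^ 2 := by ring
  · obtain ⟨q, rfl⟩ := simMap_surjective A hc b q
    rw [mul_div_assoc, simMap_mem_ball A hc] at hq
    rw [PicA_inner] at h0
    rw [mul_left_comm, h.Θ]
    exact H.dens q hq ((mul_eq_zero.1 h0).resolve_left hc.ne')

theorem PicA_cross (h : IsSim M M' A c b) {p : E} {ρ δ : ℝ} {ν₁ ν₂ : E}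
    (H : M.Cross p ρ δ ν₁ ν₂) : M'.Cross (simMap A c b p) (c * ρ) δ (A ν₁) (A ν₂) := by
  have hc := h.pos
  refine ⟨by rw [A.norm_map, H.unit₁], by rw [A.norm_map, H.unit₂], fun x hx hl => ?_,
    fun x hx hl => ?_, fun x hx hl => ?_, fun x hx hl => ?_, fun x hx h1 h2 => ?_,
    fun q hq r h1 h2 h3 => ?_, fun q hq h1 h2 => ?_⟩
  · obtain ⟨x, rfl⟩ := simMap_surjective A hc b x
    rw [mul_div_assoc, mem_inter_iff, h.S, simMap_mem_ball A hc] at hx
    rw [PicA_inner, mul_left_comm] at hl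
    rw [PicA_abs A hc, mul_left_comm, h.N, ← map_sub, A.norm_map]
    exact (H.pos₁ x hx (lt_of_mul_lt_mul_left hl hc.le)).imp
      (fun t => mul_le_mul_of_nonneg_left t hc.le) id
  · obtain ⟨x, rfl⟩ := simMap_surjective A hc b x
    rw [mul_div_assoc, mem_inter_iff, h.S, simMap_mem_ball A hc] at hx
    rw [PicA_inner, mul_left_comm, ← mul_neg] at hl
    rw [PicA_abs A hc, mul_left_comm, h.N, ← map_add, A.norm_map]
    exact (H.neg₁ x hx (lt_of_mul_lt_mul_left hl hc.le)).imp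
      (fun t => mul_le_mul_of_nonneg_left t hc.le) id
  · obtain ⟨x, rfl⟩ := simMap_surjective A hc b x
    rw [mul_div_assoc, mem_inter_iff, h.S, simMap_mem_ball A hc] at hx
    rw [PicA_inner, mul_left_comm] at hl
    rw [PicA_abs A hc, mul_left_comm, h.N, ← map_sub, A.norm_map]
    exact (H.pos₂ x hx (lt_of_mul_lt_mul_left hl hc.le)).imp
      (fun t => mul_le_mul_of_nonneg_left t hc.le) id
  · obtain ⟨x, rfl⟩ := simMap_surjective A hc b x
    rw [mul_div_assoc, mem_inter_iff, h.S, simMap_mem_ball A hc] at hx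
    rw [PicA_inner, mul_left_comm, ← mul_neg] at hl
    rw [PicA_abs A hc, mul_left_comm, h.N, ← map_add, A.norm_map]
    exact (H.neg₂ x hx (lt_of_mul_lt_mul_left hl hc.le)).imp
      (fun t => mul_le_mul_of_nonneg_left t hc.le) id
  · obtain ⟨x, rfl⟩ := simMap_surjective A hc b x
    rw [mul_div_assoc, simMap_mem_ball A hc] at hx
    rw [PicA_abs A hc, mul_left_comm] at h1 h2
    have h3 := H.pat x hx (lt_of_mul_lt_mul_left h1 hc.le) (lt_of_mul_lt_mul_left h2 hc.le)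
    have e : c * ⟪x - p, ν₁⟫ * (c * ⟪x - p, ν₂⟫) = c ^ 2 * (⟪x - p, ν₁⟫ * ⟪x - p, ν₂⟫) := by ring
    have hc2 : 0 < c ^ 2 := by positivity
    rw [PicA_inner, PicA_inner, e, h.W, h.W']
    exact ⟨fun t => h3.1 (neg_of_mul_neg_right t hc2.le),
      fun t => h3.2 ((mul_pos_iff_of_pos_left hc2).1 t)⟩
  · obtain ⟨q, rfl⟩ := simMap_surjective A hc b q
    obtain ⟨r, rfl⟩ : ∃ r', r = c * r' := ⟨r / c, by field_simp⟩
    rw [mul_div_assoc, simMap_mem_ball A hc] at hq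
    rw [mul_left_comm] at h1
    rw [mul_div_assoc] at h2
    rw [h.Θ] at h3
    rw [PicA_abs A hc, PicA_abs A hc, mul_div_assoc]
    exact (H.near q hq r (le_of_mul_le_mul_left h1 hc) (le_of_mul_le_mul_left h2 hc) h3).imp
      (fun t => mul_le_mul_of_nonneg_left t hc.le) (fun t => mul_le_mul_of_nonneg_left t hc.le)
  · obtain ⟨q, rfl⟩ := simMap_surjective A hc b q
    rw [mul_div_assoc, simMap_mem_ball A hc] at hq
    rw [PicA_inner] at h1 h2
    rw [mul_left_comm, h.Θ]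
    exact H.dens q hq ((mul_eq_zero.1 h1).resolve_left hc.ne')
      ((mul_eq_zero.1 h2).resolve_left hc.ne')

theorem flatW (h : IsSim M M' A c b) (p : E) (ρ δ : ℝ) (ν : E) :
    M'.FlatW (simMap A c b p) (c * ρ) δ (A ν) ↔ M.FlatW p ρ δ ν := by
  refine ⟨fun H => ?_, h.PicA_flatW⟩
  have := h.symm.PicA_flatW H
  rwa [simMap_inv A h.pos, inv_mul_cancel_left₀ h.pos.ne', A.symm_apply_apply] at this
theorem cross (h : IsSim M M' A c b) (p : E) (ρ δ : ℝ) (ν₁ ν₂ : E) :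
    M'.Cross (simMap A c b p) (c * ρ) δ (A ν₁) (A ν₂) ↔ M.Cross p ρ δ ν₁ ν₂ := by
  refine ⟨fun H => ?_, h.PicA_cross⟩
  have := h.symm.PicA_cross H
  rwa [simMap_inv A h.pos, inv_mul_cancel_left₀ h.pos.ne', A.symm_apply_apply,
    A.symm_apply_apply] at this

theorem PicA_typeII (h : IsSim M M' A c b) {ε : ℝ → ℝ} (H : M.TypeII ε) : M'.TypeII ε := by
  intro δ hδ hδ1 p ρ hρ hΘ
  have hc := h.pos
  obtain ⟨p, rfl⟩ := simMap_surjective A hc b p
  obtain ⟨r, rfl⟩ : ∃ r, ρ = c * r := ⟨ρ / c, by field_simp⟩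
  rw [h.Θ] at hΘ
  obtain ⟨ν, hν⟩ := H δ hδ hδ1 p r ((mul_pos_iff_of_pos_left hc).1 hρ) hΘ
  exact ⟨A ν, h.PicA_flatW hν⟩

theorem typeII (h : IsSim M M' A c b) (ε : ℝ → ℝ) : M'.TypeII ε ↔ M.TypeII ε :=
  ⟨h.symm.PicA_typeII, h.PicA_typeII⟩

end IsSim

theorem Surf.zoom_flatW (M : Surf) (p : E) {ρ : ℝ} (hρ : 0 < ρ) (q : E) (r δ : ℝ) (ν : E) :
    (M.zoom p ρ).FlatW q r δ ν ↔ M.FlatW (p + ρ • q) (ρ * r) δ ν := by
  have := (M.isSim_zoom p hρ).flatW (p + ρ • q) (ρ * r) δ ν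
  rwa [sim_zoom_pt p hρ, inv_mul_cancel_left₀ hρ.ne'] at this
theorem Surf.zoom_swap_flatW (M : Surf) (p : E) {ρ : ℝ} (hρ : 0 < ρ) (q : E) (r δ : ℝ) (ν : E) :
    (M.zoom p ρ).swap.FlatW q r δ ν ↔ M.swap.FlatW (p + ρ • q) (ρ * r) δ ν := by
  have := (M.isSim_zoom p hρ).swap.flatW (p + ρ • q) (ρ * r) δ ν
  rwa [sim_zoom_pt p hρ, inv_mul_cancel_left₀ hρ.ne'] at this
theorem Surf.zoom_cross (M : Surf) (p : E) {ρ : ℝ} (hρ : 0 < ρ) (q : E) (r δ : ℝ) (ν₁ ν₂ : E) :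
    (M.zoom p ρ).Cross q r δ ν₁ ν₂ ↔ M.Cross (p + ρ • q) (ρ * r) δ ν₁ ν₂ := by
  have := (M.isSim_zoom p hρ).cross (p + ρ • q) (ρ * r) δ ν₁ ν₂
  rwa [sim_zoom_pt p hρ, inv_mul_cancel_left₀ hρ.ne'] at this
theorem Surf.zoom_typeII (M : Surf) (p : E) {ρ : ℝ} (hρ : 0 < ρ) (ε : ℝ → ℝ) :
    (M.zoom p ρ).TypeII ε ↔ M.TypeII ε := (M.isSim_zoom p hρ).typeII ε
theorem Surf.zoom_flat (M : Surf) (p : E) {ρ : ℝ} (hρ : 0 < ρ) : (M.zoom p ρ).Flat ↔ M.Flat :=
  (M.isSim_zoom p hρ).flat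

/-- The good set of a sequence moves with a fixed similarity. -/
theorem limO_sim {U : Filter ℕ} {Mk Mk' : ℕ → Surf} {A : E ≃ₗᵢ[ℝ] E} {c : ℝ} {b : E}
    (h : ∀ k, IsSim (Mk k) (Mk' k) A c b) (x : E) :
    simMap A c b x ∈ limO U Mk' ↔ x ∈ limO U Mk := by
  have hc := (h 0).pos
  constructor
  · rintro ⟨r, hr, H⟩
    obtain ⟨r, rfl⟩ : ∃ r', r = c * r' := ⟨r / c, by field_simp⟩
    exact ⟨r, (mul_pos_iff_of_pos_left hc).1 hr, H.mono fun k hk => ((h k).reg x r).1 hk⟩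
  · rintro ⟨r, hr, H⟩
    exact ⟨c * r, mul_pos hc hr, H.mono fun k hk => ((h k).reg x r).2 hk⟩

theorem PicA_reg_swap (M : Surf) (x : E) (r : ℝ) : M.swap.Reg x r ↔ M.Reg x r := by
  have e : ∀ y z, ‖M.swap.N y - M.swap.N z‖ = ‖M.N y - M.N z‖ := fun y z => by
    change ‖-M.N y - -M.N z‖ = _
    rw [neg_sub_neg, norm_sub_rev]
  simp only [Surf.Reg, e]
  rfl

theorem limO_swap (U : Filter ℕ) (Mk : ℕ → Surf) : limO U (fun k => (Mk k).swap) = limO U Mk := by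
  ext x
  simp only [limO, mem_ofPred_eq, PicA_reg_swap]
/-- Convergence is preserved by a fixed similarity. -/
theorem Conv.sim {U : Filter ℕ} {Mk Mk' : ℕ → Surf} {M M' : Surf} {A : E ≃ₗᵢ[ℝ] E} {c : ℝ} {b : E}
    (h : ∀ k, IsSim (Mk k) (Mk' k) A c b) (hM : IsSim M M' A c b) (hc : Conv U Mk M) :
    Conv U Mk' M' := by
  have hp := hM.pos
  have hK : ∀ K : Set E, IsCompact K → IsCompact (simMap A c b ⁻¹' K) := fun K hK =>
    (simHomeo A hp b).isCompact_preimage.2 hK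
  refine ⟨fun xk x h1 h2 h3 => ?_, fun K h1 h2 => ?_, fun K h1 h2 => ?_,
    fun F K h1 h2 h3 h4 => ?_⟩
  · obtain ⟨x, rfl⟩ := simMap_surjective A hp b x
    choose yk hy using fun k => simMap_surjective A hp b (xk k)
    obtain rfl : xk = fun k => simMap A c b (yk k) := funext fun k => (hy k).symm
    have h4 : Tendsto yk U (𝓝 x) := (simHomeo A hp b).isInducing.tendsto_nhds_iff.2 h2
    obtain ⟨h5, h6⟩ := hc.pts yk x (h1.mono fun k hk => ((h k).S _).1 hk) h4 ((hM.O x).1 h3)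
    refine ⟨(hM.S x).2 h5, ?_⟩
    simp only [(h _).N, hM.N]
    exact (A.continuous.tendsto _).comp h6
  · filter_upwards [hc.inW _ (hK K h1) fun x hx => (hM.W x).1 (h2 hx)] with k hk x hx
    obtain ⟨x, rfl⟩ := simMap_surjective A hp b x
    exact ((h k).W x).2 (hk hx)
  · filter_upwards [hc.inW' _ (hK K h1) fun x hx => (hM.W' x).1 (h2 hx)] with k hk x hx
    obtain ⟨x, rfl⟩ := simMap_surjective A hp b x
    exact ((h k).W' x).2 (hk hx)
  · have h5 := hc.meas (fun q => F (simMap A c b q.1, A q.2)) _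
      (h1.comp (((continuous_simMap A c b).comp continuous_fst).prodMk
        (A.continuous.comp continuous_snd))) (hK K h2) (fun x hx => (hM.O x).1 (h3 hx))
      (fun x n hx => h4 _ _ hx)
    have e1 : ∀ k, ∫ x, F (x, (Mk' k).N x) ∂(Mk' k).μ
        = c ^ 2 * ∫ x, F (simMap A c b x, A ((Mk k).N x)) ∂(Mk k).μ := fun k => by
      rw [(h k).integral]
      simp only [(h k).N]
    have e2 : ∫ x, F (x, M'.N x) ∂M'.μ = c ^ 2 * ∫ x, F (simMap A c b x, A (M.N x)) ∂M.μ := by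
      rw [hM.integral]
      simp only [hM.N]
    simp only [e1, e2]
    exact h5.const_mul _
/-- The limit pictures move with a fixed isometry. -/
theorem Tri.sim {U : Filter ℕ} {Mk Mk' : ℕ → Surf} {A : E ≃ₗᵢ[ℝ] E} {c : ℕ → ℝ} {b : ℕ → E}
    (h : ∀ k, IsSim (Mk k) (Mk' k) A (c k) (b k)) (pk : ℕ → E) (ρk : ℕ → ℝ) :
    Tri U Mk' (fun k => simMap A (c k) (b k) (pk k)) (fun k => c k * ρk k) ↔ Tri U Mk pk ρk := by
  unfold Tri
  refine or_congr ?_ (or_congr ?_ ?_)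
  · rw [A.surjective.exists]
    simp only [(h _).flatW]
  · rw [A.surjective.exists]
    simp only [(h _).swap.flatW]
  · rw [A.surjective.exists₂]
    simp only [(h _).cross, A.inner_map_map]

end MW
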