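import Pool.Agent.P.MP_064970_gt.Pic

/-! Chords: algebra, measurability, invariance under similarities. -/

open MeasureTheory Set Filter Topology Metric
open scoped RealInnerProductSpace ENNReal ComplexConjugate Real

noncomputable section

namespace MW

theorem PicB_ee {e : E} (he : ‖e‖ = 1) : ⟪e, e⟫ = (1 : ℝ) := by
  rw [real_inner_self_eq_norm_sq, he, one_pow]

theorem PicB_inner_mirror {e : E} (he : ‖e‖ = 1) (b : E) : ⟪mirror e b, e⟫ = -⟪b, e⟫ := by
  rw [mirror, inner_sub_left, real_inner_smul_left, PicB_ee he]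
  ring

theorem PicB_iso {e : E} (he : ‖e‖ = 1) (b : E) :
    Submodule.reflection (ℝ ∙ e)ᗮ b = mirror e b := by
  rw [Submodule.reflection_orthogonal_apply, Coord_refl_unit he, neg_sub, real_inner_comm, mirror]

theorem PicB_mirror_sub (e a b : E) : mirror e (a - b) = mirror e a - mirror e b := by
  simp only [mirror, inner_sub_left, mul_sub, sub_smul]
  abel

theorem mirror_mirror {e : E} (he : ‖e‖ = 1) (b : E) : mirror e (mirror e b) = b := by
  rw [mirror, PicB_inner_mirror he, mirror, mul_neg, neg_smul, sub_neg_eq_add, sub_add_cancel]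

theorem norm_mirror {e : E} (he : ‖e‖ = 1) (b : E) : ‖mirror e b‖ = ‖b‖ := by
  rw [← PicB_iso he, LinearIsometryEquiv.norm_map]

theorem inner_mirror {e : E} (he : ‖e‖ = 1) (b : E) : ⟪mirror e b, e⟫ = -⟪b, e⟫ :=
  PicB_inner_mirror he b

theorem mirror_neg_left (e b : E) : mirror (-e) b = mirror e b := by
  simp only [mirror, inner_neg_right, mul_neg, neg_smul, smul_neg, neg_neg]

theorem mirror_e3 (b : E) : mirror e3 b = pt (pr b) (-(b 2)) := by
  rw [mirror, inner_e3]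
  conv_lhs => rw [← pt_pr b, pt_sub_smul_e3, pt_two]
  congr 1
  ring

theorem mirror_map (A : E ≃ₗᵢ[ℝ] E) (e b : E) : mirror (A e) (A b) = A (mirror e b) := by
  rw [mirror, mirror, A.inner_map_map, map_sub, map_smul]

/-- The mirror as an isometry; the reflection as a similarity. -/
theorem exists_mirror_iso {e : E} (he : ‖e‖ = 1) :
    ∃ A : E ≃ₗᵢ[ℝ] E, (∀ b, A b = mirror e b) ∧ A e = -e ∧
      ∀ a x, simMap A 1 ((2 * a) • e) x = refl e a x := by
  refine ⟨Submodule.reflection (ℝ ∙ e)ᗮ, PicB_iso he, ?_, fun a x => ?_⟩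
  · rw [PicB_iso he, mirror, PicB_ee he, mul_one, two_smul]
    abel
  · rw [simMap, PicB_iso he, one_smul, mirror, refl, mul_sub, sub_smul]
    abel

theorem PicB_inner_refl {e : E} (he : ‖e‖ = 1) (a : ℝ) (x : E) :
    ⟪refl e a x, e⟫ = 2 * a - ⟪x, e⟫ := by
  rw [refl, inner_sub_left, real_inner_smul_left, PicB_ee he]
  ring

theorem refl_refl {e : E} (he : ‖e‖ = 1) (a : ℝ) (x : E) : refl e a (refl e a x) = x := by
  rw [refl, PicB_inner_refl he, refl, sub_sub, ← add_smul,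
    show 2 * (⟪x, e⟫ - a) + 2 * (2 * a - ⟪x, e⟫ - a) = 0 by ring, zero_smul, sub_zero]

theorem inner_refl {e : E} (he : ‖e‖ = 1) (a : ℝ) (x : E) : ⟪refl e a x, e⟫ = 2 * a - ⟪x, e⟫ :=
  PicB_inner_refl he a x

theorem refl_e3 (a : ℝ) (x : E) : refl e3 a x = pt (pr x) (2 * a - x 2) := by
  rw [refl, inner_e3]
  conv_lhs => rw [← pt_pr x, pt_sub_smul_e3, pt_two]
  congr 1
  ring

theorem continuous_refl (e : E) (a : ℝ) : Continuous (refl e a) := by
  unfold refl
  fun_prop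


theorem ed_nonneg (e a b : E) : 0 ≤ ed e a b := by
  unfold ed
  positivity

theorem ed_le_two {e a b : E} (he : ‖e‖ = 1) (ha : ‖a‖ = 1) (hb : ‖b‖ = 1) : ed e a b ≤ 2 := by
  have h := norm_sub_le a (mirror e b)
  rw [ha, norm_mirror he, hb] at h
  have h0 := norm_nonneg (a - mirror e b)
  unfold ed
  nlinarith

theorem ed_eq {e a b : E} (he : ‖e‖ = 1) (ha : ‖a‖ = 1) (hb : ‖b‖ = 1) :
    ed e a b = 1 - ⟪a, b⟫ + 2 * (⟪a, e⟫ * ⟪b, e⟫) := by
  rw [ed, Coord_norm_sub_sq ha (by rw [norm_mirror he, hb]), mirror, inner_sub_right,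
    real_inner_smul_right]
  ring

theorem ed_comm {e : E} (he : ‖e‖ = 1) (a b : E) : ed e a b = ed e b a := by
  rw [ed, ed, ← norm_mirror he (a - mirror e b), PicB_mirror_sub, mirror_mirror he, norm_sub_rev]

theorem ed_neg_left (e a b : E) : ed (-e) a b = ed e a b := by
  rw [ed, ed, mirror_neg_left]

theorem ed_map (A : E ≃ₗᵢ[ℝ] E) (e a b : E) : ed (A e) (A a) (A b) = ed e a b := by
  rw [ed, ed, mirror_map, ← map_sub, A.norm_map]

theorem ed_eq_zero {e a b : E} : ed e a b = 0 ↔ a = mirror e b := by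
  rw [ed, div_eq_zero_iff, or_iff_left two_ne_zero, pow_eq_zero_iff two_ne_zero, norm_eq_zero,
    sub_eq_zero]

theorem norm_pr_sub_sq_le (a b : E) : ‖pr b - pr a‖ ^ 2 ≤ 2 * ed e3 a b := by
  have h := norm_pr_le (a - mirror e3 b)
  rw [pr_sub, mirror_e3, pr_pt, norm_sub_rev, ← mirror_e3] at h
  have h1 := pow_le_pow_left₀ (norm_nonneg _) h 2
  unfold ed
  linarith

theorem continuous_ed : Continuous fun q : E × E × E => ed q.1 q.2.1 q.2.2 := by
  unfold ed mirror
  fun_prop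


theorem measurableSet_lay (T : ℝ) : MeasurableSet (lay T) :=
  (isOpen_lt (f := fun x : E => |x 2|) (by fun_prop) continuous_const).measurableSet

theorem measurableSet_cyl {K : Set ℂ} (hK : MeasurableSet K) (T : ℝ) : MeasurableSet (cyl K T) :=
  (measurable_pr hK).inter (measurableSet_lay T)

theorem isBounded_cyl {K : Set ℂ} (hK : Bornology.IsBounded K) (T : ℝ) :
    Bornology.IsBounded (cyl K T) := by
  obtain ⟨C, hC⟩ := isBounded_iff_forall_norm_le.mp hK
  exact isBounded_iff_forall_norm_le.mpr ⟨C + T, fun x hx =>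
    (norm_le_pr_add x).trans (add_le_add (hC _ hx.1) hx.2.le)⟩

theorem norm_ex : ‖ex‖ = 1 := by
  rw [ex, norm_pt_zero, norm_one]

theorem norm_ey : ‖ey‖ = 1 := by
  rw [ey, norm_pt_zero, Complex.norm_I]

theorem inner_ex (x : E) : ⟪x, ex⟫ = x 0 := by
  simp [inner_eq, ex]

theorem inner_ey (x : E) : ⟪x, ey⟫ = x 1 := by
  simp [inner_eq, ey]

/-- An orthonormal pair is the image of `ex`, `ey` under an isometry. -/
theorem exists_iso_pair {a b : E} (ha : ‖a‖ = 1) (hb : ‖b‖ = 1) (hab : ⟪a, b⟫ = 0) :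
    ∃ A : E ≃ₗᵢ[ℝ] E, A ex = a ∧ A ey = b := by
  obtain ⟨A, hA⟩ : ∃ A : E ≃ₗᵢ[ℝ] E, A ex = a :=
    ⟨Submodule.reflection (ℝ ∙ (ex - a))ᗮ, Submodule.reflection_sub (by rw [norm_ex, ha])⟩
  have h1 : ⟪A ey, a⟫ = 0 := by
    rw [← hA, A.inner_map_map, inner_ex]
    simp [ey]
  refine ⟨A.trans (Submodule.reflection (ℝ ∙ (A ey - b))ᗮ), ?_, ?_⟩
  · rw [LinearIsometryEquiv.trans_apply, hA]
    refine Submodule.reflection_mem_subspace_eq_self ?_
    rw [Submodule.mem_orthogonal_singleton_iff_inner_right, inner_sub_left, h1, real_inner_comm,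
      hab, sub_zero]
  · rw [LinearIsometryEquiv.trans_apply]
    exact Submodule.reflection_sub (by rw [A.norm_map, norm_ey, hb])


/-- The projection of a locally closed set is measurable. -/
theorem PicB_proj {C U : Set (E × ℝ)} (hC : IsClosed C) (hU : IsOpen U) :
    MeasurableSet {x : E | ∃ t : ℝ, (x, t) ∈ U ∧ (x, t) ∈ C} := by
  obtain ⟨F, hF, -, hFU, -⟩ := hU.exists_iUnion_isClosed
  have h1 : IsSigmaCompact (⋃ n, F n ∩ C) := isSigmaCompact_iUnion _ fun n =>
    isSigmaCompact_univ.of_isClosed_subset ((hF n).inter hC) (subset_univ _)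
  obtain ⟨K, hK, e⟩ := h1.image continuous_fst
  have e' : {x : E | ∃ t : ℝ, (x, t) ∈ U ∧ (x, t) ∈ C} = ⋃ n, K n := by
    rw [e, ← iUnion_inter, hFU]
    ext x
    simp
  rw [e']
  exact MeasurableSet.iUnion fun n => (hK n).measurableSet

namespace Surf

variable {M : Surf} {e : E}

theorem PicB_bdd (M : Surf) (e x : E) : BddBelow {t : ℝ | 0 < t ∧ x - t • e ∈ M.S} :=
  ⟨0, fun _ ht => ht.1.le⟩

theorem ell_nonneg (M : Surf) (e x : E) : 0 ≤ M.ell e x :=
  Real.sInf_nonneg fun _ ht => ht.1.le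

theorem measurableSet_top (M : Surf) (e : E) : MeasurableSet (M.top e) :=
  measurableSet_lt measurable_const (M.N_meas.inner measurable_const)

theorem Mem.measurable_ell (h : M.Mem) (e : E) : Measurable (M.ell e) := by
  have hC : IsClosed {q : E × ℝ | q.1 - q.2 • e ∈ M.S} := h.isClosed.preimage (by fun_prop)
  refine measurable_of_Iio fun a => ?_
  rcases le_or_gt a 0 with ha | ha
  · have e1 : M.ell e ⁻¹' Iio a = ∅ :=
      eq_empty_of_forall_notMem fun x hx => absurd ((M.ell_nonneg e x).trans_lt hx) (not_lt.mpr ha)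
    rw [e1]
    exact MeasurableSet.empty
  have h1 := PicB_proj hC (U := {q | 0 < q.2}) (isOpen_lt continuous_const continuous_snd)
  have h2 := PicB_proj hC (U := {q | 0 < q.2} ∩ {q | q.2 < a})
    ((isOpen_lt continuous_const continuous_snd).inter (isOpen_lt continuous_snd continuous_const))
  refine (congrArg MeasurableSet ?_).mp (h1.compl.union h2)
  ext x
  simp only [mem_union, mem_compl_iff, mem_ofPred_eq, mem_inter_iff, mem_preimage, mem_Iio]
  by_cases hne : {t : ℝ | 0 < t ∧ x - t • e ∈ M.S}.Nonempty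
  · rw [ell, csInf_lt_iff (M.PicB_bdd e x) hne]
    exact ⟨fun hh => (hh.resolve_left (not_not.mpr hne)).imp fun t ht => ⟨⟨ht.1.1, ht.2⟩, ht.1.2⟩,
      fun hh => .inr (hh.imp fun t ht => ⟨⟨ht.1.1, ht.2⟩, ht.1.2⟩)⟩
  · refine ⟨fun _ => ?_, fun _ => .inl hne⟩
    rwa [ell, not_nonempty_iff_eq_empty.mp hne, Real.sInf_empty]

theorem Mem.measurable_partner (h : M.Mem) (e : E) : Measurable (M.partner e) :=
  measurable_id.sub ((h.measurable_ell e).smul_const e)

theorem Mem.measurable_alpha (h : M.Mem) (e : E) : Measurable (M.alpha e) :=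
  (measurable_id.inner measurable_const).sub ((h.measurable_ell e).div_const 2)

theorem Mem.measurable_edx (h : M.Mem) (e : E) : Measurable (M.edx e) := by
  have h1 : Measurable fun x : E => (e, M.N x, M.N (M.partner e x)) :=
    measurable_const.prodMk (M.N_meas.prodMk (M.N_meas.comp (h.measurable_partner e)))
  have h2 := continuous_ed.measurable.comp h1
  exact h2

theorem Mem.measurableSet_Bot (h : M.Mem) (T : ℝ) : MeasurableSet (M.Bot T) := by
  have hC : IsClosed {q : E × ℝ | pt (pr q.1) q.2 ∈ M.S} := h.isClosed.preimage (by fun_prop)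
  have h1 := PicB_proj hC (U := {q | -T < q.2} ∩ {q | q.2 < q.1 2})
    ((isOpen_lt continuous_const continuous_snd).inter (isOpen_lt continuous_snd (by fun_prop)))
  refine (congrArg MeasurableSet ?_).mp
    (M.measurableSet_S.inter ((measurableSet_lay T).inter h1.compl))
  ext x
  simp only [Bot, lay, mem_inter_iff, mem_compl_iff, mem_ofPred_eq, not_exists, not_and, and_imp]

theorem edx_nonneg (M : Surf) (e x : E) : 0 ≤ M.edx e x :=
  ed_nonneg _ _ _

/-- The partner of a point of `S` lies in `S` (it is the point itself if there is no chord). -/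
theorem Mem.partner_mem (h : M.Mem) (e : E) {x : E} (hx : x ∈ M.S) : M.partner e x ∈ M.S := by
  rcases {t : ℝ | 0 < t ∧ x - t • e ∈ M.S}.eq_empty_or_nonempty with h0 | hne
  · rwa [partner, ell, h0, Real.sInf_empty, zero_smul, sub_zero]
  · have hC : IsClosed {t : ℝ | x - t • e ∈ M.S} := h.isClosed.preimage (by fun_prop)
    exact closure_minimal (fun t ht => ht.2) hC (csInf_mem_closure hne (M.PicB_bdd e x))

theorem Mem.edx_le_two (h : M.Mem) (he : ‖e‖ = 1) {x : E} (hx : x ∈ M.S) : M.edx e x ≤ 2 :=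
  ed_le_two he (M.N_unit x hx) (M.N_unit _ (h.partner_mem e hx))

theorem not_mem_of_lt_ell {x : E} {t : ℝ} (h0 : 0 < t) (ht : t < M.ell e x) : x - t • e ∉ M.S :=
  fun h => notMem_of_lt_csInf ht (M.PicB_bdd e x) ⟨h0, h⟩

theorem ell_le {x : E} {t : ℝ} (h0 : 0 < t) (ht : x - t • e ∈ M.S) : M.ell e x ≤ t :=
  csInf_le (M.PicB_bdd e x) ⟨h0, ht⟩

theorem ell_eq {x : E} {t : ℝ} (h0 : 0 < t) (ht : x - t • e ∈ M.S)
    (h : ∀ s, 0 < s → s < t → x - s • e ∉ M.S) : M.ell e x = t :=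
  IsLeast.csInf_eq ⟨⟨h0, ht⟩, fun s hs => not_lt.mp fun hlt => h s hs.1 hlt hs.2⟩

/-- A top point with a point of `W'` below it has a chord in `W`. -/
theorem Mem.chord (h : M.Mem) {x : E} (hx : x ∈ M.S) (htop : 0 < ⟪M.N x, e⟫) {t : ℝ} (ht : 0 < t)
    (hW : x - t • e ∈ M.W') :
    0 < M.ell e x ∧ M.ell e x < t ∧ (∀ s, 0 < s → s < M.ell e x → x - s • e ∈ M.W) ∧
      ⟪M.N (M.partner e x), e⟫ ≤ 0 ∧ M.ell (-e) (M.partner e x) = M.ell e x ∧
      M.partner (-e) (M.partner e x) = x := by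
  obtain ⟨δ, hδ, hsub⟩ := mem_nhdsGT_iff_exists_Ioo_subset.1
    (M.side x hx e (by rwa [real_inner_comm]))
  have hδ' : (0 : ℝ) < δ := hδ
  have hneg : ∀ s : ℝ, x + (-s) • e = x - s • e := fun s => by rw [neg_smul, sub_eq_add_neg]
  obtain ⟨s₁, hs₁, hs₁t, hS₁⟩ : ∃ s, 0 < s ∧ s < t ∧ x - s • e ∈ M.S := by
    by_contra hcon
    push Not at hcon
    have hb := M.basic_before (a := x) (v := e) (p := -t) (s := 0) (by linarith)
      (fun u _ => h.sub Set.univ (Set.mem_univ _)) (fun u hu hS => ?_) (by simpa using hx)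
      (by simpa [real_inner_comm] using htop)
    · rw [hneg] at hb
      exact disjoint_left.1 M.disj hb hW
    · rw [← neg_neg u, hneg] at hS
      rcases (neg_le.mp hu.1).eq_or_lt with e1 | e1
      · rw [e1] at hS
        exact disjoint_left.1 M.disjS' hW hS
      · exact hcon (-u) (by linarith [hu.2]) e1 hS
  have h0 : 0 < M.ell e x := hδ'.trans_le (le_csInf ⟨s₁, hs₁, hS₁⟩ fun s hs => not_lt.mp fun hlt =>
    disjoint_left.1 M.disjS (hsub ⟨hs.1, hlt⟩).2 hs.2)
  have hin : ∀ s, 0 < s → s < M.ell e x → x - s • e ∈ M.W := by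
    intro s hs hlt
    rw [← hneg]
    refine M.basic_before (a := x) (v := e) (p := -s) (s := 0) (by linarith)
      (fun u _ => h.sub Set.univ (Set.mem_univ _)) (fun u hu => ?_) (by simpa using hx)
      (by simpa [real_inner_comm] using htop)
    rw [← neg_neg u, hneg]
    exact not_mem_of_lt_ell (by linarith [hu.2]) (by linarith [hu.1])
  have hp : ∀ s : ℝ, M.partner e x + s • e = x - (M.ell e x - s) • e := fun s => by
    rw [partner, sub_smul]
    abel
  have hp' : ∀ s : ℝ, M.partner e x - s • (-e) = x - (M.ell e x - s) • e := fun s => by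
    rw [smul_neg, sub_neg_eq_add, hp]
  have hell : M.ell (-e) (M.partner e x) = M.ell e x := by
    refine ell_eq h0 (by rwa [hp', sub_self, zero_smul, sub_zero]) fun s hs hlt => ?_
    rw [hp']
    exact disjoint_left.1 M.disjS (hin _ (by linarith) (by linarith))
  refine ⟨h0, (ell_le hs₁ hS₁).trans_lt hs₁t, hin, not_lt.mp fun hpos => ?_, hell, ?_⟩
  · have h1 := M.side _ (h.partner_mem e hx) e (by rwa [real_inner_comm])
    obtain ⟨s, ⟨h2, -⟩, h3, h4⟩ := (h1.and (Ioo_mem_nhdsGT h0)).exists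
    rw [hp] at h2
    exact disjoint_left.1 M.disj (hin _ (by linarith) (by linarith)) h2
  · rw [partner, hell, hp', sub_self, zero_smul, sub_zero]

/-- Chords under the slab condition. -/
theorem Mem.chord_slab (h : M.Mem) {K : Set ℂ} {T₀ T : ℝ} (h0 : 0 < T₀) (hT : T₀ < T)
    (hs : M.Slab K T₀ T) {x : E} (hx : x ∈ M.S) (hc : x ∈ cyl K T) :
    |x 2| < T₀ ∧ (0 < M.N x 2 → 0 < M.ell e3 x ∧ M.ell e3 x < 2 * T₀ ∧
      M.partner e3 x ∈ cyl K T₀ ∧ pr (M.partner e3 x) = pr x ∧ |M.alpha e3 x| < T₀ ∧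
      M.alpha e3 x = (x 2 + M.partner e3 x 2) / 2 ∧ M.N (M.partner e3 x) 2 ≤ 0) := by
  have h1 : |x 2| < T₀ := not_le.mp fun hle => by
    have := hs _ hc.1 (x 2) hle hc.2.le
    rw [pt_pr] at this
    exact disjoint_left.1 M.disjS' this hx
  refine ⟨h1, fun hN => ?_⟩
  obtain ⟨h2, h3⟩ := abs_lt.mp h1
  have hsub : ∀ s : ℝ, x - s • e3 = pt (pr x) (x 2 - s) := fun s => by
    rw [← pt_sub_smul_e3, pt_pr]
  obtain ⟨k1, k2, -, k3, -⟩ := h.chord (e := e3) hx (by rwa [inner_e3]) (t := x 2 + T₀)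
    (by linarith) (by
      rw [hsub]
      have e1 : |x 2 - (x 2 + T₀)| = T₀ := by rw [sub_add_cancel_left, abs_neg, abs_of_pos h0]
      exact hs _ hc.1 _ e1.ge (e1.le.trans hT.le))
  have hp : M.partner e3 x = pt (pr x) (x 2 - M.ell e3 x) := hsub _
  rw [inner_e3] at k3
  refine ⟨k1, by linarith, ?_, by rw [hp, pr_pt], ?_, ?_, k3⟩
  · rw [hp]
    exact ⟨hc.1, abs_lt.mpr ⟨by rw [pt_two]; linarith, by rw [pt_two]; linarith⟩⟩
  · rw [alpha, inner_e3]
    exact abs_lt.mpr ⟨by linarith, by linarith⟩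
  · rw [alpha, inner_e3, hp, pt_two]
    ring

theorem Slab.mono {K K' : Set ℂ} {T₀ T T₀' T' : ℝ} (h : M.Slab K T₀ T) (hK : K' ⊆ K)
    (h0 : T₀ ≤ T₀') (hT : T' ≤ T) : M.Slab K' T₀' T' :=
  fun y hy t h1 h2 => h y (hK hy) t (h0.trans h1) (h2.trans hT)

theorem PicB_ae_top (M : Surf) (e : E) (A : Set E) :
    ∀ᵐ x ∂M.μ.restrict (A ∩ M.top e), x ∈ M.top e :=
  ae_restrict_of_ae_restrict_of_subset inter_subset_right (ae_restrict_mem (M.measurableSet_top e))

theorem PicB_ae_nonneg (M : Surf) (e : E) (A : Set E) :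
    0 ≤ᵐ[M.μ.restrict (A ∩ M.top e)] fun x => M.edx e x * ⟪M.N x, e⟫ :=
  (M.PicB_ae_top e A).mono fun x hx => mul_nonneg (M.edx_nonneg e x) (le_of_lt hx)

theorem E0_nonneg (M : Surf) (e : E) (A : Set E) : 0 ≤ M.E0 e A :=
  integral_nonneg_of_ae (M.PicB_ae_nonneg e A)

theorem Mem.integrableOn_E0 (h : M.Mem) (he : ‖e‖ = 1) {A : Set E} (hA : Bornology.IsBounded A) :
    IntegrableOn (fun x => M.edx e x * ⟪M.N x, e⟫) A M.μ := by
  obtain ⟨R, hR⟩ := hA.subset_ball 0
  refine (h.bd.integrableOn (g := fun x => M.edx e x * ⟪M.N x, e⟫) isBounded_ball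
    ((h.measurable_edx e).mul
    (M.N_meas.inner measurable_const)) (C := 2 * 1) (fun x hx => ?_) measurableSet_ball).mono_set hR
  rw [abs_mul, abs_of_nonneg (M.edx_nonneg e x)]
  refine mul_le_mul (h.edx_le_two he hx.2) ?_ (abs_nonneg _) zero_le_two
  have := abs_real_inner_le_norm (M.N x) e
  rwa [M.N_unit x hx.2, he, mul_one] at this

theorem Mem.E0_mono (h : M.Mem) (he : ‖e‖ = 1) {A B : Set E} (hAB : A ∩ M.S ⊆ B)
    (hB : Bornology.IsBounded B) : M.E0 e A ≤ M.E0 e B :=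
  setIntegral_mono_set (h.integrableOn_E0 he (hB.subset inter_subset_left)) (M.PicB_ae_nonneg e B)
    (M.ae_mem.mono fun _ hx hA => ⟨hAB ⟨hA.1, hx⟩, hA.2⟩)

/-- With the cone condition a regular line meets `S` in a finite set and every top point has a
chord. -/
theorem Mem.finite_of_cxg (h : M.Mem) (he : ‖e‖ = 1) (hc : M.CXg e) (x : E) :
    (∃ T : ℝ, 0 < T ∧ ∀ t : ℝ, T ≤ |t| → x + t • e ∈ M.W') ∧
      (M.RegLine e x → {t : ℝ | x + t • e ∈ M.S}.Finite) := by
  obtain ⟨R, L, hR, hL, hc⟩ := hc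
  have key : ∀ t : ℝ, R + L * ‖x - ⟪x, e⟫ • e‖ + |⟪x, e⟫| + 1 ≤ |t| → x + t • e ∈ M.W' := by
    intro t ht
    have h1 : ⟪x + t • e, e⟫ = ⟪x, e⟫ + t := by
      rw [inner_add_left, real_inner_smul_left, PicB_ee he, mul_one]
    have h2 : x + t • e - (⟪x, e⟫ + t) • e = x - ⟪x, e⟫ • e := by
      rw [add_smul]
      abel
    have h3 : |t| ≤ |⟪x, e⟫ + t| + |⟪x, e⟫| := by
      have := abs_sub (⟪x, e⟫ + t) ⟪x, e⟫
      rwa [add_sub_cancel_left] at this
    have h4 := abs_real_inner_le_norm (x + t • e) e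
    rw [he, mul_one, h1] at h4
    have h5 : 0 ≤ L * ‖x - ⟪x, e⟫ • e‖ := by positivity
    refine hc _ (by linarith) ?_
    rw [h1, h2]
    linarith
  obtain ⟨T, hT, key⟩ : ∃ T : ℝ, 0 < T ∧ ∀ t : ℝ, T ≤ |t| → x + t • e ∈ M.W' :=
    ⟨_, by positivity, key⟩
  refine ⟨⟨T, hT, key⟩, fun hreg => ?_⟩
  refine (M.basic_finite (a := x) (v := e) (p := -T) (q := T) (fun u _ => h.sub Set.univ (Set.mem_univ _))
    fun t _ ht => by rw [real_inner_comm]; exact hreg t ht).subset fun t ht => ⟨?_, ht⟩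
  exact abs_le.mp (not_lt.mp fun hlt => disjoint_left.1 M.disjS' (key t hlt.le) ht)

theorem RegLine.add {x : E} (h : M.RegLine e x) (t : ℝ) : M.RegLine e (x + t • e) := by
  intro s
  rw [add_assoc, ← add_smul]
  exact h (t + s)

theorem CXg.neg (h : M.CXg e) : M.CXg (-e) := by
  obtain ⟨R, L, hR, hL, hc⟩ := h
  refine ⟨R, L, hR, hL, fun x hx hx' => hc x hx ?_⟩
  rwa [inner_neg_right, neg_smul, smul_neg, neg_neg, abs_neg] at hx' 

theorem Bigraph.inj {a : ℝ} (h : M.Bigraph e a) {x : E} {t : ℝ} (hx : x ∈ M.S)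
    (hx' : x + t • e ∈ M.S) (ha : a ≤ ⟪x, e⟫) (ha' : a ≤ ⟪x + t • e, e⟫) : t = 0 := by
  rcases lt_trichotomy t 0 with ht | ht | ht
  · have := h.up _ hx' ha' (-t) (by linarith)
    rw [add_assoc, ← add_smul, add_neg_cancel, zero_smul, add_zero] at this
    exact absurd hx (disjoint_left.1 M.disjS' this)
  · exact ht
  · exact absurd hx' (disjoint_left.1 M.disjS' (h.up x hx ha t ht))

theorem Bigraph.neg {a : ℝ} (h : M.Bigraph e a) {x : E} (hx : x ∈ M.S) (ha : ⟪x, e⟫ < a) :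
    ⟪M.N x, e⟫ < 0 := by
  have := h.pos _ ((h.sym x).mpr hx) (by rw [inner_refl h.unit]; linarith)
  rw [h.symN x hx, inner_mirror h.unit] at this
  linarith

theorem Bigraph.big {a : ℝ} (h : M.Bigraph e a) (hc : M.CXg e) : Big M e a := by
  obtain ⟨R, L, -, -, hc⟩ := hc
  exact ⟨fun x hx => (h.sym x).mpr hx, fun x hx => (h.symW x).mpr hx, h.pos, L, R, hc⟩

theorem Bigraph.E0_eq_zero {a : ℝ} (h : M.Bigraph e a) (hM : M.Mem) (A : Set E) : M.E0 e A = 0 := by
  refine integral_eq_zero_of_ae ?_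
  filter_upwards [M.PicB_ae_top e A, ae_restrict_of_ae M.ae_mem] with x htop hx
  have htop' : 0 < ⟪M.N x, e⟫ := htop
  have ha : a < ⟪x, e⟫ := by
    rcases lt_trichotomy ⟪x, e⟫ a with h1 | h1 | h1
    · linarith [h.neg hx h1]
    · linarith [h.zero x hx h1]
    · exact h1
  have h1 : M.ell e x = 2 * (⟪x, e⟫ - a) := ell_eq (by linarith) ((h.sym x).mpr hx)
    fun s hs hlt => disjoint_left.1 M.disjS (h.mid x hx s hs hlt)
  have h2 : M.partner e x = refl e a x := by rw [partner, h1, refl]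
  have h3 : M.edx e x = 0 := by
    rw [edx, h2, h.symN x hx, ed_eq_zero, mirror_mirror h.unit]
  rw [h3, zero_mul, Pi.zero_apply]


end Surf

theorem PicB_sim_sub (A : E ≃ₗᵢ[ℝ] E) (c : ℝ) (b x v : E) (t : ℝ) :
    simMap A c b (x - t • v) = simMap A c b x - (c * t) • A v := by
  rw [sub_eq_add_neg, ← neg_smul, simMap_add_smul, mul_neg, neg_smul, sub_eq_add_neg]

theorem PicB_sim_inner (A : E ≃ₗᵢ[ℝ] E) (c : ℝ) (b x e : E) :
    ⟪simMap A c b x, A e⟫ = c * ⟪x, e⟫ + ⟪b, A e⟫ := by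
  rw [simMap, inner_add_left, real_inner_smul_left, A.inner_map_map]

theorem PicB_sim_refl (A : E ≃ₗᵢ[ℝ] E) (c : ℝ) (b x e : E) (a : ℝ) :
    refl (A e) (c * a + ⟪b, A e⟫) (simMap A c b x) = simMap A c b (refl e a x) := by
  rw [refl, refl, PicB_sim_sub, PicB_sim_inner]
  congr 2
  ring

namespace IsSim

variable {M M' : Surf} {A : E ≃ₗᵢ[ℝ] E} {c : ℝ} {b : E}

open Pointwise in
theorem PicB_ell (h : IsSim M M' A c b) (e x : E) :
    M'.ell (A e) (simMap A c b x) = c * M.ell e x := by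
  have hc := h.pos
  have e1 : {t : ℝ | 0 < t ∧ simMap A c b x - t • A e ∈ M'.S} =
      c • {t : ℝ | 0 < t ∧ x - t • e ∈ M.S} := by
    ext t
    rw [mem_smul_set_iff_inv_smul_mem₀ hc.ne', mem_ofPred_eq, mem_ofPred_eq, ← h.S, PicB_sim_sub,
      smul_eq_mul, mul_inv_cancel_left₀ hc.ne', mul_pos_iff_of_pos_left (inv_pos.mpr hc)]
  rw [Surf.ell, e1, Real.sInf_smul_of_nonneg hc.le, smul_eq_mul, Surf.ell]

theorem ell (h : IsSim M M' A c b) (e x : E) :
    M'.ell (A e) (simMap A c b x) = c * M.ell e x :=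
  PicB_ell h e x

theorem partner (h : IsSim M M' A c b) (e x : E) :
    M'.partner (A e) (simMap A c b x) = simMap A c b (M.partner e x) := by
  rw [Surf.partner, Surf.partner, h.ell, PicB_sim_sub]

theorem alpha (h : IsSim M M' A c b) (e x : E) :
    M'.alpha (A e) (simMap A c b x) = c * M.alpha e x + ⟪b, A e⟫ := by
  rw [Surf.alpha, Surf.alpha, h.ell, PicB_sim_inner]
  ring

theorem edx (h : IsSim M M' A c b) (e x : E) : M'.edx (A e) (simMap A c b x) = M.edx e x := by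
  rw [Surf.edx, Surf.edx, h.partner, h.N, h.N, ed_map]

theorem top (h : IsSim M M' A c b) (e x : E) : simMap A c b x ∈ M'.top (A e) ↔ x ∈ M.top e := by
  simp only [Surf.top, mem_ofPred_eq, h.N, A.inner_map_map]

theorem E0 (h : IsSim M M' A c b) (e : E) (B : Set E) :
    M'.E0 (A e) B = c ^ 2 * M.E0 e (simMap A c b ⁻¹' B) := by
  have e1 : simMap A c b ⁻¹' (B ∩ M'.top (A e)) = simMap A c b ⁻¹' B ∩ M.top e := by
    ext x
    exact and_congr_right fun _ => h.top e x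
  rw [Surf.E0, Surf.E0, h.setIntegral, e1]
  simp only [h.edx, h.N, A.inner_map_map]

theorem PicB_cxg (h : IsSim M M' A c b) {e : E} (he : ‖e‖ = 1) (hc : M.CXg e) : M'.CXg (A e) := by
  obtain ⟨R, L, hR, hL, hc⟩ := hc
  have hc0 := h.pos
  have hb := norm_nonneg b
  refine ⟨4 * (2 * L + 1) * ‖b‖ + c * R + ‖b‖ + 1, 2 * L + 1, by positivity, by positivity, ?_⟩
  intro y hy hy'
  obtain ⟨x, rfl⟩ := simMap_surjective A hc0 b y
  have he' : ‖A e‖ = 1 := by rw [A.norm_map, he]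
  have h1 : |⟪b, A e⟫| ≤ ‖b‖ := by
    have := abs_real_inner_le_norm b (A e)
    rwa [he', mul_one] at this
  have h2 : ‖simMap A c b x‖ ≤ c * ‖x‖ + ‖b‖ := by
    refine (norm_add_le _ _).trans_eq ?_
    rw [norm_smul, A.norm_map, Real.norm_of_nonneg hc0.le]
  have h3 : |⟪simMap A c b x, A e⟫| ≤ c * |⟪x, e⟫| + ‖b‖ := by
    rw [PicB_sim_inner]
    refine (abs_add_le _ _).trans ?_
    rw [abs_mul, abs_of_pos hc0]
    linarith
  have h4 : ‖simMap A c b x‖ ≤ ‖simMap A c b x - ⟪simMap A c b x, A e⟫ • A e‖ +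
      |⟪simMap A c b x, A e⟫| := by
    have := norm_add_le (simMap A c b x - ⟪simMap A c b x, A e⟫ • A e) (⟪simMap A c b x, A e⟫ • A e)
    rwa [sub_add_cancel, norm_smul, he', mul_one, Real.norm_eq_abs] at this
  have h5 : c * ‖x - ⟪x, e⟫ • e‖ ≤ ‖simMap A c b x - ⟪simMap A c b x, A e⟫ • A e‖ + 2 * ‖b‖ := by
    have e1 : c • A (x - ⟪x, e⟫ • e) = simMap A c b x - ⟪simMap A c b x, A e⟫ • A e -
        (b - ⟪b, A e⟫ • A e) := by
      rw [PicB_sim_inner, simMap, map_sub, map_smul, smul_sub, smul_smul, add_smul]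
      abel
    have e2 := norm_sub_le (simMap A c b x - ⟪simMap A c b x, A e⟫ • A e) (b - ⟪b, A e⟫ • A e)
    rw [← e1, norm_smul, A.norm_map, Real.norm_of_nonneg hc0.le] at e2
    have e3 := norm_sub_le b (⟪b, A e⟫ • A e)
    rw [norm_smul, he', mul_one, Real.norm_eq_abs] at e3
    linarith
  have h6 := norm_nonneg (simMap A c b x - ⟪simMap A c b x, A e⟫ • A e)
  have h7 : 0 ≤ L * ‖b‖ := by positivity
  have h8 := mul_nonneg hL.le h6
  have h9 := mul_pos hc0 hR
  rw [h.W']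
  refine hc x (le_of_mul_le_mul_left (by linarith) hc0) (lt_of_mul_lt_mul_left ?_ hc0.le)
  have h10 := mul_le_mul_of_nonneg_left h5 hL.le
  nlinarith

theorem cxg (h : IsSim M M' A c b) {e : E} (he : ‖e‖ = 1) : M'.CXg (A e) ↔ M.CXg e := by
  refine ⟨fun hc => ?_, h.PicB_cxg he⟩
  have := h.symm.PicB_cxg (by rw [A.norm_map, he]) hc
  rwa [A.symm_apply_apply] at this

theorem regLine (h : IsSim M M' A c b) (e x : E) :
    M'.RegLine (A e) (simMap A c b x) ↔ M.RegLine e x := by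
  refine ⟨fun H s hs => ?_, fun H t => ?_⟩
  · have := H (c * s)
    rw [← simMap_add_smul, h.S, h.N, A.inner_map_map] at this
    exact this hs
  · rw [← mul_inv_cancel_left₀ h.pos.ne' t, ← simMap_add_smul, h.S, h.N, A.inner_map_map]
    exact H _

theorem edZero (h : IsSim M M' A c b) (e : E) : M'.EdZero (A e) ↔ M.EdZero e := by
  rw [Surf.EdZero, (simMap_surjective A h.pos b).forall]
  simp only [h.S, h.regLine, h.N, A.inner_map_map, h.edx]
  rfl

theorem PicB_bigraph (h : IsSim M M' A c b) {e : E} {a : ℝ} (H : M.Bigraph e a) :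
    M'.Bigraph (A e) (c * a + ⟪b, A e⟫) := by
  have hc := h.pos
  have hs := simMap_surjective A hc b
  refine ⟨by rw [A.norm_map, H.unit], hs.forall.mpr fun x => ?_, hs.forall.mpr fun x => ?_,
    hs.forall.mpr fun x => ?_, hs.forall.mpr fun x => ?_, hs.forall.mpr fun x => ?_,
    hs.forall.mpr fun x => ?_, ?_, hs.forall.mpr fun x => ?_, hs.forall.mpr fun x => ?_⟩
  · rw [PicB_sim_refl, h.S, h.S, H.sym]
  · rw [PicB_sim_refl, h.W, h.W, H.symW]
  · rw [PicB_sim_refl, h.W', h.W', H.symW']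
  · rw [PicB_sim_refl, h.S, h.N, h.N, mirror_map]
    exact fun hx => congrArg A (H.symN x hx)
  · rw [h.S, h.N, A.inner_map_map, PicB_sim_inner]
    exact fun hx hlt => H.pos x hx (lt_of_mul_lt_mul_left (by linarith) hc.le)
  · rw [h.S, h.N, A.inner_map_map, PicB_sim_inner]
    exact fun hx he => H.zero x hx (mul_left_cancel₀ hc.ne' (by linarith))
  · obtain ⟨x, hx, he⟩ := H.ne
    exact ⟨_, (h.S x).mpr hx, by rw [PicB_sim_inner, he]⟩
  · rw [h.S, PicB_sim_inner]
    intro hx hle t ht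
    rw [← mul_inv_cancel_left₀ hc.ne' t, ← simMap_add_smul, h.W']
    exact H.up x hx (le_of_mul_le_mul_left (by linarith) hc) _ (by positivity)
  · rw [h.S, PicB_sim_inner]
    intro hx t ht hlt
    rw [← mul_inv_cancel_left₀ hc.ne' t, ← PicB_sim_sub, h.W]
    refine H.mid x hx _ (by positivity) ?_
    rw [inv_mul_lt_iff₀ hc]
    linarith

theorem bigraph (h : IsSim M M' A c b) (e : E) (a : ℝ) :
    M'.Bigraph (A e) (c * a + ⟪b, A e⟫) ↔ M.Bigraph e a := by
  refine ⟨fun H => ?_, h.PicB_bigraph⟩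
  have h1 := h.symm.PicB_bigraph H
  have e1 : c⁻¹ * (c * a + ⟪b, A e⟫) + ⟪-(c⁻¹ • A.symm b), A.symm (A e)⟫ = a := by
    rw [inner_neg_left, real_inner_smul_left, A.symm.inner_map_map, mul_add,
      inv_mul_cancel_left₀ h.pos.ne', add_neg_cancel_right]
  rwa [e1, A.symm_apply_apply] at h1


end IsSim

end MW
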