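import Pool.Agent.P.MP_064970_gt.B.Coord
import Pool.Agent.P.MP_064970_gt.B.ChartAPI

/-! Similarities. -/

open MeasureTheory Set Filter Topology Metric
open scoped RealInnerProductSpace ENNReal ComplexConjugate Real

noncomputable section

namespace MW

theorem continuous_simMap (A : E ≃ₗᵢ[ℝ] E) (c : ℝ) (b : E) : Continuous (simMap A c b) := by
  unfold simMap; fun_prop
theorem simMap_sub (A : E ≃ₗᵢ[ℝ] E) (c : ℝ) (b x y : E) :
    simMap A c b x - simMap A c b y = c • A (x - y) := by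
  simp only [simMap, map_sub, smul_sub]; abel
theorem norm_simMap_sub (A : E ≃ₗᵢ[ℝ] E) {c : ℝ} (hc : 0 < c) (b x y : E) :
    ‖simMap A c b x - simMap A c b y‖ = c * ‖x - y‖ := by
  rw [simMap_sub, norm_smul, LinearIsometryEquiv.norm_map, Real.norm_of_nonneg hc.le]
theorem simMap_add_smul (A : E ≃ₗᵢ[ℝ] E) (c : ℝ) (b x v : E) (t : ℝ) :
    simMap A c b (x + t • v) = simMap A c b x + (c * t) • A v := by
  simp only [simMap, map_add, map_smul, smul_add, smul_smul]; abel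
theorem simMap_inv (A : E ≃ₗᵢ[ℝ] E) {c : ℝ} (hc : 0 < c) (b x : E) :
    simMap A.symm c⁻¹ (-(c⁻¹ • A.symm b)) (simMap A c b x) = x := by
  simp only [simMap, map_add, map_smul, smul_add, smul_smul, LinearIsometryEquiv.symm_apply_apply,
    inv_mul_cancel₀ hc.ne', one_smul]
  abel
theorem simMap_inv' (A : E ≃ₗᵢ[ℝ] E) {c : ℝ} (hc : 0 < c) (b x : E) :
    simMap A c b (simMap A.symm c⁻¹ (-(c⁻¹ • A.symm b)) x) = x := by
  simp only [simMap, map_add, map_neg, map_smul, smul_add, smul_neg, smul_smul,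
    LinearIsometryEquiv.apply_symm_apply, mul_inv_cancel₀ hc.ne', one_smul]
  abel
theorem simMap_surjective (A : E ≃ₗᵢ[ℝ] E) {c : ℝ} (hc : 0 < c) (b : E) :
    Function.Surjective (simMap A c b) := fun x => ⟨_, simMap_inv' A hc b x⟩
theorem simMap_injective (A : E ≃ₗᵢ[ℝ] E) {c : ℝ} (hc : 0 < c) (b : E) :
    Function.Injective (simMap A c b) := fun x y h => by
  rw [← simMap_inv A hc b x, h, simMap_inv A hc b y]

/-- A similarity as a homeomorphism. -/
def simHomeo (A : E ≃ₗᵢ[ℝ] E) {c : ℝ} (hc : 0 < c) (b : E) : E ≃ₜ E where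
  toFun := simMap A c b
  invFun := simMap A.symm c⁻¹ (-(c⁻¹ • A.symm b))
  left_inv := simMap_inv A hc b
  right_inv := simMap_inv' A hc b
  continuous_toFun := continuous_simMap _ _ _
  continuous_invFun := continuous_simMap _ _ _

theorem simHomeo_coe (A : E ≃ₗᵢ[ℝ] E) {c : ℝ} (hc : 0 < c) (b : E) :
    ⇑(simHomeo A hc b) = simMap A c b := rfl

theorem measurableEmbedding_simMap (A : E ≃ₗᵢ[ℝ] E) {c : ℝ} (hc : 0 < c) (b : E) :
    MeasurableEmbedding (simMap A c b) := (simHomeo A hc b).measurableEmbedding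
theorem simMap_mem_ball (A : E ≃ₗᵢ[ℝ] E) {c : ℝ} (hc : 0 < c) (b x p : E) (r : ℝ) :
    simMap A c b x ∈ ball (simMap A c b p) (c * r) ↔ x ∈ ball p r := by
  rw [mem_ball_iff_norm, mem_ball_iff_norm, norm_simMap_sub A hc]
  exact mul_lt_mul_iff_right₀ hc
theorem simMap_comp (A B : E ≃ₗᵢ[ℝ] E) (c d : ℝ) (a b x : E) :
    simMap B d b (simMap A c a x) = simMap (A.trans B) (d * c) (d • B a + b) x := by
  simp only [simMap, map_add, map_smul, smul_add, smul_smul, LinearIsometryEquiv.trans_apply]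
  abel

theorem sim_sum_single (A : E ≃ₗᵢ[ℝ] E) (x : E) (i : Fin 3) :
    A x i = ∑ j, A (EuclideanSpace.single j 1) i * x j := by
  have hx : x = ∑ j, x j • EuclideanSpace.single j (1 : ℝ) := by
    ext k
    simp [Fin.sum_univ_three]
    fin_cases k <;> simp
  conv_lhs => rw [hx]
  simp only [map_sum, map_smul]
  simp [Fin.sum_univ_three, mul_comm]

/-- The holomorphic data of the image of a chart. -/
def simPhi (A : E ≃ₗᵢ[ℝ] E) (c : ℝ) (b : E) (ch : Chart) (i : Fin 3) (z : ℂ) : ℂ :=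
  (c : ℂ) * ∑ j, ((A (EuclideanSpace.single j 1) i : ℝ) : ℂ) * ch.Φ j z + ((b i : ℝ) : ℂ)

theorem simPhi_hasDerivAt (A : E ≃ₗᵢ[ℝ] E) (c : ℝ) (b : E) (ch : Chart) (i : Fin 3) {z : ℂ}
    (hz : z ∈ ball (0 : ℂ) ch.r) :
    HasDerivAt (simPhi A c b ch i)
      ((c : ℂ) * ∑ j, ((A (EuclideanSpace.single j 1) i : ℝ) : ℂ) * deriv (ch.Φ j) z) z := by
  have h : ∀ j, HasDerivAt (ch.Φ j) (deriv (ch.Φ j) z) z := fun j =>
    ((ch.hol j).differentiableAt (isOpen_ball.mem_nhds hz)).hasDerivAt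
  have h2 := ((HasDerivAt.fun_sum (u := Finset.univ) fun j _ =>
    (h j).const_mul ((A (EuclideanSpace.single j 1) i : ℝ) : ℂ)).const_mul (c : ℂ)).add_const
      ((b i : ℝ) : ℂ)
  exact h2

theorem simPhi_deriv_re (A : E ≃ₗᵢ[ℝ] E) (c : ℝ) (b : E) (ch : Chart) (i : Fin 3) {z : ℂ}
    (hz : z ∈ ball (0 : ℂ) ch.r) :
    (deriv (simPhi A c b ch i) z).re = c * A (ch.Xu z) i := by
  rw [(simPhi_hasDerivAt A c b ch i hz).deriv, sim_sum_single A (ch.Xu z) i]
  simp [Fin.sum_univ_three, Chart.Xu]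

theorem simPhi_deriv_im (A : E ≃ₗᵢ[ℝ] E) (c : ℝ) (b : E) (ch : Chart) (i : Fin 3) {z : ℂ}
    (hz : z ∈ ball (0 : ℂ) ch.r) :
    (deriv (simPhi A c b ch i) z).im = -(c * A (ch.Xv z) i) := by
  rw [(simPhi_hasDerivAt A c b ch i hz).deriv, sim_sum_single A (ch.Xv z) i]
  simp [Fin.sum_univ_three, Chart.Xv]
  ring

theorem sim_norm_sq (x : E) : ‖x‖ ^ 2 = x 0 ^ 2 + x 1 ^ 2 + x 2 ^ 2 := by
  rw [← real_inner_self_eq_norm_sq, inner_eq]; ring

/-- The image of a chart under a similarity. -/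
def simChart (A : E ≃ₗᵢ[ℝ] E) {c : ℝ} (hc : 0 < c) (b : E) (ch : Chart) : Chart where
  r := ch.r
  Φ := simPhi A c b ch
  r_pos := ch.r_pos
  hol := fun i z hz => (simPhi_hasDerivAt A c b ch i hz).differentiableAt.differentiableWithinAt
  null := fun z hz => by
    have h1 := ch.norm_Xu_sq hz
    have h2 := ch.norm_Xv_sq hz
    have h3 := ch.inner_Xu_Xv hz
    rw [← A.norm_map, sim_norm_sq] at h1 h2
    rw [← A.inner_map_map, inner_eq] at h3
    apply Complex.ext
    · simp only [Fin.sum_univ_three, pow_two, Complex.add_re, Complex.mul_re,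
        simPhi_deriv_re A c b ch _ hz, simPhi_deriv_im A c b ch _ hz, Complex.zero_re]
      linear_combination c ^ 2 * (h1 - h2)
    · simp only [Fin.sum_univ_three, pow_two, Complex.add_im, Complex.mul_im,
        simPhi_deriv_re A c b ch _ hz, simPhi_deriv_im A c b ch _ hz, Complex.zero_im]
      linear_combination (-2 * c ^ 2) * h3
  ne := fun z hz => by
    by_contra hcon
    push Not at hcon
    have h1 := ch.norm_Xu_sq hz
    have h0 := ch.jac_pos hz
    rw [← A.norm_map, sim_norm_sq] at h1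
    have h : ∀ i, A (ch.Xu z) i = 0 := fun i => by
      have := simPhi_deriv_re A c b ch i hz
      rw [hcon i, Complex.zero_re] at this
      exact (mul_eq_zero.1 this.symm).resolve_left hc.ne'
    rw [h 0, h 1, h 2] at h1
    linarith

theorem simChart_X (A : E ≃ₗᵢ[ℝ] E) {c : ℝ} (hc : 0 < c) (b : E) (ch : Chart) (z : ℂ) :
    (simChart A hc b ch).X z = simMap A c b (ch.X z) := by
  ext i
  have : simMap A c b (ch.X z) i = c * A (ch.X z) i + b i := by simp [simMap]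
  rw [this, sim_sum_single A (ch.X z) i]
  simp [Chart.X, simChart, simPhi, Fin.sum_univ_three]

theorem simChart_Xu (A : E ≃ₗᵢ[ℝ] E) {c : ℝ} (hc : 0 < c) (b : E) (ch : Chart) {z : ℂ}
    (hz : z ∈ ball (0 : ℂ) ch.r) : (simChart A hc b ch).Xu z = c • A (ch.Xu z) := by
  ext i
  have := simPhi_deriv_re A c b ch i hz
  simpa [Chart.Xu, simChart] using this

theorem simChart_Xv (A : E ≃ₗᵢ[ℝ] E) {c : ℝ} (hc : 0 < c) (b : E) (ch : Chart) {z : ℂ}
    (hz : z ∈ ball (0 : ℂ) ch.r) : (simChart A hc b ch).Xv z = c • A (ch.Xv z) := by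
  ext i
  have h := simPhi_deriv_im A c b ch i hz
  have h2 : (simChart A hc b ch).Xv z i = -(deriv (simPhi A c b ch i) z).im := rfl
  rw [h2, h]
  simp

theorem simChart_jac (A : E ≃ₗᵢ[ℝ] E) {c : ℝ} (hc : 0 < c) (b : E) (ch : Chart) {z : ℂ}
    (hz : z ∈ ball (0 : ℂ) ch.r) : (simChart A hc b ch).jac z = c ^ 2 * ch.jac z := by
  rw [← (simChart A hc b ch).norm_Xu_sq hz, simChart_Xu A hc b ch hz, norm_smul, A.norm_map,
    mul_pow, ch.norm_Xu_sq hz, Real.norm_of_nonneg hc.le]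

theorem sim_map_apply (A : E ≃ₗᵢ[ℝ] E) {c : ℝ} (hc : 0 < c) (b : E) (μ : Measure E) (B : Set E) :
    (ENNReal.ofReal (c ^ 2) • μ.map (simMap A c b)) B
      = ENNReal.ofReal (c ^ 2) * μ (simMap A c b ⁻¹' B) := by
  rw [Measure.smul_apply, (measurableEmbedding_simMap A hc b).map_apply, smul_eq_mul]

/-- Every surface has an image under every similarity. -/
theorem exists_isSim (M : Surf) (A : E ≃ₗᵢ[ℝ] E) {c : ℝ} (hc : 0 < c) (b : E) :
    ∃ M' : Surf, IsSim M M' A c b := by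
  set g := simMap A.symm c⁻¹ (-(c⁻¹ • A.symm b)) with hg
  have hgc : Continuous g := continuous_simMap _ _ _
  have hgf : ∀ x, g (simMap A c b x) = x := simMap_inv A hc b
  have hfg : ∀ x, simMap A c b (g x) = x := simMap_inv' A hc b
  have hci : 0 < c⁻¹ := inv_pos.2 hc
  have him : ∀ T : Set E, simMap A c b '' T = g ⁻¹' T := fun T => by
    ext x
    constructor
    · rintro ⟨y, hy, rfl⟩
      simpa [hgf] using hy
    · intro hx
      exact ⟨g x, hx, hfg x⟩
  refine ⟨{ O := g ⁻¹' M.O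
            S := g ⁻¹' M.S
            N := fun x => A (M.N (g x))
            W := g ⁻¹' M.W
            W' := g ⁻¹' M.W'
            μ := ENNReal.ofReal (c ^ 2) • M.μ.map (simMap A c b)
            isOpen_O := M.isOpen_O.preimage hgc
            isOpen_W := M.isOpen_W.preimage hgc
            isOpen_W' := M.isOpen_W'.preimage hgc
            cover := by rw [M.cover]; rfl
            disj := M.disj.preimage g
            disjS := M.disjS.preimage g
            disjS' := M.disjS'.preimage g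
            N_meas := A.continuous.measurable.comp (M.N_meas.comp hgc.measurable)
            N_cont := A.continuous.comp_continuousOn
              (M.N_cont.comp hgc.continuousOn fun x hx => hx)
            N_unit := fun x hx => by rw [A.norm_map]; exact M.N_unit _ hx
            side := ?_
            chart := ?_
            conc := ?_ }, hc, ?_, ?_, ?_, ?_, ?_, rfl⟩
  · intro x hx v hv
    have hv' : 0 < ⟪A.symm v, M.N (g x)⟫ := by
      rwa [← A.inner_map_map, A.apply_symm_apply]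
    have h := M.side (g x) hx (A.symm v) hv'
    have ht : Tendsto (fun t : ℝ => c⁻¹ * t) (𝓝[>] 0) (𝓝[>] 0) := by
      refine tendsto_nhdsWithin_iff.2 ⟨?_, ?_⟩
      · have : Tendsto (fun t : ℝ => c⁻¹ * t) (𝓝 0) (𝓝 (c⁻¹ * 0)) :=
          (continuous_const.mul continuous_id).tendsto 0
        rw [mul_zero] at this
        exact this.mono_left nhdsWithin_le_nhds
      · filter_upwards [self_mem_nhdsWithin] with t ht using mul_pos hci ht
    filter_upwards [ht.eventually h] with t ht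
    have e1 : g (x + t • v) = g x + (c⁻¹ * t) • A.symm v := simMap_add_smul _ _ _ _ _ _
    have e2 : g (x - t • v) = g x - (c⁻¹ * t) • A.symm v := by
      have := simMap_add_smul A.symm c⁻¹ (-(c⁻¹ • A.symm b)) x v (-t)
      rw [neg_smul, ← sub_eq_add_neg, mul_neg, neg_smul, ← sub_eq_add_neg] at this
      exact this
    refine ⟨?_, ?_⟩
    · show g (x + t • v) ∈ M.W'
      rw [e1]; exact ht.1
    · show g (x - t • v) ∈ M.W
      rw [e2]; exact ht.2
  · intro p hp
    obtain ⟨ch, hch, hf⟩ := M.chart (g p) hp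
    have hX : (simChart A hc b ch).X = simMap A c b ∘ ch.X := funext (simChart_X A hc b ch)
    refine ⟨simChart A hc b ch, by rw [simChart_X, hch, hfg], ?_, ?_, ?_, ?_⟩
    · rw [hX]
      exact (simMap_injective A hc b).comp_injOn hf.inj
    · intro V hV hVr
      obtain ⟨U, hU, hUe⟩ := hf.opn V hV hVr
      refine ⟨g ⁻¹' U, hU.preimage hgc, ?_⟩
      rw [hX, image_comp, hUe, him, preimage_inter]
    · intro z hz
      rw [Chart.nrm_iff, simChart_Xu A hc b ch hz, simChart_Xv A hc b ch hz, simChart_X]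
      simp only [hgf, inner_smul_right, A.inner_map_map, hf.inner_Xu hz, hf.inner_Xv hz, mul_zero,
        and_self]
    · intro B hB hBr
      rw [sim_map_apply A hc b, hX, image_comp,
        preimage_image_eq _ (simMap_injective A hc b), hf.area B hB hBr,
        ← lintegral_const_mul' _ _ ENNReal.ofReal_ne_top]
      refine setLIntegral_congr_fun hB fun z hz => ?_
      rw [simChart_jac A hc b ch (hBr hz), ENNReal.ofReal_mul (sq_nonneg c)]
  · rw [sim_map_apply A hc b]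
    have : simMap A c b ⁻¹' (g ⁻¹' M.S)ᶜ = M.Sᶜ := by
      ext x; simp [hgf]
    rw [this, M.conc, mul_zero]
  · intro x; simp [hgf]
  · intro x; simp [hgf]
  · intro x; simp [hgf]
  · intro x; simp [hgf]
  · intro x; simp [hgf]

/-- The image of `M` under `x ↦ c A x + b` (and `M` itself if `c ≤ 0`). -/
def Surf.sim (M : Surf) (A : E ≃ₗᵢ[ℝ] E) (c : ℝ) (b : E) : Surf :=
  if hc : 0 < c then (exists_isSim M A hc b).choose else M

theorem Surf.isSim (M : Surf) (A : E ≃ₗᵢ[ℝ] E) {c : ℝ} (hc : 0 < c) (b : E) :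
    IsSim M (M.sim A c b) A c b := by
  unfold Surf.sim
  rw [dif_pos hc]
  exact (exists_isSim M A hc b).choose_spec

/-- The blow-up `(M - p) / ρ`. -/
def Surf.zoom (M : Surf) (p : E) (ρ : ℝ) : Surf :=
  M.sim (LinearIsometryEquiv.refl ℝ E) ρ⁻¹ (-(ρ⁻¹ • p))

theorem Surf.isSim_zoom (M : Surf) (p : E) {ρ : ℝ} (hρ : 0 < ρ) :
    IsSim M (M.zoom p ρ) (LinearIsometryEquiv.refl ℝ E) ρ⁻¹ (-(ρ⁻¹ • p)) := M.isSim _ (inv_pos.2 hρ) _
theorem simMap_zoom (p : E) (ρ : ℝ) (x : E) :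
    simMap (LinearIsometryEquiv.refl ℝ E) ρ⁻¹ (-(ρ⁻¹ • p)) x = ρ⁻¹ • (x - p) := by
  simp [simMap, sub_eq_add_neg]

namespace IsSim

variable {M M' : Surf} {A : E ≃ₗᵢ[ℝ] E} {c : ℝ} {b : E}

theorem symm (h : IsSim M M' A c b) : IsSim M' M A.symm c⁻¹ (-(c⁻¹ • A.symm b)) := by
  have hc := h.pos
  have hfg := simMap_inv' A hc b
  refine ⟨inv_pos.2 hc, fun x => ?_, fun x => ?_, fun x => ?_, fun x => ?_, fun x => ?_, ?_⟩
  · rw [← h.O, hfg]
  · rw [← h.S, hfg]
  · rw [← h.W, hfg]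
  · rw [← h.W', hfg]
  · have := h.N (simMap A.symm c⁻¹ (-(c⁻¹ • A.symm b)) x)
    rw [hfg] at this
    rw [this, A.symm_apply_apply]
  · rw [h.μ, Measure.map_smul, Measure.map_map (continuous_simMap _ _ _).measurable
      (continuous_simMap _ _ _).measurable, smul_smul, ← ENNReal.ofReal_mul (sq_nonneg _)]
    have e1 : (simMap A.symm c⁻¹ (-(c⁻¹ • A.symm b)) ∘ simMap A c b) = id :=
      funext (simMap_inv A hc b)
    have e2 : c⁻¹ ^ 2 * c ^ 2 = 1 := by field_simp
    rw [e1, e2, Measure.map_id, ENNReal.ofReal_one, one_smul]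
theorem swap (h : IsSim M M' A c b) : IsSim M.swap M'.swap A c b := 
  ⟨h.pos, h.O, h.S, h.W', h.W, fun x => by
    show -M'.N (simMap A c b x) = A (-M.N x)
    rw [h.N, map_neg], h.μ⟩
theorem image_S (h : IsSim M M' A c b) : M'.S = simMap A c b '' M.S := by
  ext x
  obtain ⟨y, rfl⟩ := simMap_surjective A h.pos b x
  rw [h.S, (simMap_injective A h.pos b).mem_set_image]
theorem measure (h : IsSim M M' A c b) (B : Set E) :
    M'.μ B = ENNReal.ofReal (c ^ 2) * M.μ (simMap A c b ⁻¹' B) := by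
  rw [h.μ, sim_map_apply A h.pos b]
theorem integral (h : IsSim M M' A c b) (g : E → ℝ) :
    ∫ x, g x ∂M'.μ = c ^ 2 * ∫ x, g (simMap A c b x) ∂M.μ := by
  rw [h.μ, integral_smul_measure, (measurableEmbedding_simMap A h.pos b).integral_map,
    ENNReal.toReal_ofReal (sq_nonneg c), smul_eq_mul]
theorem setIntegral (h : IsSim M M' A c b) (B : Set E) (g : E → ℝ) :
    ∫ x in B, g x ∂M'.μ = c ^ 2 * ∫ x in simMap A c b ⁻¹' B, g (simMap A c b x) ∂M.μ := by
  rw [h.μ, Measure.restrict_smul, integral_smul_measure,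
    (measurableEmbedding_simMap A h.pos b).setIntegral_map,
    ENNReal.toReal_ofReal (sq_nonneg c), smul_eq_mul]
theorem setIntegral_ball (h : IsSim M M' A c b) (p : E) (r : ℝ) (g : E → ℝ) :
    ∫ x in ball (simMap A c b p) (c * r), g x ∂M'.μ
      = c ^ 2 * ∫ x in ball p r, g (simMap A c b x) ∂M.μ := by
  rw [h.setIntegral]
  have : simMap A c b ⁻¹' ball (simMap A c b p) (c * r) = ball p r := by
    ext x; exact simMap_mem_ball A h.pos b x p r
  rw [this]
theorem lintegral (h : IsSim M M' A c b) (g : E → ℝ≥0∞) :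
    ∫⁻ x, g x ∂M'.μ = ENNReal.ofReal (c ^ 2) * ∫⁻ x, g (simMap A c b x) ∂M.μ := by
  rw [h.μ, lintegral_smul_measure, (measurableEmbedding_simMap A h.pos b).lintegral_map,
    smul_eq_mul]
theorem Θ (h : IsSim M M' A c b) (p : E) (r : ℝ) :
    M'.Θ (simMap A c b p) (c * r) = M.Θ p r := by
  have hc := h.pos
  unfold Surf.Θ theta
  rw [h.integral]
  have : ∀ x, ‖simMap A c b x - simMap A c b p‖ ^ 2 / (c * r) ^ 2 = ‖x - p‖ ^ 2 / r ^ 2 := by
    intro x
    rw [norm_simMap_sub A hc, mul_pow, mul_pow, mul_div_mul_left _ _ (pow_pos hc 2).ne']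
  simp only [this]
  rw [mul_pow, mul_div_mul_left _ _ (pow_pos hc 2).ne']
theorem ψ (h : IsSim M M' A c b) (p x : E) :
    M'.ψ (simMap A c b p) (simMap A c b x) = c * M.ψ p x := by
  unfold Surf.ψ
  rw [simMap_sub, h.N, inner_smul_left, A.inner_map_map]
  simp
theorem reg (h : IsSim M M' A c b) (p : E) (r : ℝ) :
    M'.Reg (simMap A c b p) (c * r) ↔ M.Reg p r := by
  constructor
  · intro H x hx y hy
    have := H (simMap A c b x) ⟨(h.S x).2 hx.1, (simMap_mem_ball A h.pos b x p r).2 hx.2⟩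
      (simMap A c b y) ⟨(h.S y).2 hy.1, (simMap_mem_ball A h.pos b y p r).2 hy.2⟩
    rwa [h.N, h.N, ← map_sub, A.norm_map] at this
  · intro H x hx y hy
    obtain ⟨x, rfl⟩ := simMap_surjective A h.pos b x
    obtain ⟨y, rfl⟩ := simMap_surjective A h.pos b y
    rw [h.N, h.N, ← map_sub, A.norm_map]
    exact H x ⟨(h.S x).1 hx.1, (simMap_mem_ball A h.pos b x p r).1 hx.2⟩
      y ⟨(h.S y).1 hy.1, (simMap_mem_ball A h.pos b y p r).1 hy.2⟩
theorem bd (h : IsSim M M' A c b) (hM : M.Bd) : M'.Bd := by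
  intro p r hr
  have hc := h.pos
  obtain ⟨p, rfl⟩ := simMap_surjective A hc b p
  have e : r = c * (r / c) := by field_simp
  have hs : simMap A c b ⁻¹' ball (simMap A c b p) r = ball p (r / c) := by
    ext x
    have := simMap_mem_ball A hc b x p (r / c)
    rwa [← e] at this
  rw [h.measure, hs]
  calc ENNReal.ofReal (c ^ 2) * M.μ (ball p (r / c))
      ≤ ENNReal.ofReal (c ^ 2) * ENNReal.ofReal (2 * π * (r / c) ^ 2) := by
        gcongr; exact hM p _ (div_pos hr hc)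
    _ = ENNReal.ofReal (2 * π * r ^ 2) := by
        rw [← ENNReal.ofReal_mul (sq_nonneg c)]
        congr 1
        field_simp
theorem mem (h : IsSim M M' A c b) (hM : M.Mem) : M'.Mem := by
  refine ⟨eq_univ_of_forall fun x => ?_, h.bd hM.bd⟩
  obtain ⟨x, rfl⟩ := simMap_surjective A h.pos b x
  rw [h.O, hM.univ]
  trivial
theorem flat (h : IsSim M M' A c b) : M'.Flat ↔ M.Flat := by
  constructor
  · intro H x hx y hy
    have := H _ ((h.S x).2 hx) _ ((h.S y).2 hy)
    rw [h.N, h.N] at this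
    exact A.injective this
  · intro H x hx y hy
    obtain ⟨x, rfl⟩ := simMap_surjective A h.pos b x
    obtain ⟨y, rfl⟩ := simMap_surjective A h.pos b y
    rw [h.N, h.N, H x ((h.S x).1 hx) y ((h.S y).1 hy)]
theorem isPreconnected (h : IsSim M M' A c b) : IsPreconnected M'.S ↔ IsPreconnected M.S := by
  rw [h.image_S, ← simHomeo_coe A h.pos b]
  exact (simHomeo A h.pos b).isPreconnected_image

theorem simTo_imp (h : IsSim M M' A c b) {T : Set E} (H : SimTo M.S T) : SimTo M'.S T := by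
  obtain ⟨B, d, a, hd, hT⟩ := H
  refine ⟨B.trans A, c * d, c • A a + b, mul_pos h.pos hd, ?_⟩
  rw [h.image_S, hT, image_image]
  exact image_congr fun x _ => simMap_comp B A d c a b x

theorem simTo (h : IsSim M M' A c b) (T : Set E) : SimTo M'.S T ↔ SimTo M.S T :=
  ⟨h.symm.simTo_imp, h.simTo_imp⟩

theorem isPlane (h : IsSim M M' A c b) : IsPlane M'.S ↔ IsPlane M.S := h.simTo _
theorem isCatenoid (h : IsSim M M' A c b) : IsCatenoid M'.S ↔ IsCatenoid M.S := h.simTo _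
theorem isScherk (h : IsSim M M' A c b) : IsScherk M'.S ↔ IsScherk M.S := by
  unfold IsScherk
  simp only [h.simTo]

end IsSim

theorem sim_zoom_pt (p : E) {ρ : ℝ} (hρ : 0 < ρ) (q : E) :
    simMap (LinearIsometryEquiv.refl ℝ E) ρ⁻¹ (-(ρ⁻¹ • p)) (p + ρ • q) = q := by
  rw [simMap_zoom, add_sub_cancel_left, smul_smul, inv_mul_cancel₀ hρ.ne', one_smul]

theorem Surf.zoom_Θ (M : Surf) (p : E) {ρ : ℝ} (hρ : 0 < ρ) (q : E) (r : ℝ) :
    (M.zoom p ρ).Θ q r = M.Θ (p + ρ • q) (ρ * r) := by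
  have := (M.isSim_zoom p hρ).Θ (p + ρ • q) (ρ * r)
  rwa [sim_zoom_pt p hρ, inv_mul_cancel_left₀ hρ.ne'] at this
theorem Surf.zoom_reg (M : Surf) (p : E) {ρ : ℝ} (hρ : 0 < ρ) (q : E) (r : ℝ) :
    (M.zoom p ρ).Reg q r ↔ M.Reg (p + ρ • q) (ρ * r) := by
  have := (M.isSim_zoom p hρ).reg (p + ρ • q) (ρ * r)
  rwa [sim_zoom_pt p hρ, inv_mul_cancel_left₀ hρ.ne'] at this
theorem Surf.zoom_S (M : Surf) (p : E) {ρ : ℝ} (hρ : 0 < ρ) (x : E) :
    x ∈ (M.zoom p ρ).S ↔ p + ρ • x ∈ M.S := by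
  have := (M.isSim_zoom p hρ).S (p + ρ • x)
  rwa [sim_zoom_pt p hρ] at this
theorem Surf.zoom_W (M : Surf) (p : E) {ρ : ℝ} (hρ : 0 < ρ) (x : E) :
    x ∈ (M.zoom p ρ).W ↔ p + ρ • x ∈ M.W := by
  have := (M.isSim_zoom p hρ).W (p + ρ • x)
  rwa [sim_zoom_pt p hρ] at this
theorem Surf.zoom_W' (M : Surf) (p : E) {ρ : ℝ} (hρ : 0 < ρ) (x : E) :
    x ∈ (M.zoom p ρ).W' ↔ p + ρ • x ∈ M.W' := by
  have := (M.isSim_zoom p hρ).W' (p + ρ • x)
  rwa [sim_zoom_pt p hρ] at this
theorem Surf.zoom_N (M : Surf) (p : E) {ρ : ℝ} (hρ : 0 < ρ) (x : E) :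
    (M.zoom p ρ).N x = M.N (p + ρ • x) := by
  have := (M.isSim_zoom p hρ).N (p + ρ • x)
  rwa [sim_zoom_pt p hρ] at this
theorem Surf.zoom_integral (M : Surf) (p : E) {ρ : ℝ} (hρ : 0 < ρ) (g : E → ℝ) :
    ∫ x, g x ∂(M.zoom p ρ).μ = (∫ x, g (ρ⁻¹ • (x - p)) ∂M.μ) / ρ ^ 2 := by
  rw [(M.isSim_zoom p hρ).integral]
  simp only [simMap_zoom]
  rw [inv_pow, inv_mul_eq_div]
theorem Surf.Mem.zoom {M : Surf} (h : M.Mem) (p : E) {ρ : ℝ} (hρ : 0 < ρ) : (M.zoom p ρ).Mem :=
  (M.isSim_zoom p hρ).mem h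

/-- The plane through `p` orthogonal to a unit vector is a plane. -/
theorem isPlane_of_eq {S : Set E} {p ν : E} (hν : ‖ν‖ = 1) (h : S = {x | ⟪x - p, ν⟫ = 0}) :
    IsPlane S := by
  obtain ⟨A, hA⟩ := exists_iso_e3 hν
  refine ⟨A, 1, p, one_pos, ?_⟩
  rw [h]
  ext x
  obtain ⟨y, rfl⟩ := simMap_surjective A one_pos p x
  rw [(simMap_injective A one_pos p).mem_set_image]
  have : simMap A 1 p y - p = A y := by simp [simMap]
  simp only [mem_ofPred_eq, this, ← hA, A.inner_map_map, inner_e3]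

end MW
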